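import Mathlib

/-!
# Polynomials with prescribed roots: critical points, comparison with a net, escape
-/

set_option autoImplicit false

open Polynomial Filter Topology

namespace Pool.Agent.H363Roots

/-- The monic polynomial with roots `z i`. -/
noncomputable def wr {N : ℕ} (z : Fin N → ℂ) : ℂ[X] := ∏ i, (X - C (z i))

theorem eval_wr {N : ℕ} (z : Fin N → ℂ) (w : ℂ) : (wr z).eval w = ∏ i, (w - z i) := by
  simp [wr, eval_prod]

theorem wr_monic {N : ℕ} (z : Fin N → ℂ) : (wr z).Monic := by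
  unfold wr
  exact monic_prod_of_monic _ _ fun i _ => monic_X_sub_C (z i)

theorem wr_natDegree {N : ℕ} (z : Fin N → ℂ) : (wr z).natDegree = N := by
  unfold wr
  rw [natDegree_prod_of_monic _ _ fun i _ => monic_X_sub_C (z i)]
  simp

theorem eval_derivative_wr {N : ℕ} (z : Fin N → ℂ) (c : ℂ) (i : Fin N)
    (h : ∀ j, j ≠ i → c - z j ≠ 0) :
    (derivative (wr z)).eval c = (∏ j ∈ Finset.univ.erase i, (c - z j)) *
      (1 + (c - z i) * ∑ k ∈ Finset.univ.erase i, (c - z k)⁻¹) := by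
  have h1 : wr z = (X - C (z i)) * ∏ j ∈ Finset.univ.erase i, (X - C (z j)) := by
    exact (Finset.mul_prod_erase Finset.univ (fun j => (X - C (z j) : ℂ[X]))
      (Finset.mem_univ i)).symm
  rw [h1, derivative_mul, derivative_prod_finset]
  simp only [derivative_sub, derivative_X, derivative_C, sub_zero, one_mul, eval_add, eval_mul,
    eval_prod, eval_sub, eval_X, eval_C, eval_finsetSum, mul_one]
  have h2 : ∑ k ∈ Finset.univ.erase i, ∏ j ∈ (Finset.univ.erase i).erase k, (c - z j) =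
      (∏ j ∈ Finset.univ.erase i, (c - z j)) * ∑ k ∈ Finset.univ.erase i, (c - z k)⁻¹ := by
    rw [Finset.mul_sum]
    refine Finset.sum_congr rfl fun k hk => ?_
    rw [← Finset.mul_prod_erase _ _ hk]
    have : c - z k ≠ 0 := h k (Finset.ne_of_mem_erase hk)
    field_simp
  rw [h2]
  ring

/-- A critical point is not close to a root if the roots are separated. -/
theorem critical_far {N : ℕ} (z : Fin N → ℂ) (c : ℂ) {σ : ℝ} (hσ : 0 < σ)
    (hsep : ∀ i j, i ≠ j → σ < ‖z i - z j‖) (hc : (derivative (wr z)).eval c = 0) (i : Fin N) :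
    σ / N ≤ ‖c - z i‖ := by
  by_contra hcon
  push Not at hcon
  have hN0 : (0 : ℝ) < N := by
    have : 0 < N := Fin.pos i
    exact_mod_cast this
  have hfar : ∀ j, j ≠ i → σ * (N - 1) / N < ‖c - z j‖ := by
    intro j hj
    have h1 := hsep j i hj
    have h2 : ‖z j - z i‖ ≤ ‖c - z j‖ + ‖c - z i‖ := by
      have : z j - z i = (c - z i) - (c - z j) := by ring
      rw [this, add_comm]
      exact norm_sub_le _ _
    have h3 : σ * (N - 1) / N = σ - σ / N := by field_simp
    rw [h3]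
    linarith
  have hN1 : (0 : ℝ) ≤ (N : ℝ) - 1 := by
    have : 1 ≤ N := Fin.pos i
    have : (1 : ℝ) ≤ N := by exact_mod_cast this
    linarith
  have hne : ∀ j, j ≠ i → c - z j ≠ 0 := by
    intro j hj h0
    have := hfar j hj
    rw [h0, norm_zero] at this
    have h4 : 0 ≤ σ * (N - 1) / N := by positivity
    linarith
  rw [eval_derivative_wr z c i hne] at hc
  have hprod : (∏ j ∈ Finset.univ.erase i, (c - z j)) ≠ 0 := by
    rw [Finset.prod_ne_zero_iff]
    intro j hj
    exact hne j (Finset.ne_of_mem_erase hj)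
  have hsum : 1 + (c - z i) * ∑ k ∈ Finset.univ.erase i, (c - z k)⁻¹ = 0 := by
    rcases mul_eq_zero.mp hc with h | h
    · exact absurd h hprod
    · exact h
  have h5 : (1 : ℝ) = ‖c - z i‖ * ‖∑ k ∈ Finset.univ.erase i, (c - z k)⁻¹‖ := by
    rw [← norm_mul]
    have : (c - z i) * ∑ k ∈ Finset.univ.erase i, (c - z k)⁻¹ = -1 := by
      linear_combination hsum
    rw [this]
    simp
  rcases Nat.lt_or_ge 1 N with hN2 | hN2
  · have hN2' : (0 : ℝ) < (N : ℝ) - 1 := by
      have : (1 : ℝ) < N := by exact_mod_cast hN2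
      linarith
    have h6 : ‖∑ k ∈ Finset.univ.erase i, (c - z k)⁻¹‖ ≤ N / σ := by
      calc ‖∑ k ∈ Finset.univ.erase i, (c - z k)⁻¹‖ ≤
          ∑ k ∈ Finset.univ.erase i, ‖(c - z k)⁻¹‖ := norm_sum_le _ _
        _ ≤ ∑ k ∈ Finset.univ.erase i, N / (σ * (N - 1)) := by
          refine Finset.sum_le_sum fun k hk => ?_
          rw [norm_inv]
          have h7 := hfar k (Finset.ne_of_mem_erase hk)
          have h8 : 0 < σ * (N - 1) / N := by positivity
          calc ‖c - z k‖⁻¹ ≤ (σ * (N - 1) / N)⁻¹ := by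
                exact inv_anti₀ h8 h7.le
            _ = N / (σ * (N - 1)) := by rw [inv_div]
        _ = N / σ := by
          rw [Finset.sum_const, Finset.card_erase_of_mem (Finset.mem_univ i), Finset.card_univ,
            Fintype.card_fin, nsmul_eq_mul, Nat.cast_sub (by omega), Nat.cast_one]
          field_simp
    have h9 : ‖c - z i‖ * ‖∑ k ∈ Finset.univ.erase i, (c - z k)⁻¹‖ < 1 := by
      calc ‖c - z i‖ * ‖∑ k ∈ Finset.univ.erase i, (c - z k)⁻¹‖ ≤ ‖c - z i‖ * (N / σ) := by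
            gcongr
        _ < σ / N * (N / σ) := by
            have : 0 < N / σ := by positivity
            gcongr
        _ = 1 := by field_simp
    linarith
  · have h10 : N = 1 := by
      have : 0 < N := Fin.pos i
      omega
    subst h10
    have h11 : (Finset.univ.erase i : Finset (Fin 1)) = ∅ := by
      rw [Finset.eq_empty_iff_forall_notMem]
      intro j hj
      exact (Finset.ne_of_mem_erase hj) (Subsingleton.elim j i)
    rw [h11] at h5
    simp at h5

/-- Gauss and Lucas. -/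
theorem critical_norm {N : ℕ} (z : Fin N → ℂ) (c : ℂ) {M : ℝ} (hN : 1 ≤ N)
    (hz : ∀ i, ‖z i‖ ≤ M) (hc : (derivative (wr z)).eval c = 0) : ‖c‖ ≤ M := by
  have hdeg : 0 < (wr z).degree := by
    rw [← natDegree_pos_iff_degree_pos, wr_natDegree]
    omega
  have hd : derivative (wr z) ≠ 0 := by
    intro h0
    have := derivative_eq_zero.mp h0
    rw [wr_natDegree] at this
    omega
  have h1 : c ∈ (wr z).derivative.rootSet ℂ := by
    rw [mem_rootSet]
    refine ⟨hd, ?_⟩
    rw [coe_aeval_eq_eval]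
    exact hc
  have h2 := rootSet_derivative_subset_convexHull_rootSet hdeg h1
  have h3 : convexHull ℝ ((wr z).rootSet ℂ) ⊆ Metric.closedBall (0 : ℂ) M := by
    refine convexHull_min ?_ (convex_closedBall _ _)
    intro w hw
    rw [mem_rootSet, coe_aeval_eq_eval, eval_wr, Finset.prod_eq_zero_iff] at hw
    obtain ⟨-, i, -, hi⟩ := hw
    rw [mem_closedBall_zero_iff]
    have : w = z i := by linear_combination hi
    rw [this]
    exact hz i
  have h4 := h3 h2
  rwa [mem_closedBall_zero_iff] at h4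

/-- Comparison of the values at two nearby points. -/
theorem prod_compare {N : ℕ} (z : Fin N → ℂ) (c g : ℂ) {r h : ℝ} (hr : 0 < r)
    (hc : ∀ i, r ≤ ‖c - z i‖) (hg : ‖c - g‖ ≤ h) :
    ∏ i, ‖g - z i‖ ≤ (∏ i, ‖c - z i‖) * (1 + h / r) ^ N := by
  have h0 : 0 ≤ h := (norm_nonneg _).trans hg
  calc ∏ i, ‖g - z i‖ ≤ ∏ i : Fin N, ‖c - z i‖ * (1 + h / r) := by
        refine Finset.prod_le_prod (fun i _ => norm_nonneg _) fun i _ => ?_
        have h1 : ‖g - z i‖ ≤ ‖c - z i‖ + ‖c - g‖ := by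
          have : g - z i = (c - z i) - (c - g) := by ring
          rw [this]
          exact norm_sub_le _ _
        have h2 : h ≤ ‖c - z i‖ * (h / r) := by
          calc h = r * (h / r) := by field_simp
            _ ≤ ‖c - z i‖ * (h / r) := by gcongr; exact hc i
        linarith
    _ = (∏ i, ‖c - z i‖) * (1 + h / r) ^ N := by
        rw [Finset.prod_mul_distrib]
        simp

/-- Escape. -/
theorem escape {f : ℂ → ℂ} {R : ℝ} (hR : 0 < R) (hf : ∀ w, R ≤ ‖w‖ → 2 * ‖w‖ ≤ ‖f w‖)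
    {w : ℂ} (hw : R ≤ ‖f w‖) : Tendsto (fun k : ℕ => ‖f^[k] w‖) atTop atTop := by
  have h1 : ∀ k : ℕ, 2 ^ k * R ≤ ‖f^[k] (f w)‖ := by
    intro k
    induction k with
    | zero => simpa using hw
    | succ k ih =>
      rw [Function.iterate_succ_apply']
      have h2 : R ≤ ‖f^[k] (f w)‖ := by
        refine le_trans ?_ ih
        have : (1 : ℝ) ≤ 2 ^ k := one_le_pow₀ (by norm_num)
        nlinarith
      have h3 := hf _ h2
      calc (2 : ℝ) ^ (k + 1) * R = 2 * (2 ^ k * R) := by ring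
        _ ≤ 2 * ‖f^[k] (f w)‖ := by linarith
        _ ≤ _ := h3
  rw [← tendsto_add_atTop_iff_nat 1]
  have h4 : Tendsto (fun k : ℕ => (2 : ℝ) ^ k * R) atTop atTop :=
    (tendsto_pow_atTop_atTop_of_one_lt (by norm_num)).atTop_mul_const hR
  refine tendsto_atTop_mono (fun k => ?_) h4
  rw [Function.iterate_succ_apply]
  exact h1 k

/-- The grid of mesh `h`. -/
noncomputable def gridPt (h : ℝ) (p : ℤ × ℤ) : ℂ := ⟨h * p.1, h * p.2⟩

theorem grid_near {h M : ℝ} (hh : 0 < h) {L : ℕ} (hL : M / h + 1 ≤ L) (c : ℂ) (hc : ‖c‖ ≤ M) :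
    ∃ p ∈ Finset.Icc (-(L : ℤ)) L ×ˢ Finset.Icc (-(L : ℤ)) L, ‖c - gridPt h p‖ ≤ h := by
  have key : ∀ x : ℝ, |x| ≤ M → round (x / h) ∈ Finset.Icc (-(L : ℤ)) L ∧
      |x - h * round (x / h)| ≤ h / 2 := by
    intro x hx
    have h1 := abs_sub_round (x / h)
    rw [abs_le] at h1 hx
    have h2 : x / h ≤ M / h := by gcongr; exact hx.2
    have h3 : -(M / h) ≤ x / h := by
      rw [← neg_div]
      gcongr
      exact hx.1
    constructor
    · rw [Finset.mem_Icc]
      constructor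
      · have : (-(L : ℝ)) ≤ round (x / h) := by linarith
        exact_mod_cast this
      · have : (round (x / h) : ℝ) ≤ L := by linarith
        exact_mod_cast this
    · have h4 : x - h * round (x / h) = h * (x / h - round (x / h)) := by field_simp
      rw [h4, abs_mul, abs_of_pos hh]
      have h5 : |x / h - round (x / h)| ≤ 1 / 2 := abs_le.mpr h1
      nlinarith
  obtain ⟨h1, h2⟩ := key c.re ((Complex.abs_re_le_norm c).trans hc)
  obtain ⟨h3, h4⟩ := key c.im ((Complex.abs_im_le_norm c).trans hc)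
  refine ⟨(round (c.re / h), round (c.im / h)), Finset.mem_product.mpr ⟨h1, h3⟩, ?_⟩
  refine (Complex.norm_le_abs_re_add_abs_im _).trans ?_
  have h5 : (c - gridPt h (round (c.re / h), round (c.im / h))).re =
      c.re - h * round (c.re / h) := by simp [gridPt]
  have h6 : (c - gridPt h (round (c.re / h), round (c.im / h))).im =
      c.im - h * round (c.im / h) := by simp [gridPt]
  rw [h5, h6]
  linarith

/-- The deterministic part: a tuple of separated roots in a disc with a large product of distances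
to the grid points has only escaping critical points. -/
theorem all_escape {N : ℕ} (z : Fin N → ℂ) {M σ h lam δ : ℝ} {L : ℕ} (hN : 2 ≤ N)
    (hσ : 0 < σ) (hh : 0 < h) (hL : M / h + 1 ≤ L)
    (hz : ∀ i, ‖z i‖ ≤ M) (hsep : ∀ i j, i ≠ j → σ < ‖z i - z j‖)
    (hgrid : ∀ p ∈ Finset.Icc (-(L : ℤ)) L ×ˢ Finset.Icc (-(L : ℤ)) L,
      Real.exp (-(lam + δ / 4) * N) ≤ ∏ i, ‖gridPt h p - z i‖)
    (hsmall : (1 + h / (σ / N)) ^ N ≤ Real.exp (δ / 4 * N))
    (hR2 : 2 ≤ Real.exp (δ / 4 * N)) (hRM : 2 * M ≤ Real.exp (δ / 4 * N))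
    (hR1 : 1 ≤ Real.exp (lam + δ) / 2 * Real.exp (δ / 4 * N))
    (hR3 : 3 ≤ (Real.exp (lam + δ) / 2) ^ 2 * Real.exp (δ / 4 * N))
    (α t : ℂ) (hα : Real.exp ((lam + δ) * N) ≤ ‖α‖) (ht : ‖t‖ ≤ Real.exp (δ / 4 * N))
    (c : ℂ) (hc : (derivative (C α * wr z + C t)).eval c = 0) :
    Tendsto (fun k : ℕ => ‖(fun w => (C α * wr z + C t).eval w)^[k] c‖) atTop atTop := by
  have hN0 : (0 : ℝ) < N := by
    have : 0 < N := by omega
    exact_mod_cast this
  have hα0 : 0 < ‖α‖ := (Real.exp_pos _).trans_le hα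
  have hc' : (derivative (wr z)).eval c = 0 := by
    rw [derivative_add, derivative_C, add_zero, derivative_mul, derivative_C, zero_mul, zero_add,
      eval_mul, eval_C] at hc
    rcases mul_eq_zero.mp hc with h1 | h1
    · rw [h1, norm_zero] at hα0
      exact absurd hα0 (lt_irrefl _)
    · exact h1
  have heval : ∀ w, ‖(C α * wr z + C t).eval w‖ ≥ ‖α‖ * ∏ i, ‖w - z i‖ - ‖t‖ := by
    intro w
    rw [eval_add, eval_mul, eval_C, eval_C, eval_wr]
    have h1 : ‖α * ∏ i, (w - z i)‖ = ‖α‖ * ∏ i, ‖w - z i‖ := by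
      rw [norm_mul, norm_prod]
    rw [← h1]
    have h2 := norm_sub_norm_le (α * ∏ i, (w - z i)) (-t)
    rw [norm_neg, sub_neg_eq_add] at h2
    exact h2
  refine escape (f := fun w => (C α * wr z + C t).eval w) (Real.exp_pos (δ / 4 * N)) ?_ ?_
  · intro w hw
    refine le_trans ?_ (heval w)
    set R := Real.exp (δ / 4 * N) with hRdef
    set κ := Real.exp (lam + δ) / 2 with hκdef
    have hκ : 0 < κ := by positivity
    have h1 : ∀ i, ‖w‖ / 2 ≤ ‖w - z i‖ := by
      intro i
      have h2 := norm_sub_norm_le w (z i)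
      have h3 := hz i
      linarith
    have h2 : (‖w‖ / 2) ^ N ≤ ∏ i, ‖w - z i‖ := by
      calc (‖w‖ / 2) ^ N = ∏ _i : Fin N, (‖w‖ / 2) := by
            rw [Finset.prod_const, Finset.card_univ, Fintype.card_fin]
        _ ≤ ∏ i, ‖w - z i‖ := Finset.prod_le_prod (fun i _ => by positivity) fun i _ => h1 i
    have h3 : (κ * ‖w‖) ^ N ≤ ‖α‖ * ∏ i, ‖w - z i‖ := by
      calc (κ * ‖w‖) ^ N = Real.exp ((lam + δ) * N) * (‖w‖ / 2) ^ N := by
            rw [mul_comm (lam + δ), Real.exp_nat_mul, ← mul_pow]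
            congr 1
            rw [hκdef]
            ring
        _ ≤ ‖α‖ * ∏ i, ‖w - z i‖ := by gcongr
    have h4 : 1 ≤ κ * ‖w‖ := hR1.trans (by gcongr)
    have h5 : (κ * ‖w‖) ^ 2 ≤ (κ * ‖w‖) ^ N := pow_le_pow_right₀ h4 hN
    have h6 : 3 * ‖w‖ ≤ (κ * ‖w‖) ^ 2 := by
      have h7 : 3 ≤ κ ^ 2 * ‖w‖ := hR3.trans (by gcongr)
      have : (κ * ‖w‖) ^ 2 = (κ ^ 2 * ‖w‖) * ‖w‖ := by ring
      rw [this]
      gcongr
    linarith
  · refine le_trans ?_ (heval c)
    have hcM : ‖c‖ ≤ M := critical_norm z c (by omega) hz hc'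
    obtain ⟨p, hp, hpc⟩ := grid_near hh hL c hcM
    have hfar := critical_far z c hσ hsep hc'
    have hcmp := prod_compare z c (gridPt h p) (r := σ / N) (by positivity) hfar hpc
    have h1 := hgrid p hp
    have h2 : Real.exp (-(lam + δ / 4) * N) ≤ (∏ i, ‖c - z i‖) * Real.exp (δ / 4 * N) := by
      refine h1.trans (hcmp.trans ?_)
      have : 0 ≤ ∏ i, ‖c - z i‖ := Finset.prod_nonneg fun i _ => norm_nonneg _
      gcongr
    have h3 : Real.exp (-(lam + δ / 2) * N) ≤ ∏ i, ‖c - z i‖ := by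
      have h4 : Real.exp (-(lam + δ / 4) * N) = Real.exp (-(lam + δ / 2) * N) *
          Real.exp (δ / 4 * N) := by
        rw [← Real.exp_add]
        congr 1
        ring
      rw [h4] at h2
      exact le_of_mul_le_mul_right h2 (Real.exp_pos _)
    have h5 : Real.exp (δ / 4 * N) * Real.exp (δ / 4 * N) ≤ ‖α‖ * ∏ i, ‖c - z i‖ := by
      calc Real.exp (δ / 4 * N) * Real.exp (δ / 4 * N) =
          Real.exp ((lam + δ) * N) * Real.exp (-(lam + δ / 2) * N) := by
            rw [← Real.exp_add, ← Real.exp_add]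
            congr 1
            ring
        _ ≤ ‖α‖ * ∏ i, ‖c - z i‖ := by gcongr
    nlinarith [Real.exp_pos (δ / 4 * N)]

end Pool.Agent.H363Roots
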