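import Mathlib

/-!
# Exponential moments of the logarithmic potential
-/

set_option autoImplicit false

open MeasureTheory Filter Topology

namespace Pool.Agent.H363Roots

theorem exp_second (v : ℝ) : Real.exp v ≤ 1 + v + v ^ 2 * Real.exp |v| := by
  have h1 : Real.exp v - 1 ≤ v * Real.exp v := by
    have h2 := Real.add_one_le_exp (-v)
    have h3 : Real.exp (-v) * Real.exp v = 1 := by rw [← Real.exp_add]; simp
    nlinarith [Real.exp_pos v]
  rcases le_total 0 v with h | h
  · rw [abs_of_nonneg h]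
    nlinarith [Real.exp_pos v]
  · rw [abs_of_nonpos h]
    have h4 : 1 + v ≤ Real.exp v := by linarith [Real.add_one_le_exp v]
    have h5 : 1 ≤ Real.exp (-v) := Real.one_le_exp (by linarith)
    nlinarith [sq_nonneg v]

theorem elem_ineq {x s u : ℝ} (hx : 0 < x) (hs : 0 < s) (hus : |u| ≤ s / 2) :
    x ^ u ≤ 1 + u * Real.log x + 8 * u ^ 2 / s ^ 2 * (x ^ (-s) + x ^ s) := by
  set y : ℝ := Real.log x with hy
  have hxu : x ^ u = Real.exp (u * y) := by
    rw [Real.rpow_def_of_pos hx, hy]; congr 1; ring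
  have hxs : x ^ (-s) = Real.exp (-(s * y)) := by
    rw [Real.rpow_def_of_pos hx, hy]; congr 1; ring
  have hxs' : x ^ s = Real.exp (s * y) := by
    rw [Real.rpow_def_of_pos hx, hy]; congr 1; ring
  rw [hxu, hxs, hxs']
  have h1 : Real.exp (s * |y|) ≤ Real.exp (-(s * y)) + Real.exp (s * y) := by
    rcases le_total 0 y with h | h
    · rw [abs_of_nonneg h]
      linarith [Real.exp_pos (-(s * y))]
    · rw [abs_of_nonpos h]
      have : s * -y = -(s * y) := by ring
      rw [this]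
      linarith [Real.exp_pos (s * y)]
  have h2 := exp_second (u * y)
  have h5 : (u * y) ^ 2 * Real.exp (|u * y|) ≤ 8 * u ^ 2 / s ^ 2 * Real.exp (s * |y|) := by
    have h3 : 1 + s / 2 * |y| + (s / 2 * |y|) ^ 2 / 2 ≤ Real.exp (s / 2 * |y|) :=
      Real.quadratic_le_exp_of_nonneg (by positivity)
    have h4 : y ^ 2 ≤ 8 / s ^ 2 * Real.exp (s / 2 * |y|) := by
      have h6 : (s / 2 * |y|) ^ 2 / 2 ≤ Real.exp (s / 2 * |y|) := by
        have : 0 ≤ s / 2 * |y| := by positivity
        linarith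
      have h7 : y ^ 2 = 8 / s ^ 2 * ((s / 2 * |y|) ^ 2 / 2) := by
        rw [mul_pow, sq_abs]
        field_simp
        ring
      rw [h7]
      gcongr
    have h8 : Real.exp |u * y| ≤ Real.exp (s / 2 * |y|) := by
      rw [abs_mul]
      gcongr
    calc (u * y) ^ 2 * Real.exp |u * y| ≤ (u * y) ^ 2 * Real.exp (s / 2 * |y|) := by gcongr
      _ = u ^ 2 * y ^ 2 * Real.exp (s / 2 * |y|) := by ring
      _ ≤ u ^ 2 * (8 / s ^ 2 * Real.exp (s / 2 * |y|)) * Real.exp (s / 2 * |y|) := by gcongr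
      _ = 8 * u ^ 2 / s ^ 2 * (Real.exp (s / 2 * |y|) * Real.exp (s / 2 * |y|)) := by ring
      _ = 8 * u ^ 2 / s ^ 2 * Real.exp (s * |y|) := by
        rw [← Real.exp_add]
        congr 2
        ring
  have h7 : 8 * u ^ 2 / s ^ 2 * Real.exp (s * |y|) ≤
      8 * u ^ 2 / s ^ 2 * (Real.exp (-(s * y)) + Real.exp (s * y)) := by gcongr
  linarith

section

variable {Ω : Type*} [MeasurableSpace Ω] {P : Measure Ω}

theorem frost_pos {X : Ω → ℝ} {B s : ℝ} (hs : 0 < s)
    (hB : ∀ r : ℝ, 0 < r → P {ω | X ω ≤ r} ≤ ENNReal.ofReal (B * r ^ s)) :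
    ∀ᵐ ω ∂P, 0 < X ω := by
  have h1 : P {ω | X ω ≤ 0} = 0 := by
    have h2 : Tendsto (fun r : ℝ => ENNReal.ofReal (B * r ^ s)) (𝓝[>] 0) (𝓝 0) := by
      have h3 : Tendsto (fun r : ℝ => B * r ^ s) (𝓝[>] 0) (𝓝 (B * (0 : ℝ) ^ s)) := by
        have h4 : ContinuousAt (fun r : ℝ => r ^ s) 0 :=
          Real.continuousAt_rpow_const 0 s (Or.inr hs.le)
        exact (h4.tendsto.mono_left nhdsWithin_le_nhds).const_mul B
      rw [Real.zero_rpow hs.ne', mul_zero] at h3
      have h5 := ENNReal.tendsto_ofReal h3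
      rwa [ENNReal.ofReal_zero] at h5
    refine le_antisymm ?_ zero_le
    refine ge_of_tendsto h2 ?_
    filter_upwards [self_mem_nhdsWithin] with r hr
    exact (measure_mono fun ω (hω : X ω ≤ 0) => le_trans hω (le_of_lt hr)).trans (hB r hr)
  rw [ae_iff]
  simpa only [not_lt] using h1

theorem frost_moment [IsProbabilityMeasure P] {X : Ω → ℝ} (hX : Measurable X) {B s : ℝ}
    (hs : 0 < s) (hB0 : 0 ≤ B)
    (hB : ∀ r : ℝ, 0 < r → P {ω | X ω ≤ r} ≤ ENNReal.ofReal (B * r ^ s)) :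
    ∫⁻ ω, ENNReal.ofReal (X ω ^ (-(s / 2))) ∂P ≤
      ENNReal.ofReal (1 + B * (2 : ℝ) ^ (s / 2) / (1 - ((2 : ℝ) ^ (s / 2))⁻¹)) := by
  set q : ℝ := s / 2 with hq
  have hq0 : 0 < q := by positivity
  set a : ℝ := (2 : ℝ) ^ q with ha
  have ha1 : 1 < a := Real.one_lt_rpow (by norm_num) hq0
  have ha0 : 0 < a := by linarith
  have hpt : ∀ᵐ ω ∂P, ENNReal.ofReal (X ω ^ (-q)) ≤
      1 + ∑' k : ℕ, ENNReal.ofReal (a ^ (k + 1)) *
        Set.indicator {ω | X ω ≤ (1 / 2) ^ k} (fun _ => (1 : ENNReal)) ω := by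
    filter_upwards [frost_pos hs hB] with ω hω
    rcases le_or_gt 1 (X ω) with h | h
    · have h1 : X ω ^ (-q) ≤ 1 := Real.rpow_le_one_of_one_le_of_nonpos h (by linarith)
      calc ENNReal.ofReal (X ω ^ (-q)) ≤ 1 := ENNReal.ofReal_le_one.mpr h1
        _ ≤ _ := le_self_add
    · obtain ⟨n, hn1, hn2⟩ := exists_nat_pow_near_of_lt_one hω h.le (y := (1 / 2 : ℝ))
        (by norm_num) (by norm_num)
      have h2 : X ω ^ (-q) ≤ a ^ (n + 1) := by
        have h3 : X ω ^ (-q) ≤ ((1 / 2 : ℝ) ^ (n + 1)) ^ (-q) :=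
          Real.rpow_le_rpow_of_nonpos (by positivity) hn1.le (by linarith)
        refine h3.trans (le_of_eq ?_)
        rw [ha, one_div, inv_pow, Real.inv_rpow (by positivity), Real.rpow_neg (by positivity),
          inv_inv, ← Real.rpow_natCast, ← Real.rpow_natCast, ← Real.rpow_mul (by norm_num),
          ← Real.rpow_mul (by norm_num), mul_comm]
      calc ENNReal.ofReal (X ω ^ (-q)) ≤ ENNReal.ofReal (a ^ (n + 1)) *
            Set.indicator {ω | X ω ≤ (1 / 2) ^ n} (fun _ => (1 : ENNReal)) ω := by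
            rw [Set.indicator_of_mem (show ω ∈ {ω | X ω ≤ (1 / 2) ^ n} from hn2), mul_one]
            exact ENNReal.ofReal_le_ofReal h2
        _ ≤ ∑' k : ℕ, ENNReal.ofReal (a ^ (k + 1)) *
            Set.indicator {ω | X ω ≤ (1 / 2) ^ k} (fun _ => (1 : ENNReal)) ω :=
          ENNReal.le_tsum n
        _ ≤ _ := le_add_self
  have hms : ∀ k : ℕ, MeasurableSet {ω | X ω ≤ (1 / 2 : ℝ) ^ k} := fun k =>
    measurableSet_le hX measurable_const
  calc ∫⁻ ω, ENNReal.ofReal (X ω ^ (-q)) ∂P ≤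
      ∫⁻ ω, (1 + ∑' k : ℕ, ENNReal.ofReal (a ^ (k + 1)) *
        Set.indicator {ω | X ω ≤ (1 / 2) ^ k} (fun _ => (1 : ENNReal)) ω) ∂P :=
        lintegral_mono_ae hpt
    _ = 1 + ∑' k : ℕ, ENNReal.ofReal (a ^ (k + 1)) * P {ω | X ω ≤ (1 / 2) ^ k} := by
        rw [lintegral_add_left measurable_const, lintegral_tsum]
        · congr 1
          · simp
          · congr 1
            ext k
            rw [lintegral_const_mul]
            · rw [lintegral_indicator (hms k)]
              simp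
            · exact measurable_const.indicator (hms k)
        · intro k
          exact ((measurable_const.indicator (hms k)).const_mul _).aemeasurable
    _ ≤ 1 + ∑' k : ℕ, ENNReal.ofReal (B * a * (a⁻¹) ^ k) := by
        gcongr with k
        refine (mul_le_mul_right (hB _ (by positivity)) _).trans ?_
        rw [← ENNReal.ofReal_mul (by positivity)]
        refine ENNReal.ofReal_le_ofReal (le_of_eq ?_)
        have h3 : ((1 / 2 : ℝ) ^ k) ^ s = (a⁻¹) ^ (2 * k) := by
          rw [ha, one_div, inv_pow, Real.inv_rpow (by positivity), inv_pow, ← Real.rpow_natCast,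
            ← Real.rpow_natCast, ← Real.rpow_mul (by norm_num), ← Real.rpow_mul (by norm_num)]
          congr 2
          push_cast
          rw [hq]
          ring
        rw [h3]
        have h4 : (a⁻¹) ^ (2 * k) = (a⁻¹) ^ k * (a⁻¹) ^ k := by rw [two_mul, pow_add]
        have h5 : a ^ k * (a⁻¹) ^ k = 1 := by rw [← mul_pow, mul_inv_cancel₀ ha0.ne', one_pow]
        rw [h4]
        calc a ^ (k + 1) * (B * ((a⁻¹) ^ k * (a⁻¹) ^ k)) =
            (a ^ k * (a⁻¹) ^ k) * (B * a * (a⁻¹) ^ k) := by ring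
          _ = B * a * (a⁻¹) ^ k := by rw [h5, one_mul]
    _ = ENNReal.ofReal (1 + B * a / (1 - a⁻¹)) := by
        have h6 : a⁻¹ < 1 := inv_lt_one_of_one_lt₀ ha1
        have h7 : Summable fun k : ℕ => B * a * (a⁻¹) ^ k :=
          (summable_geometric_of_lt_one (by positivity) h6).mul_left _
        rw [← ENNReal.ofReal_tsum_of_nonneg (fun k => by positivity) h7, tsum_mul_left,
          tsum_geometric_of_lt_one (by positivity) h6, ENNReal.ofReal_add (by norm_num)]
        · rw [ENNReal.ofReal_one]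
          rfl
        · have : 0 < 1 - a⁻¹ := by linarith
          positivity

theorem mgf [IsProbabilityMeasure P] {X : Ω → ℝ} (hX : Measurable X) (hpos : ∀ᵐ ω ∂P, 0 < X ω)
    {A q B' : ℝ} (hA : ∀ᵐ ω ∂P, X ω ≤ A) (hq : 0 < q) (hB' : 0 ≤ B')
    (hm : ∫⁻ ω, ENNReal.ofReal (X ω ^ (-q)) ∂P ≤ ENNReal.ofReal B') :
    Integrable (fun ω => Real.log (X ω)) P ∧
    Integrable (fun ω => X ω ^ (-q)) P ∧ ∫ ω, X ω ^ (-q) ∂P ≤ B' ∧
    ∀ u : ℝ, |u| ≤ q / 2 → ∫⁻ ω, ENNReal.ofReal (X ω ^ u) ∂P ≤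
      ENNReal.ofReal (Real.exp (u * (∫ ω, Real.log (X ω) ∂P) +
        u ^ 2 * (8 / q ^ 2 * (B' + A ^ q)))) := by
  have hmeas : ∀ v : ℝ, Measurable fun ω => X ω ^ v := fun v => hX.pow_const v
  have hint : Integrable (fun ω => X ω ^ (-q)) P := by
    refine ⟨(hmeas _).aestronglyMeasurable, ?_⟩
    rw [hasFiniteIntegral_iff_ofReal]
    · exact hm.trans_lt ENNReal.ofReal_lt_top
    · filter_upwards [hpos] with ω hω
      exact (Real.rpow_pos_of_pos hω _).le
  have hint2 : Integrable (fun ω => X ω ^ q) P := by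
    refine Integrable.mono' (integrable_const (A ^ q)) (hmeas _).aestronglyMeasurable ?_
    filter_upwards [hpos, hA] with ω hω hA'
    rw [Real.norm_of_nonneg (Real.rpow_pos_of_pos hω _).le]
    exact Real.rpow_le_rpow hω.le hA' hq.le
  have hlog : Integrable (fun ω => Real.log (X ω)) P := by
    refine Integrable.mono' ((hint.add hint2).div_const q)
      (Real.measurable_log.comp hX).aestronglyMeasurable ?_
    filter_upwards [hpos] with ω hω
    rw [Real.norm_eq_abs, abs_le]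
    have h1 := Real.log_le_rpow_div hω.le hq
    have h2 := Real.log_le_rpow_div (inv_pos.mpr hω).le hq
    rw [Real.log_inv, Real.inv_rpow hω.le, ← Real.rpow_neg hω.le] at h2
    have h3 : 0 ≤ X ω ^ q / q := by positivity
    have h4 : 0 ≤ X ω ^ (-q) / q := by positivity
    simp only [Pi.add_apply]
    rw [add_div]
    constructor <;> linarith
  have hB'1 : ∫ ω, X ω ^ (-q) ∂P ≤ B' := by
    rw [integral_eq_lintegral_of_nonneg_ae]
    · exact ENNReal.toReal_le_of_le_ofReal hB' hm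
    · filter_upwards [hpos] with ω hω
      exact (Real.rpow_pos_of_pos hω _).le
    · exact (hmeas _).aestronglyMeasurable
  have hA1 : ∫ ω, X ω ^ q ∂P ≤ A ^ q := by
    have h1 : ∫ ω, X ω ^ q ∂P ≤ ∫ _ω, A ^ q ∂P := by
      refine integral_mono_ae hint2 (integrable_const _) ?_
      filter_upwards [hpos, hA] with ω hω hA'
      exact Real.rpow_le_rpow hω.le hA' hq.le
    simpa using h1
  refine ⟨hlog, hint, hB'1, fun u hu => ?_⟩
  set g : Ω → ℝ := fun ω => 1 + u * Real.log (X ω) +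
    8 * u ^ 2 / q ^ 2 * (X ω ^ (-q) + X ω ^ q) with hg
  have hgint : Integrable g P :=
    ((integrable_const 1).add (hlog.const_mul u)).add ((hint.add hint2).const_mul _)
  have hle : ∀ᵐ ω ∂P, X ω ^ u ≤ g ω := by
    filter_upwards [hpos] with ω hω
    exact elem_ineq hω hq hu
  have hg0 : 0 ≤ᵐ[P] g := by
    filter_upwards [hpos, hle] with ω hω h1
    exact (Real.rpow_pos_of_pos hω _).le.trans h1
  calc ∫⁻ ω, ENNReal.ofReal (X ω ^ u) ∂P ≤ ∫⁻ ω, ENNReal.ofReal (g ω) ∂P := by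
        refine lintegral_mono_ae ?_
        filter_upwards [hle] with ω h1
        exact ENNReal.ofReal_le_ofReal h1
    _ = ENNReal.ofReal (∫ ω, g ω ∂P) := (ofReal_integral_eq_lintegral_ofReal hgint hg0).symm
    _ ≤ _ := by
        refine ENNReal.ofReal_le_ofReal ?_
        have h2 : ∫ ω, g ω ∂P = 1 + u * (∫ ω, Real.log (X ω) ∂P) +
            8 * u ^ 2 / q ^ 2 * ((∫ ω, X ω ^ (-q) ∂P) + ∫ ω, X ω ^ q ∂P) := by
          have i1 : Integrable (fun ω => u * Real.log (X ω)) P := hlog.const_mul u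
          have i2 : Integrable (fun ω => 1 + u * Real.log (X ω)) P := (integrable_const 1).add i1
          have i3 : Integrable (fun ω => X ω ^ (-q) + X ω ^ q) P := hint.add hint2
          have i4 : Integrable (fun ω => 8 * u ^ 2 / q ^ 2 * (X ω ^ (-q) + X ω ^ q)) P :=
            i3.const_mul _
          rw [hg, integral_add i2 i4, integral_add (integrable_const 1) i1,
            integral_const_mul, integral_const_mul, integral_add hint hint2]
          simp
        rw [h2]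
        have h3 : 8 * u ^ 2 / q ^ 2 * ((∫ ω, X ω ^ (-q) ∂P) + ∫ ω, X ω ^ q ∂P) ≤
            8 * u ^ 2 / q ^ 2 * (B' + A ^ q) := by gcongr
        have h4 : u ^ 2 * (8 / q ^ 2 * (B' + A ^ q)) = 8 * u ^ 2 / q ^ 2 * (B' + A ^ q) := by ring
        rw [h4]
        have h5 := Real.add_one_le_exp (u * (∫ ω, Real.log (X ω) ∂P) +
          8 * u ^ 2 / q ^ 2 * (B' + A ^ q))
        linarith

end

end Pool.Agent.H363Roots
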