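import Mathlib
import Pool.Agent.H363Roots.Det
import Pool.Agent.H363Roots.Mgf

/-!
# The probability of the bad event
-/

set_option autoImplicit false

open MeasureTheory ProbabilityTheory Filter Topology Polynomial

namespace Pool.Agent.H363Roots

section

variable {Ω : Type*} [MeasurableSpace Ω] {P : Measure Ω}

/-- Two independent roots are seldom close. -/
theorem pair_close [IsProbabilityMeasure P] {X Y : Ω → ℂ} (hX : Measurable X) (hY : Measurable Y)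
    (hXY : IndepFun X Y P) {b : ENNReal} {σ : ℝ}
    (hB : ∀ z : ℂ, P {ω | ‖Y ω - z‖ ≤ σ} ≤ b) :
    P {ω | ‖X ω - Y ω‖ ≤ σ} ≤ b := by
  have h1 := (indepFun_iff_map_prod_eq_prod_map_map hX.aemeasurable hY.aemeasurable).mp hXY
  have hms : MeasurableSet {p : ℂ × ℂ | ‖p.1 - p.2‖ ≤ σ} :=
    measurableSet_le (measurable_fst.sub measurable_snd).norm measurable_const
  have h2 : P {ω | ‖X ω - Y ω‖ ≤ σ} =
      (P.map (fun ω => (X ω, Y ω))) {p : ℂ × ℂ | ‖p.1 - p.2‖ ≤ σ} := by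
    rw [Measure.map_apply (hX.prodMk hY) hms]
    rfl
  have : IsProbabilityMeasure (P.map X) := Measure.isProbabilityMeasure_map hX.aemeasurable
  have : IsProbabilityMeasure (P.map Y) := Measure.isProbabilityMeasure_map hY.aemeasurable
  rw [h2, h1, Measure.prod_apply hms]
  calc ∫⁻ x, (P.map Y) (Prod.mk x ⁻¹' {p : ℂ × ℂ | ‖p.1 - p.2‖ ≤ σ}) ∂(P.map X) ≤
      ∫⁻ _x, b ∂(P.map X) := by
        refine lintegral_mono fun x => ?_
        rw [Measure.map_apply hY (measurable_prodMk_left hms)]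
        refine le_trans (measure_mono ?_) (hB x)
        intro ω hω
        have h3 : ‖x - Y ω‖ ≤ σ := hω
        show ‖Y ω - x‖ ≤ σ
        rwa [norm_sub_rev]
    _ = b := by simp

/-- Chernoff. -/
theorem chernoff [IsProbabilityMeasure P] {N : ℕ} {X : Fin N → Ω → ℝ} (hX : ∀ i, Measurable (X i))
    (hind : iIndepFun X P) {v a : ℝ} {b : Fin N → ℝ}
    (hb : ∀ i, ∫⁻ ω, ENNReal.ofReal (X i ω ^ v) ∂P ≤ ENNReal.ofReal (Real.exp (b i))) :
    P {ω | ENNReal.ofReal (Real.exp a) ≤ ∏ i, ENNReal.ofReal (X i ω ^ v)} ≤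
      ENNReal.ofReal (Real.exp ((∑ i, b i) - a)) := by
  have hm : ∀ i, Measurable fun ω => ENNReal.ofReal (X i ω ^ v) := fun i =>
    ((hX i).pow_const v).ennreal_ofReal
  have hind2 : iIndepFun (fun i ω => ENNReal.ofReal (X i ω ^ v)) P :=
    hind.comp (fun _ x => ENNReal.ofReal (x ^ v)) fun _ =>
      (measurable_id.pow_const v).ennreal_ofReal
  have h1 : ∫⁻ ω, ∏ i, ENNReal.ofReal (X i ω ^ v) ∂P ≤
      ENNReal.ofReal (Real.exp (∑ i, b i)) := by
    rw [lintegral_prod_eq_prod_lintegral_of_indepFun Finset.univ _ hind2 hm, Real.exp_sum,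
      ENNReal.ofReal_prod_of_nonneg fun i _ => (Real.exp_pos _).le]
    exact Finset.prod_le_prod' fun i _ => hb i
  have h2 := mul_meas_ge_le_lintegral (μ := P) (f := fun ω => ∏ i, ENNReal.ofReal (X i ω ^ v))
    (Finset.measurable_fun_prod _ fun i _ => hm i) (ENNReal.ofReal (Real.exp a))
  have h3 := h2.trans h1
  have ha0 : ENNReal.ofReal (Real.exp a) ≠ 0 := by
    rw [Ne, ENNReal.ofReal_eq_zero, not_le]
    exact Real.exp_pos a
  rw [Real.exp_sub, ENNReal.ofReal_div_of_pos (Real.exp_pos a),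
    ENNReal.le_div_iff_mul_le (Or.inl ha0) (Or.inl ENNReal.ofReal_ne_top), mul_comm]
  exact h3

/-- The potential is seldom small at a given point. -/
theorem seldom_small [IsProbabilityMeasure P] {N : ℕ} {Z : Fin N → Ω → ℂ}
    (hZ : ∀ i, Measurable (Z i)) (hind : iIndepFun Z P) {A s B C u lam δ : ℝ} (hs : 0 < s)
    (hB0 : 0 ≤ B)
    (hB : ∀ (i : Fin N) (z : ℂ) (r : ℝ), 0 < r →
      P {ω | ‖z - Z i ω‖ ≤ r} ≤ ENNReal.ofReal (B * r ^ s))
    (hC : C = 8 / (s / 2) ^ 2 * ((1 + B * (2 : ℝ) ^ (s / 2) / (1 - ((2 : ℝ) ^ (s / 2))⁻¹)) +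
      A ^ (s / 2))) (hu : 0 < u) (hus : u ≤ s / 4) (huC : u * C ≤ δ / 8) (z : ℂ)
    (hA : ∀ i, ∀ᵐ ω ∂P, ‖z - Z i ω‖ ≤ A)
    (hpot : -lam * N ≤ ∑ i, ∫ ω, Real.log ‖z - Z i ω‖ ∂P) :
    P {ω | ¬ Real.exp (-(lam + δ / 4) * N) ≤ ∏ i, ‖z - Z i ω‖} ≤
      ENNReal.ofReal (Real.exp (-(u * δ / 8) * N)) := by
  have hmX : ∀ i, Measurable fun ω => ‖z - Z i ω‖ := fun i => (measurable_const.sub (hZ i)).norm
  have hindX : iIndepFun (fun i ω => ‖z - Z i ω‖) P :=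
    hind.comp (fun _ x => ‖z - x‖) fun _ => (measurable_const.sub measurable_id).norm
  have h2q : 1 < (2 : ℝ) ^ (s / 2) := Real.one_lt_rpow (by norm_num) (by positivity)
  have hB'0 : 0 ≤ 1 + B * (2 : ℝ) ^ (s / 2) / (1 - ((2 : ℝ) ^ (s / 2))⁻¹) := by
    have h1 : ((2 : ℝ) ^ (s / 2))⁻¹ < 1 := inv_lt_one_of_one_lt₀ h2q
    have h2 : 0 < 1 - ((2 : ℝ) ^ (s / 2))⁻¹ := by linarith
    positivity
  have hmgf := fun i => mgf (hmX i) (frost_pos hs (hB i z)) (hA i) (by positivity : 0 < s / 2)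
    hB'0 (frost_moment (hmX i) hs hB0 (hB i z))
  have hb : ∀ i, ∫⁻ ω, ENNReal.ofReal (‖z - Z i ω‖ ^ (-u)) ∂P ≤
      ENNReal.ofReal (Real.exp (-u * (∫ ω, Real.log ‖z - Z i ω‖ ∂P) + u ^ 2 * C)) := by
    intro i
    have h3 := (hmgf i).2.2.2 (-u) (by rw [abs_neg, abs_of_pos hu]; linarith)
    rw [← hC, neg_sq] at h3
    exact h3
  have hch := chernoff hmX hindX (a := u * (lam + δ / 4) * N) hb
  have hposall : ∀ᵐ ω ∂P, ∀ i, 0 < ‖z - Z i ω‖ := by
    rw [ae_all_iff]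
    exact fun i => frost_pos hs (hB i z)
  calc P {ω | ¬ Real.exp (-(lam + δ / 4) * N) ≤ ∏ i, ‖z - Z i ω‖} ≤
      P {ω | ENNReal.ofReal (Real.exp (u * (lam + δ / 4) * N)) ≤
        ∏ i, ENNReal.ofReal (‖z - Z i ω‖ ^ (-u))} := by
        refine measure_mono_ae ?_
        filter_upwards [hposall] with ω hω h4
        have h4' : ¬ Real.exp (-(lam + δ / 4) * N) ≤ ∏ i, ‖z - Z i ω‖ := h4
        rw [not_le] at h4'
        show ENNReal.ofReal (Real.exp (u * (lam + δ / 4) * N)) ≤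
          ∏ i, ENNReal.ofReal (‖z - Z i ω‖ ^ (-u))
        rw [← ENNReal.ofReal_prod_of_nonneg fun i _ => (Real.rpow_pos_of_pos (hω i) _).le]
        refine ENNReal.ofReal_le_ofReal ?_
        rw [Real.finsetProd_rpow _ _ fun i _ => (hω i).le]
        have hp : 0 < ∏ i, ‖z - Z i ω‖ := Finset.prod_pos fun i _ => hω i
        calc Real.exp (u * (lam + δ / 4) * N) = (Real.exp (-(lam + δ / 4) * N)) ^ (-u) := by
              rw [← Real.exp_mul]
              congr 1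
              ring
          _ ≤ (∏ i, ‖z - Z i ω‖) ^ (-u) :=
              Real.rpow_le_rpow_of_nonpos hp h4'.le (by linarith)
    _ ≤ ENNReal.ofReal (Real.exp ((∑ i, (-u * (∫ ω, Real.log ‖z - Z i ω‖ ∂P) + u ^ 2 * C)) -
        u * (lam + δ / 4) * N)) := hch
    _ ≤ _ := by
        refine ENNReal.ofReal_le_ofReal (Real.exp_le_exp.mpr ?_)
        rw [Finset.sum_add_distrib, ← Finset.mul_sum, Finset.sum_const, Finset.card_univ,
          Fintype.card_fin, nsmul_eq_mul]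
        have hN0 : (0 : ℝ) ≤ N := Nat.cast_nonneg N
        have h5 : u * (u * C) ≤ u * (δ / 8) := by gcongr
        have h6 : u * (-lam * N) ≤ u * ∑ i, ∫ ω, Real.log ‖z - Z i ω‖ ∂P := by gcongr
        nlinarith [mul_le_mul_of_nonneg_left h5 hN0]

theorem norm_gridPt_le {h : ℝ} (hh : 0 < h) {L : ℕ} {p : ℤ × ℤ}
    (hp : p ∈ Finset.Icc (-(L : ℤ)) L ×ˢ Finset.Icc (-(L : ℤ)) L) :
    ‖gridPt h p‖ ≤ 2 * (h * L) := by
  rw [Finset.mem_product, Finset.mem_Icc, Finset.mem_Icc] at hp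
  obtain ⟨⟨h1, h2⟩, ⟨h3, h4⟩⟩ := hp
  refine (Complex.norm_le_abs_re_add_abs_im _).trans ?_
  have e1 : |(gridPt h p).re| ≤ h * L := by
    have h5 : |((p.1 : ℤ) : ℝ)| ≤ L := by
      rw [abs_le]
      constructor
      · exact_mod_cast h1
      · exact_mod_cast h2
    show |h * (p.1 : ℝ)| ≤ h * L
    rw [abs_mul, abs_of_pos hh]
    gcongr
  have e2 : |(gridPt h p).im| ≤ h * L := by
    have h5 : |((p.2 : ℤ) : ℝ)| ≤ L := by
      rw [abs_le]
      constructor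
      · exact_mod_cast h3
      · exact_mod_cast h4
    show |h * (p.2 : ℝ)| ≤ h * L
    rw [abs_mul, abs_of_pos hh]
    gcongr
  linarith

theorem prob_escape [IsProbabilityMeasure P] {N : ℕ} {Z : Fin N → Ω → ℂ}
    (hZ : ∀ i, Measurable (Z i)) (hind : iIndepFun Z P) {M s B Q u lam δ σ h : ℝ} {L : ℕ}
    (hN : 2 ≤ N) (hM0 : 0 ≤ M) (hs : 0 < s) (hB0 : 0 ≤ B) (hσ : 0 < σ) (hh : 0 < h)
    (hL : M / h + 1 ≤ L) (hLM : h * L ≤ M + 2)
    (hM : ∀ i, ∀ᵐ ω ∂P, ‖Z i ω‖ ≤ M)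
    (hB : ∀ (i : Fin N) (z : ℂ) (r : ℝ), 0 < r →
      P {ω | ‖Z i ω - z‖ ≤ r} ≤ ENNReal.ofReal (B * r ^ s))
    (hQ : Q = 8 / (s / 2) ^ 2 * ((1 + B * (2 : ℝ) ^ (s / 2) / (1 - ((2 : ℝ) ^ (s / 2))⁻¹)) +
      (3 * M + 4) ^ (s / 2))) (hu : 0 < u) (hus : u ≤ s / 4) (huQ : u * Q ≤ δ / 8)
    (hpot : ∀ z : ℂ, -lam * N ≤ ∑ i, ∫ ω, Real.log ‖z - Z i ω‖ ∂P)
    (hsmall : (1 + h / (σ / N)) ^ N ≤ Real.exp (δ / 4 * N))
    (hR2 : 2 ≤ Real.exp (δ / 4 * N)) (hRM : 2 * M ≤ Real.exp (δ / 4 * N))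
    (hR1 : 1 ≤ Real.exp (lam + δ) / 2 * Real.exp (δ / 4 * N))
    (hR3 : 3 ≤ (Real.exp (lam + δ) / 2) ^ 2 * Real.exp (δ / 4 * N)) :
    P {ω | ¬ ∀ α t : ℂ, Real.exp ((lam + δ) * N) ≤ ‖α‖ → ‖t‖ ≤ Real.exp (δ / 4 * N) →
      ∀ c : ℂ, (derivative (C α * wr (fun i => Z i ω) + C t)).eval c = 0 →
        Tendsto (fun k : ℕ => ‖(fun w => (C α * wr (fun i => Z i ω) + C t).eval w)^[k] c‖)
          atTop atTop} ≤
      ENNReal.ofReal ((2 * L + 1) ^ 2 * Real.exp (-(u * δ / 8) * N) + N ^ 2 * (B * σ ^ s)) := by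
  have hBr : ∀ (i : Fin N) (z : ℂ) (r : ℝ), 0 < r →
      P {ω | ‖z - Z i ω‖ ≤ r} ≤ ENNReal.ofReal (B * r ^ s) := by
    intro i z r hr
    refine le_trans (measure_mono ?_) (hB i z r hr)
    intro ω hω
    have h3 : ‖z - Z i ω‖ ≤ r := hω
    show ‖Z i ω - z‖ ≤ r
    rwa [norm_sub_rev]
  set G : Finset (ℤ × ℤ) := Finset.Icc (-(L : ℤ)) L ×ˢ Finset.Icc (-(L : ℤ)) L with hG
  set D : Finset (Fin N × Fin N) := Finset.univ.filter fun p => p.1 ≠ p.2 with hD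
  have hMall : ∀ᵐ ω ∂P, ∀ i, ‖Z i ω‖ ≤ M := by
    rw [ae_all_iff]
    exact hM
  have hsub : P {ω | ¬ ∀ α t : ℂ, Real.exp ((lam + δ) * N) ≤ ‖α‖ → ‖t‖ ≤ Real.exp (δ / 4 * N) →
      ∀ c : ℂ, (derivative (C α * wr (fun i => Z i ω) + C t)).eval c = 0 →
        Tendsto (fun k : ℕ => ‖(fun w => (C α * wr (fun i => Z i ω) + C t).eval w)^[k] c‖)
          atTop atTop} ≤
      P ((⋃ p ∈ G, {ω | ¬ Real.exp (-(lam + δ / 4) * N) ≤ ∏ i, ‖gridPt h p - Z i ω‖}) ∪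
        ⋃ p ∈ D, {ω | ‖Z p.1 ω - Z p.2 ω‖ ≤ σ}) := by
    refine measure_mono_ae ?_
    filter_upwards [hMall] with ω hω hbad
    by_contra hcon
    have hcon' : ω ∉ ((⋃ p ∈ G, {ω | ¬ Real.exp (-(lam + δ / 4) * N) ≤
        ∏ i, ‖gridPt h p - Z i ω‖}) ∪ ⋃ p ∈ D, {ω | ‖Z p.1 ω - Z p.2 ω‖ ≤ σ}) := hcon
    rw [Set.mem_union, not_or] at hcon'
    obtain ⟨hc1, hc2⟩ := hcon'
    apply hbad
    intro α t hα ht c hc
    refine all_escape (fun i => Z i ω) hN hσ hh hL hω ?_ ?_ hsmall hR2 hRM hR1 hR3 α t hα ht c hc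
    · intro i j hij
      by_contra hle
      apply hc2
      rw [Set.mem_iUnion₂]
      refine ⟨(i, j), ?_, ?_⟩
      · rw [hD, Finset.mem_filter]
        exact ⟨Finset.mem_univ _, hij⟩
      · exact not_lt.mp hle
    · intro p hp
      by_contra hle
      apply hc1
      rw [Set.mem_iUnion₂]
      exact ⟨p, hp, hle⟩
  refine hsub.trans ((measure_union_le _ _).trans ?_)
  rw [ENNReal.ofReal_add (by positivity) (by positivity)]
  refine add_le_add ?_ ?_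
  · refine (measure_biUnion_finset_le _ _).trans ?_
    calc ∑ p ∈ G, P {ω | ¬ Real.exp (-(lam + δ / 4) * N) ≤ ∏ i, ‖gridPt h p - Z i ω‖} ≤
        ∑ _p ∈ G, ENNReal.ofReal (Real.exp (-(u * δ / 8) * N)) := by
          refine Finset.sum_le_sum fun p hp => ?_
          refine seldom_small hZ hind hs hB0 hBr hQ hu hus huQ
            (gridPt h p) ?_ (hpot _)
          intro i
          filter_upwards [hM i] with ω hω
          have h1 := norm_gridPt_le hh hp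
          have h2 := norm_sub_le (gridPt h p) (Z i ω)
          linarith
      _ = ENNReal.ofReal ((2 * L + 1) ^ 2 * Real.exp (-(u * δ / 8) * N)) := by
          rw [Finset.sum_const, hG, Finset.card_product, Int.card_Icc, nsmul_eq_mul,
            ENNReal.ofReal_mul (by positivity)]
          congr 1
          have h3 : ((L : ℤ) + 1 - -(L : ℤ)).toNat = 2 * L + 1 := by omega
          rw [h3]
          have h4 : ((2 * (L : ℝ) + 1) ^ 2) = (((2 * L + 1) * (2 * L + 1) : ℕ) : ℝ) := by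
            push_cast
            ring
          rw [h4, ENNReal.ofReal_natCast]
  · refine (measure_biUnion_finset_le _ _).trans ?_
    calc ∑ p ∈ D, P {ω | ‖Z p.1 ω - Z p.2 ω‖ ≤ σ} ≤
        ∑ _p ∈ D, ENNReal.ofReal (B * σ ^ s) := by
          refine Finset.sum_le_sum fun p hp => ?_
          rw [hD, Finset.mem_filter] at hp
          exact pair_close (hZ _) (hZ _) (hind.indepFun hp.2) fun z => hB p.2 z σ hσ
      _ ≤ ENNReal.ofReal (N ^ 2 * (B * σ ^ s)) := by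
          rw [Finset.sum_const, nsmul_eq_mul, ENNReal.ofReal_mul (p := (N : ℝ) ^ 2)
            (by positivity)]
          refine mul_le_mul' ?_ le_rfl
          have h5 : D.card ≤ N ^ 2 := by
            refine (Finset.card_filter_le _ _).trans ?_
            rw [Finset.card_univ, Fintype.card_prod, Fintype.card_fin, sq]
          have h6 : ((N : ℝ) ^ 2) = ((N ^ 2 : ℕ) : ℝ) := by push_cast; rfl
          rw [h6, ENNReal.ofReal_natCast]
          exact_mod_cast h5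

end

end Pool.Agent.H363Roots
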