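import Mathlib
import Pool.Agent.H363Roots.Det
import Pool.Agent.H363Roots.Mgf
import Pool.Agent.H363Roots.Prob

/-!
# The attracting regime
-/

set_option autoImplicit false

open MeasureTheory ProbabilityTheory Filter Topology Polynomial

namespace Pool.Agent.H363Roots

theorem log_one_add_le {y q : ℝ} (hy : 0 ≤ y) (hq : 0 < q) (hq1 : q ≤ 1) :
    Real.log (1 + y) ≤ y ^ q / q := by
  have h1 : (1 + y) ^ q ≤ 1 + y ^ q := by
    have := Real.rpow_add_le_add_rpow (p := q) (a := 1) (b := y) (by norm_num) hy hq.le hq1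
    rwa [Real.one_rpow] at this
  have h2 : q * Real.log (1 + y) ≤ y ^ q := by
    rw [← Real.log_rpow (by linarith)]
    calc Real.log ((1 + y) ^ q) ≤ Real.log (1 + y ^ q) := by
          apply Real.log_le_log (Real.rpow_pos_of_pos (by linarith) _) h1
      _ ≤ y ^ q := by
          have h3 : 0 ≤ y ^ q := Real.rpow_nonneg hy _
          have := Real.log_le_sub_one_of_pos (by linarith : 0 < 1 + y ^ q)
          linarith
  rw [le_div_iff₀ hq]
  linarith

/-- A polynomial map which is close to a constant on a neighbourhood of the disc has an attracting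
fixed point which attracts the disc. -/
theorem sink {F : ℂ[X]} {t : ℂ} {M h η δ : ℝ} (hM : 0 ≤ M) (hh : 0 < h)
    (hηh : η ≤ h / 4) (hηδ : η ≤ δ) (ht : ‖t‖ ≤ M - δ)
    (hF : ∀ w z0 : ℂ, ‖z0‖ ≤ M → ‖w - z0‖ ≤ h / 2 → ‖F.eval w - t‖ ≤ η) :
    ∃ x : ℂ, F.eval x = x ∧ ‖(derivative F).eval x‖ < 1 ∧
      ∀ c : ℂ, ‖c‖ ≤ M → Tendsto (fun k : ℕ => (fun w => F.eval w)^[k] c) atTop (𝓝 x) := by
  have hder : ∀ z0 : ℂ, ‖z0‖ ≤ M → ‖deriv (fun w => F.eval w) z0‖ ≤ 1 / 2 := by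
    intro z0 hz0
    have h1 : deriv (fun w => F.eval w) z0 = deriv (fun w => F.eval w - t) z0 := by
      rw [deriv_sub_const_fun]
    rw [h1]
    have h2 := Complex.norm_deriv_le_of_forall_mem_sphere_norm_le (c := z0) (R := h / 2) (C := η)
      (f := fun w => F.eval w - t) (by positivity)
      ((F.differentiable.sub_const t).diffContOnCl) (by
        intro w hw
        refine hF w z0 hz0 ?_
        rw [mem_sphere_iff_norm] at hw
        exact hw.le)
    refine h2.trans ?_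
    rw [div_le_iff₀ (by positivity)]
    linarith
  have hlip : ∀ a b : ℂ, ‖a‖ ≤ M → ‖b‖ ≤ M → ‖F.eval a - F.eval b‖ ≤ 1 / 2 * ‖a - b‖ := by
    intro a b ha hb
    have h3 := (convex_closedBall (0 : ℂ) M).norm_image_sub_le_of_norm_deriv_le
      (f := fun w => F.eval w) (C := 1 / 2) (fun x _ => F.differentiable.differentiableAt)
      (fun x hx => hder x (mem_closedBall_zero_iff.mp hx)) (mem_closedBall_zero_iff.mpr hb)
      (mem_closedBall_zero_iff.mpr ha)
    exact h3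
  have hmaps : ∀ a : ℂ, ‖a‖ ≤ M → ‖F.eval a‖ ≤ M := by
    intro a ha
    have h4 := hF a a ha (by rw [sub_self, norm_zero]; positivity)
    have h5 : ‖F.eval a‖ ≤ ‖F.eval a - t‖ + ‖t‖ := by
      have : F.eval a = (F.eval a - t) + t := by ring
      calc ‖F.eval a‖ = ‖(F.eval a - t) + t‖ := by rw [← this]
        _ ≤ _ := norm_add_le _ _
    linarith
  have hmapsto : Set.MapsTo (fun w => F.eval w) (Metric.closedBall (0 : ℂ) M)
      (Metric.closedBall (0 : ℂ) M) := by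
    intro a ha
    rw [mem_closedBall_zero_iff] at ha ⊢
    exact hmaps a ha
  have hcontr : ContractingWith (1 / 2) (hmapsto.restrict (fun w => F.eval w) _ _) := by
    refine ⟨by norm_num [← NNReal.coe_lt_coe], ?_⟩
    refine LipschitzWith.of_dist_le_mul fun a b => ?_
    rw [Subtype.dist_eq, Subtype.dist_eq, Complex.dist_eq, Complex.dist_eq]
    have h6 := hlip a b (mem_closedBall_zero_iff.mp a.2) (mem_closedBall_zero_iff.mp b.2)
    simpa using h6
  obtain ⟨x, hx1, hx2, -, -⟩ := hcontr.exists_fixedPoint' Metric.isClosed_closedBall.isComplete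
    hmapsto (x := 0) (by rw [mem_closedBall_zero_iff, norm_zero]; exact hM) (edist_ne_top _ _)
  rw [mem_closedBall_zero_iff] at hx1
  have hfix : F.eval x = x := hx2
  refine ⟨x, hfix, ?_, ?_⟩
  · have h7 := hder x hx1
    rw [Polynomial.deriv] at h7
    linarith
  · intro c hc
    have hit : ∀ k : ℕ, ‖(fun w => F.eval w)^[k] c‖ ≤ M ∧
        ‖(fun w => F.eval w)^[k] c - x‖ ≤ (1 / 2) ^ k * ‖c - x‖ := by
      intro k
      induction k with
      | zero => simpa using hc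
      | succ k ih =>
        rw [Function.iterate_succ_apply']
        refine ⟨hmaps _ ih.1, ?_⟩
        have h8 := hlip _ x ih.1 hx1
        rw [hfix] at h8
        calc _ ≤ 1 / 2 * ‖(fun w => F.eval w)^[k] c - x‖ := h8
          _ ≤ 1 / 2 * ((1 / 2) ^ k * ‖c - x‖) := by gcongr; exact ih.2
          _ = (1 / 2) ^ (k + 1) * ‖c - x‖ := by ring
    rw [tendsto_iff_norm_sub_tendsto_zero]
    have h9 : Tendsto (fun k : ℕ => (1 / 2 : ℝ) ^ k * ‖c - x‖) atTop (𝓝 (0 * ‖c - x‖)) :=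
      (tendsto_pow_atTop_nhds_zero_of_lt_one (by norm_num) (by norm_num)).mul_const _
    rw [zero_mul] at h9
    exact squeeze_zero (fun k => norm_nonneg _) (fun k => (hit k).2) h9

/-- The deterministic part of the attracting regime. -/
theorem one_sink {N : ℕ} (z : Fin N → ℂ) {M h a lam δ : ℝ} (G : Set ℂ) (hN : 1 ≤ N) (hM : 0 ≤ M)
    (hh : 0 < h) (hδ : 0 < δ) (hz : ∀ i, ‖z i‖ ≤ M)
    (hG : ∀ w : ℂ, ‖w‖ ≤ M → ∃ g ∈ G, ‖w - g‖ ≤ h / 2)
    (hprod : ∀ g ∈ G, ∏ i, (‖g - z i‖ + h) ≤ Real.exp ((-lam + δ / 2) * N))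
    (ha : a = Real.exp (-(δ / 2) * N)) (hah : a ≤ h / 4) (haδ : a ≤ δ)
    (α t : ℂ) (hα0 : α ≠ 0) (hα : ‖α‖ ≤ Real.exp ((lam - δ) * N)) (ht : ‖t‖ ≤ M - δ) :
    ∃ x : ℂ, (C α * wr z + C t).eval x = x ∧ ‖(derivative (C α * wr z + C t)).eval x‖ < 1 ∧
      ∀ c : ℂ, (derivative (C α * wr z + C t)).eval c = 0 →
        Tendsto (fun k : ℕ => (fun w => (C α * wr z + C t).eval w)^[k] c) atTop (𝓝 x) := by
  obtain ⟨x, hx1, hx2, hx3⟩ := sink (F := C α * wr z + C t) (t := t) hM hh hah haδ ht (by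
    intro w z0 hz0 hw
    obtain ⟨g, hg, hzg⟩ := hG z0 hz0
    rw [eval_add, eval_mul, eval_C, eval_C, add_sub_cancel_right, eval_wr, norm_mul, norm_prod]
    have h1 : ∏ i, ‖w - z i‖ ≤ ∏ i, (‖g - z i‖ + h) := by
      refine Finset.prod_le_prod (fun i _ => norm_nonneg _) fun i _ => ?_
      have : w - z i = (g - z i) + ((w - z0) + (z0 - g)) := by ring
      rw [this]
      refine (norm_add_le _ _).trans ?_
      have h2 := norm_add_le (w - z0) (z0 - g)
      linarith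
    calc ‖α‖ * ∏ i, ‖w - z i‖ ≤ Real.exp ((lam - δ) * N) * Real.exp ((-lam + δ / 2) * N) := by
          have h3 := h1.trans (hprod g hg)
          have h4 : 0 ≤ ∏ i, ‖w - z i‖ := Finset.prod_nonneg fun i _ => norm_nonneg _
          gcongr
      _ = a := by
          rw [ha, ← Real.exp_add]
          congr 1
          ring)
  refine ⟨x, hx1, hx2, fun c hc => hx3 c ?_⟩
  refine critical_norm z c hN hz ?_
  rw [derivative_add, derivative_C, add_zero, derivative_mul, derivative_C, zero_mul, zero_add,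
    eval_mul, eval_C] at hc
  rcases mul_eq_zero.mp hc with h1 | h1
  · exact absurd h1 hα0
  · exact h1

section

variable {Ω : Type*} [MeasurableSpace Ω] {P : Measure Ω}

/-- The regularised potential is seldom large at a given point. -/
theorem seldom_large [IsProbabilityMeasure P] {N : ℕ} {Z : Fin N → Ω → ℂ}
    (hZ : ∀ i, Measurable (Z i)) (hind : iIndepFun Z P) {A s B Q B' u lam δ h : ℝ} (hs : 0 < s)
    (hs2 : s ≤ 2) (hB0 : 0 ≤ B) (hh : 0 < h)
    (hB : ∀ (i : Fin N) (z : ℂ) (r : ℝ), 0 < r →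
      P {ω | ‖z - Z i ω‖ ≤ r} ≤ ENNReal.ofReal (B * r ^ s))
    (hB' : B' = 1 + B * (2 : ℝ) ^ (s / 2) / (1 - ((2 : ℝ) ^ (s / 2))⁻¹))
    (hQ : Q = 8 / (s / 2) ^ 2 * (B' + A ^ (s / 2))) (hu : 0 < u) (hus : u ≤ s / 4)
    (huQ : u * Q ≤ δ / 8) (hhB : h ^ (s / 2) * B' / (s / 2) ≤ δ / 8) (z : ℂ)
    (hA : ∀ i, ∀ᵐ ω ∂P, ‖z - Z i ω‖ + h ≤ A)
    (hpot : ∑ i, ∫ ω, Real.log ‖z - Z i ω‖ ∂P ≤ -lam * N) :
    P {ω | ¬ ∏ i, (‖z - Z i ω‖ + h) ≤ Real.exp ((-lam + δ / 2) * N)} ≤
      ENNReal.ofReal (Real.exp (-(u * δ / 4) * N)) := by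
  have hmX : ∀ i, Measurable fun ω => ‖z - Z i ω‖ + h := fun i =>
    (measurable_const.sub (hZ i)).norm.add_const h
  have hmX0 : ∀ i, Measurable fun ω => ‖z - Z i ω‖ := fun i =>
    (measurable_const.sub (hZ i)).norm
  have hindX : iIndepFun (fun i ω => ‖z - Z i ω‖ + h) P :=
    hind.comp (fun _ x => ‖z - x‖ + h) fun _ =>
      (measurable_const.sub measurable_id).norm.add_const h
  have h2q : 1 < (2 : ℝ) ^ (s / 2) := Real.one_lt_rpow (by norm_num) (by positivity)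
  have hB'0 : 0 ≤ B' := by
    rw [hB']
    have h1 : ((2 : ℝ) ^ (s / 2))⁻¹ < 1 := inv_lt_one_of_one_lt₀ h2q
    have h2 : 0 < 1 - ((2 : ℝ) ^ (s / 2))⁻¹ := by linarith
    positivity
  have hmom : ∀ i, ∫⁻ ω, ENNReal.ofReal (‖z - Z i ω‖ ^ (-(s / 2))) ∂P ≤ ENNReal.ofReal B' := by
    intro i
    rw [hB']
    exact frost_moment (hmX0 i) hs hB0 (hB i z)
  have hpos : ∀ i, ∀ᵐ ω ∂P, 0 < ‖z - Z i ω‖ := fun i => frost_pos hs (hB i z)
  have hmgf0 := fun i => mgf (A := A) (hmX0 i) (hpos i) (by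
    filter_upwards [hA i] with ω hω
    linarith) (by positivity : 0 < s / 2) hB'0 (hmom i)
  have hmgf := fun i => mgf (hmX i) (by
    filter_upwards with ω
    positivity) (hA i) (by positivity : 0 < s / 2) hB'0 (by
      refine le_trans (lintegral_mono_ae ?_) (hmom i)
      filter_upwards [hpos i] with ω hω
      refine ENNReal.ofReal_le_ofReal ?_
      exact Real.rpow_le_rpow_of_nonpos hω (by linarith) (by linarith))
  have hlogle : ∀ i, ∫ ω, Real.log (‖z - Z i ω‖ + h) ∂P ≤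
      (∫ ω, Real.log ‖z - Z i ω‖ ∂P) + δ / 8 := by
    intro i
    have h3 : ∫ ω, Real.log (‖z - Z i ω‖ + h) ∂P ≤
        ∫ ω, (Real.log ‖z - Z i ω‖ + h ^ (s / 2) / (s / 2) * ‖z - Z i ω‖ ^ (-(s / 2))) ∂P := by
      refine integral_mono_ae (hmgf i).1 ((hmgf0 i).1.add ((hmgf0 i).2.1.const_mul _)) ?_
      filter_upwards [hpos i] with ω hω
      have h4 : Real.log (‖z - Z i ω‖ + h) = Real.log ‖z - Z i ω‖ +
          Real.log (1 + h / ‖z - Z i ω‖) := by
        rw [← Real.log_mul hω.ne' (by positivity)]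
        congr 1
        field_simp
      rw [h4]
      have h5 := log_one_add_le (y := h / ‖z - Z i ω‖) (by positivity)
        (by positivity : 0 < s / 2) (by linarith)
      have h6 : (h / ‖z - Z i ω‖) ^ (s / 2) / (s / 2) =
          h ^ (s / 2) / (s / 2) * ‖z - Z i ω‖ ^ (-(s / 2)) := by
        rw [Real.div_rpow hh.le hω.le, Real.rpow_neg hω.le]
        ring
      linarith
    refine h3.trans ?_
    have i1 := (hmgf0 i).1
    have i2 : Integrable (fun ω => h ^ (s / 2) / (s / 2) * ‖z - Z i ω‖ ^ (-(s / 2))) P :=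
      (hmgf0 i).2.1.const_mul _
    rw [integral_add i1 i2, integral_const_mul]
    have h7 : h ^ (s / 2) / (s / 2) * ∫ ω, ‖z - Z i ω‖ ^ (-(s / 2)) ∂P ≤
        h ^ (s / 2) / (s / 2) * B' := by
      gcongr
      exact (hmgf0 i).2.2.1
    have h8 : h ^ (s / 2) / (s / 2) * B' = h ^ (s / 2) * B' / (s / 2) := by ring
    linarith
  have hb : ∀ i, ∫⁻ ω, ENNReal.ofReal ((‖z - Z i ω‖ + h) ^ u) ∂P ≤
      ENNReal.ofReal (Real.exp (u * ((∫ ω, Real.log ‖z - Z i ω‖ ∂P) + δ / 8) + u ^ 2 * Q)) := by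
    intro i
    have h3 := (hmgf i).2.2.2 u (by rw [abs_of_pos hu]; linarith)
    rw [← hQ] at h3
    refine h3.trans (ENNReal.ofReal_le_ofReal (Real.exp_le_exp.mpr ?_))
    have := hlogle i
    gcongr
  have hch := chernoff hmX hindX (a := u * (-lam + δ / 2) * N) hb
  calc P {ω | ¬ ∏ i, (‖z - Z i ω‖ + h) ≤ Real.exp ((-lam + δ / 2) * N)} ≤
      P {ω | ENNReal.ofReal (Real.exp (u * (-lam + δ / 2) * N)) ≤
        ∏ i, ENNReal.ofReal ((‖z - Z i ω‖ + h) ^ u)} := by
        refine measure_mono fun ω h4 => ?_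
        have h4' : ¬ ∏ i, (‖z - Z i ω‖ + h) ≤ Real.exp ((-lam + δ / 2) * N) := h4
        rw [not_le] at h4'
        show ENNReal.ofReal (Real.exp (u * (-lam + δ / 2) * N)) ≤
          ∏ i, ENNReal.ofReal ((‖z - Z i ω‖ + h) ^ u)
        rw [← ENNReal.ofReal_prod_of_nonneg fun i _ => by positivity]
        refine ENNReal.ofReal_le_ofReal ?_
        rw [Real.finsetProd_rpow _ _ fun i _ => by positivity]
        calc Real.exp (u * (-lam + δ / 2) * N) = (Real.exp ((-lam + δ / 2) * N)) ^ u := by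
              rw [← Real.exp_mul]
              congr 1
              ring
          _ ≤ (∏ i, (‖z - Z i ω‖ + h)) ^ u :=
              Real.rpow_le_rpow (Real.exp_pos _).le h4'.le hu.le
    _ ≤ ENNReal.ofReal (Real.exp ((∑ i, (u * ((∫ ω, Real.log ‖z - Z i ω‖ ∂P) + δ / 8) +
        u ^ 2 * Q)) - u * (-lam + δ / 2) * N)) := hch
    _ ≤ _ := by
        refine ENNReal.ofReal_le_ofReal (Real.exp_le_exp.mpr ?_)
        rw [Finset.sum_add_distrib, ← Finset.mul_sum, Finset.sum_add_distrib, Finset.sum_const,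
          Finset.sum_const, Finset.card_univ, Fintype.card_fin, nsmul_eq_mul, nsmul_eq_mul]
        have hN0 : (0 : ℝ) ≤ N := Nat.cast_nonneg N
        have h5 : u * (u * Q) ≤ u * (δ / 8) := by gcongr
        have h6 : u * ∑ i, ∫ ω, Real.log ‖z - Z i ω‖ ∂P ≤ u * (-lam * N) := by gcongr
        nlinarith [mul_le_mul_of_nonneg_left h5 hN0]

end

end Pool.Agent.H363Roots
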