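import Mathlib
import Pool.Agent.H363Roots.Attr

/-!
# Continuity of the mean potential, and concentration of the Cauchy transform
-/

set_option autoImplicit false

open MeasureTheory ProbabilityTheory Filter Topology

namespace Pool.Agent.H363Roots

section

variable {Ω : Type*} [MeasurableSpace Ω] {P : Measure Ω}

theorem frost_log [IsProbabilityMeasure P] {Z : Ω → ℂ} (hZ : Measurable Z) {A s B B' : ℝ}
    (hs : 0 < s) (hB0 : 0 ≤ B)
    (hB : ∀ (z : ℂ) (r : ℝ), 0 < r → P {ω | ‖z - Z ω‖ ≤ r} ≤ ENNReal.ofReal (B * r ^ s))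
    (hB' : B' = 1 + B * (2 : ℝ) ^ (s / 2) / (1 - ((2 : ℝ) ^ (s / 2))⁻¹)) (z : ℂ)
    (hA : ∀ᵐ ω ∂P, ‖z - Z ω‖ ≤ A) :
    0 ≤ B' ∧ (∀ᵐ ω ∂P, 0 < ‖z - Z ω‖) ∧ Integrable (fun ω => Real.log ‖z - Z ω‖) P ∧
      Integrable (fun ω => ‖z - Z ω‖ ^ (-(s / 2))) P ∧ ∫ ω, ‖z - Z ω‖ ^ (-(s / 2)) ∂P ≤ B' := by
  have hmX0 : Measurable fun ω => ‖z - Z ω‖ := (measurable_const.sub hZ).norm
  have h2q : 1 < (2 : ℝ) ^ (s / 2) := Real.one_lt_rpow (by norm_num) (by positivity)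
  have hB'0 : 0 ≤ B' := by
    rw [hB']
    have h1 : ((2 : ℝ) ^ (s / 2))⁻¹ < 1 := inv_lt_one_of_one_lt₀ h2q
    have h2 : 0 < 1 - ((2 : ℝ) ^ (s / 2))⁻¹ := by linarith
    positivity
  have hmom : ∫⁻ ω, ENNReal.ofReal (‖z - Z ω‖ ^ (-(s / 2))) ∂P ≤ ENNReal.ofReal B' := by
    rw [hB']
    exact frost_moment hmX0 hs hB0 (hB z)
  have hpos : ∀ᵐ ω ∂P, 0 < ‖z - Z ω‖ := frost_pos hs (hB z)
  have h := mgf hmX0 hpos hA (by positivity : 0 < s / 2) hB'0 hmom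
  exact ⟨hB'0, hpos, h.1, h.2.1, h.2.2.1⟩

/-- The mean logarithm of the distance is Hölder continuous. -/
theorem holder [IsProbabilityMeasure P] {Z : Ω → ℂ} (hZ : Measurable Z) {A s B B' h : ℝ}
    (hs : 0 < s) (hs2 : s ≤ 2) (hB0 : 0 ≤ B)
    (hB : ∀ (z : ℂ) (r : ℝ), 0 < r → P {ω | ‖z - Z ω‖ ≤ r} ≤ ENNReal.ofReal (B * r ^ s))
    (hB' : B' = 1 + B * (2 : ℝ) ^ (s / 2) / (1 - ((2 : ℝ) ^ (s / 2))⁻¹)) (z w : ℂ) (hh : 0 < h)
    (hzw : ‖z - w‖ ≤ h) (hA : ∀ᵐ ω ∂P, ‖Z ω‖ ≤ A) :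
    ∫ ω, Real.log ‖w - Z ω‖ ∂P ≤
      (∫ ω, Real.log ‖z - Z ω‖ ∂P) + h ^ (s / 2) * B' / (s / 2) := by
  have hA' : ∀ v : ℂ, ∀ᵐ ω ∂P, ‖v - Z ω‖ ≤ ‖v‖ + A := by
    intro v
    filter_upwards [hA] with ω hω
    have := norm_sub_le v (Z ω)
    linarith
  obtain ⟨hB'0, hpz, iz, jz, mz⟩ := frost_log hZ hs hB0 hB hB' z (hA' z)
  obtain ⟨-, hpw, iw, -, -⟩ := frost_log hZ hs hB0 hB hB' w (hA' w)
  have h3 : ∫ ω, Real.log ‖w - Z ω‖ ∂P ≤
      ∫ ω, (Real.log ‖z - Z ω‖ + h ^ (s / 2) / (s / 2) * ‖z - Z ω‖ ^ (-(s / 2))) ∂P := by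
    refine integral_mono_ae iw (iz.add (jz.const_mul _)) ?_
    filter_upwards [hpz, hpw] with ω hω hω'
    have h4 : Real.log ‖w - Z ω‖ ≤ Real.log (‖z - Z ω‖ + h) := by
      apply Real.log_le_log hω'
      have : w - Z ω = (z - Z ω) - (z - w) := by ring
      rw [this]
      have := norm_sub_le (z - Z ω) (z - w)
      linarith
    have h5 : Real.log (‖z - Z ω‖ + h) = Real.log ‖z - Z ω‖ +
        Real.log (1 + h / ‖z - Z ω‖) := by
      rw [← Real.log_mul hω.ne' (by positivity)]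
      congr 1
      field_simp
    have h6 := log_one_add_le (y := h / ‖z - Z ω‖) (by positivity)
      (by positivity : 0 < s / 2) (by linarith)
    have h7 : (h / ‖z - Z ω‖) ^ (s / 2) / (s / 2) =
        h ^ (s / 2) / (s / 2) * ‖z - Z ω‖ ^ (-(s / 2)) := by
      rw [Real.div_rpow hh.le hω.le, Real.rpow_neg hω.le]
      ring
    linarith
  refine h3.trans ?_
  have i2 : Integrable (fun ω => h ^ (s / 2) / (s / 2) * ‖z - Z ω‖ ^ (-(s / 2))) P :=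
    jz.const_mul _
  rw [integral_add iz i2, integral_const_mul]
  have h7 : h ^ (s / 2) / (s / 2) * ∫ ω, ‖z - Z ω‖ ^ (-(s / 2)) ∂P ≤
      h ^ (s / 2) / (s / 2) * B' := by
    gcongr
  have h8 : h ^ (s / 2) / (s / 2) * B' = h ^ (s / 2) * B' / (s / 2) := by ring
  linarith

/-- Hoeffding. -/
theorem hoeff [IsProbabilityMeasure P] {N : ℕ} (hN : 1 ≤ N) {X : Fin N → Ω → ℝ}
    (hX : ∀ i, Measurable (X i)) (hind : iIndepFun X P) {a b : ℝ} (ha : 0 ≤ a) (hb : 0 < b)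
    (hXb : ∀ i, ∀ᵐ ω ∂P, |X i ω| ≤ b) :
    P {ω | a * N ≤ ∑ i, (X i ω - ∫ ω, X i ω ∂P)} ≤
      ENNReal.ofReal (Real.exp (-(a ^ 2 / (2 * b ^ 2)) * N)) := by
  have hsub : ∀ i ∈ (Finset.univ : Finset (Fin N)),
      HasSubgaussianMGF (fun ω => X i ω - ∫ ω, X i ω ∂P) ((‖b - -b‖₊ / 2) ^ 2) P := by
    intro i _
    refine hasSubgaussianMGF_of_mem_Icc (hX i).aemeasurable ?_
    filter_upwards [hXb i] with ω hω
    exact ⟨(abs_le.mp hω).1, (abs_le.mp hω).2⟩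
  have hind2 : iIndepFun (fun i ω => X i ω - ∫ ω, X i ω ∂P) P :=
    hind.comp (fun i x => x - ∫ ω, X i ω ∂P) fun _ => measurable_id.sub_const _
  have hN0 : (0 : ℝ) < N := by exact_mod_cast hN
  have h1 := HasSubgaussianMGF.measure_sum_ge_le_of_iIndepFun hind2 (s := Finset.univ) hsub
    (ε := a * N) (by positivity)
  have h2 : P {ω | a * N ≤ ∑ i, (X i ω - ∫ ω, X i ω ∂P)} =
      ENNReal.ofReal (P.real {ω | a * N ≤ ∑ i, (X i ω - ∫ ω, X i ω ∂P)}) := by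
    rw [Measure.real, ENNReal.ofReal_toReal (measure_ne_top _ _)]
  rw [h2]
  refine ENNReal.ofReal_le_ofReal (h1.trans (le_of_eq ?_))
  congr 1
  rw [Finset.sum_const, Finset.card_univ, Fintype.card_fin]
  have h3 : (((N • ((‖b - -b‖₊ / 2) ^ 2 : NNReal) : NNReal)) : ℝ) = N * b ^ 2 := by
    rw [nsmul_eq_mul]
    push_cast
    rw [Real.norm_of_nonneg (by linarith)]
    ring
  rw [h3]
  field_simp

/-- Concentration of the Cauchy transform at a point far from the roots. -/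
theorem cauchy_conc [IsProbabilityMeasure P] {N : ℕ} (hN : 1 ≤ N) {Z : Fin N → Ω → ℂ}
    (hZ : ∀ i, Measurable (Z i)) (hind : iIndepFun Z P) {η : ℝ} (hη : 0 < η) (g : ℂ)
    (hfar : ∀ i, ∀ᵐ ω ∂P, η ≤ ‖g - Z i ω‖) :
    P {ω | ¬ ‖(∑ i, (g - Z i ω)⁻¹) - ∑ i, ∫ ω, (g - Z i ω)⁻¹ ∂P‖ ≤ η / 4 * N} ≤
      ENNReal.ofReal (4 * Real.exp (-(η ^ 4 / 128) * N)) := by
  have hm : ∀ i, Measurable fun ω => (g - Z i ω)⁻¹ := fun i => (measurable_const.sub (hZ i)).inv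
  have hbd : ∀ i, ∀ᵐ ω ∂P, ‖(g - Z i ω)⁻¹‖ ≤ 1 / η := by
    intro i
    filter_upwards [hfar i] with ω hω
    rw [norm_inv, one_div]
    exact inv_anti₀ hη hω
  have hint : ∀ i, Integrable (fun ω => (g - Z i ω)⁻¹) P := fun i =>
    Integrable.of_bound (hm i).aestronglyMeasurable (1 / η) (hbd i)
  have key : ∀ L : ℂ → ℝ, Measurable L → (∀ w, |L w| ≤ ‖w‖) →
      P {ω | η / 8 * N ≤ ∑ i, (L ((g - Z i ω)⁻¹) - ∫ ω, L ((g - Z i ω)⁻¹) ∂P)} ≤
        ENNReal.ofReal (Real.exp (-(η ^ 4 / 128) * N)) := by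
    intro L hL hLn
    have hindL : iIndepFun (fun i ω => L ((g - Z i ω)⁻¹)) P :=
      hind.comp (fun _ x => L ((g - x)⁻¹)) fun _ =>
        hL.comp (measurable_const.sub measurable_id).inv
    have h1 := hoeff hN (fun i => hL.comp (hm i)) hindL (a := η / 8) (b := 1 / η) (by positivity)
      (by positivity) (fun i => by
        filter_upwards [hbd i] with ω hω
        exact (hLn _).trans hω)
    refine h1.trans (ENNReal.ofReal_le_ofReal (le_of_eq ?_))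
    congr 2
    field_simp
    norm_num
  have hre := key (fun w => w.re) Complex.measurable_re Complex.abs_re_le_norm
  have hre' := key (fun w => -w.re) Complex.measurable_re.neg
    (fun w => by rw [abs_neg]; exact Complex.abs_re_le_norm w)
  have him := key (fun w => w.im) Complex.measurable_im Complex.abs_im_le_norm
  have him' := key (fun w => -w.im) Complex.measurable_im.neg
    (fun w => by rw [abs_neg]; exact Complex.abs_im_le_norm w)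
  have ere : ∀ i, ∫ ω, ((g - Z i ω)⁻¹).re ∂P = (∫ ω, (g - Z i ω)⁻¹ ∂P).re := fun i =>
    integral_re (hint i)
  have eim : ∀ i, ∫ ω, ((g - Z i ω)⁻¹).im ∂P = (∫ ω, (g - Z i ω)⁻¹ ∂P).im := fun i =>
    integral_im (hint i)
  have hsub : {ω | ¬ ‖(∑ i, (g - Z i ω)⁻¹) - ∑ i, ∫ ω, (g - Z i ω)⁻¹ ∂P‖ ≤ η / 4 * N} ⊆
      (({ω | η / 8 * N ≤ ∑ i, (((g - Z i ω)⁻¹).re - ∫ ω, ((g - Z i ω)⁻¹).re ∂P)} ∪
        {ω | η / 8 * N ≤ ∑ i, (-((g - Z i ω)⁻¹).re - ∫ ω, -((g - Z i ω)⁻¹).re ∂P)}) ∪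
      ({ω | η / 8 * N ≤ ∑ i, (((g - Z i ω)⁻¹).im - ∫ ω, ((g - Z i ω)⁻¹).im ∂P)} ∪
        {ω | η / 8 * N ≤ ∑ i, (-((g - Z i ω)⁻¹).im - ∫ ω, -((g - Z i ω)⁻¹).im ∂P)})) := by
    intro ω hω
    by_contra hcon
    simp only [Set.mem_union, Set.mem_ofPred_eq, not_or, not_le] at hcon hω
    obtain ⟨⟨h1, h2⟩, h3, h4⟩ := hcon
    set D : ℂ := (∑ i, (g - Z i ω)⁻¹) - ∑ i, ∫ ω, (g - Z i ω)⁻¹ ∂P with hD
    have e1 : ∑ i, (((g - Z i ω)⁻¹).re - ∫ ω, ((g - Z i ω)⁻¹).re ∂P) = D.re := by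
      rw [hD, Complex.sub_re, Complex.re_sum, Complex.re_sum, ← Finset.sum_sub_distrib]
      exact Finset.sum_congr rfl fun i _ => by rw [ere]
    have e2 : ∑ i, (-((g - Z i ω)⁻¹).re - ∫ ω, -((g - Z i ω)⁻¹).re ∂P) = -D.re := by
      rw [← e1, ← Finset.sum_neg_distrib]
      refine Finset.sum_congr rfl fun i _ => ?_
      rw [integral_neg]
      ring
    have e3 : ∑ i, (((g - Z i ω)⁻¹).im - ∫ ω, ((g - Z i ω)⁻¹).im ∂P) = D.im := by
      rw [hD, Complex.sub_im, Complex.im_sum, Complex.im_sum, ← Finset.sum_sub_distrib]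
      exact Finset.sum_congr rfl fun i _ => by rw [eim]
    have e4 : ∑ i, (-((g - Z i ω)⁻¹).im - ∫ ω, -((g - Z i ω)⁻¹).im ∂P) = -D.im := by
      rw [← e3, ← Finset.sum_neg_distrib]
      refine Finset.sum_congr rfl fun i _ => ?_
      rw [integral_neg]
      ring
    rw [e1] at h1
    rw [e2] at h2
    rw [e3] at h3
    rw [e4] at h4
    have h5 : |D.re| ≤ η / 8 * N := by rw [abs_le]; constructor <;> linarith
    have h6 : |D.im| ≤ η / 8 * N := by rw [abs_le]; constructor <;> linarith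
    have h7 := Complex.norm_le_abs_re_add_abs_im D
    linarith
  refine (measure_mono hsub).trans ((measure_union_le _ _).trans ?_)
  calc _ ≤ (ENNReal.ofReal (Real.exp (-(η ^ 4 / 128) * N)) +
        ENNReal.ofReal (Real.exp (-(η ^ 4 / 128) * N))) +
      (ENNReal.ofReal (Real.exp (-(η ^ 4 / 128) * N)) +
        ENNReal.ofReal (Real.exp (-(η ^ 4 / 128) * N))) :=
        add_le_add ((measure_union_le _ _).trans (add_le_add hre hre'))
          ((measure_union_le _ _).trans (add_le_add him him'))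
    _ = ENNReal.ofReal (4 * Real.exp (-(η ^ 4 / 128) * N)) := by
        rw [← ENNReal.ofReal_add (by positivity) (by positivity),
          ← ENNReal.ofReal_add (by positivity) (by positivity)]
        congr 1
        ring

end

end Pool.Agent.H363Roots
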