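import Mathlib
import Pool.Agent.H363Roots.Cauchy

/-!
# Identically distributed roots: compactness
-/

set_option autoImplicit false

open MeasureTheory ProbabilityTheory Filter Topology

namespace Pool.Agent.H363Roots

theorem pot_continuous {μ : Measure ℂ} [IsProbabilityMeasure μ] {M s B : ℝ} (hs : 0 < s)
    (hs2 : s ≤ 2) (hB0 : 0 ≤ B) (hM : ∀ᵐ w ∂μ, ‖w‖ ≤ M)
    (hB : ∀ (z : ℂ) (r : ℝ), 0 < r → μ {w | ‖z - w‖ ≤ r} ≤ ENNReal.ofReal (B * r ^ s)) :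
    Continuous fun z : ℂ => ∫ w, Real.log ‖z - w‖ ∂μ := by
  rw [continuous_iff_continuousAt]
  intro z
  set B' : ℝ := 1 + B * (2 : ℝ) ^ (s / 2) / (1 - ((2 : ℝ) ^ (s / 2))⁻¹) with hB'
  rw [ContinuousAt, tendsto_iff_norm_sub_tendsto_zero]
  have h1 : Tendsto (fun h : ℝ => h ^ (s / 2) * B' / (s / 2)) (𝓝 0)
      (𝓝 ((0 : ℝ) ^ (s / 2) * B' / (s / 2))) := by
    have h4 : ContinuousAt (fun r : ℝ => r ^ (s / 2)) 0 :=
      Real.continuousAt_rpow_const 0 _ (Or.inr (by positivity))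
    exact (h4.tendsto.mul_const B').div_const _
  rw [Real.zero_rpow (by positivity), zero_mul, zero_div] at h1
  have h2 : Tendsto (fun v : ℂ => ‖v - z‖) (𝓝 z) (𝓝 0) := by
    have := tendsto_iff_norm_sub_tendsto_zero.mp (tendsto_id (x := 𝓝 z))
    exact this
  refine squeeze_zero (fun v => norm_nonneg _) (fun v => ?_) (h1.comp h2)
  rcases eq_or_ne v z with hvz | hvz
  · subst hvz
    simp only [sub_self, norm_zero, Function.comp_apply]
    rw [Real.zero_rpow (by positivity)]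
    simp
  · have hpos : 0 < ‖v - z‖ := norm_pos_iff.mpr (sub_ne_zero.mpr hvz)
    have e1 := holder (P := μ) (Z := fun w => w) measurable_id hs hs2 hB0 hB hB' v z hpos le_rfl hM
    have e2 := holder (P := μ) (Z := fun w => w) measurable_id hs hs2 hB0 hB hB' z v hpos
      (by rw [norm_sub_rev]) hM
    show ‖(∫ w, Real.log ‖v - w‖ ∂μ) - ∫ w, Real.log ‖z - w‖ ∂μ‖ ≤
      ‖v - z‖ ^ (s / 2) * B' / (s / 2)
    rw [Real.norm_eq_abs, abs_le]
    constructor <;> linarith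

theorem cauchy_near {μ : Measure ℂ} [IsProbabilityMeasure μ] {z : ℂ} {r : ℝ} (hr : 0 < r)
    (h0 : μ (Metric.ball z r) = 0) {v : ℂ} (hv : ‖v - z‖ < r / 2) :
    ‖(∫ w, (v - w)⁻¹ ∂μ) - ∫ w, (z - w)⁻¹ ∂μ‖ ≤ 2 / r ^ 2 * ‖v - z‖ := by
  have hae : ∀ᵐ w ∂μ, r ≤ ‖z - w‖ := by
    rw [ae_iff]
    refine measure_mono_null ?_ h0
    intro w hw
    have hw' : ¬ r ≤ ‖z - w‖ := hw
    rw [Metric.mem_ball, Complex.dist_eq, norm_sub_rev]
    exact not_le.mp hw'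
  have hae2 : ∀ᵐ w ∂μ, r / 2 ≤ ‖v - w‖ := by
    filter_upwards [hae] with w hw
    have : ‖z - w‖ ≤ ‖v - w‖ + ‖v - z‖ := by
      have : z - w = (v - w) - (v - z) := by ring
      rw [this]
      exact norm_sub_le _ _
    linarith
  have hint : ∀ (x : ℂ) (a : ℝ), 0 < a → (∀ᵐ w ∂μ, a ≤ ‖x - w‖) →
      Integrable (fun w => (x - w)⁻¹) μ := by
    intro x a ha hx
    refine Integrable.of_bound (measurable_const.sub measurable_id).inv.aestronglyMeasurable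
      (1 / a) ?_
    filter_upwards [hx] with w hw
    rw [norm_inv, one_div]
    exact inv_anti₀ ha hw
  rw [← integral_sub (hint v (r / 2) (by positivity) hae2) (hint z r hr hae)]
  have h3 : ∀ᵐ w ∂μ, ‖(v - w)⁻¹ - (z - w)⁻¹‖ ≤ 2 / r ^ 2 * ‖v - z‖ := by
    filter_upwards [hae, hae2] with w hw hw2
    have hvw : v - w ≠ 0 := by
      intro h
      rw [h, norm_zero] at hw2
      linarith
    have hzw : z - w ≠ 0 := by
      intro h
      rw [h, norm_zero] at hw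
      linarith
    have e1 : (v - w)⁻¹ - (z - w)⁻¹ = -(v - z) * ((v - w)⁻¹ * (z - w)⁻¹) := by
      field_simp
      ring
    rw [e1, norm_mul, norm_neg, norm_mul, norm_inv, norm_inv]
    have e2 : ‖v - w‖⁻¹ ≤ (r / 2)⁻¹ := inv_anti₀ (by positivity) hw2
    have e3 : ‖z - w‖⁻¹ ≤ r⁻¹ := inv_anti₀ hr hw
    calc ‖v - z‖ * (‖v - w‖⁻¹ * ‖z - w‖⁻¹) ≤ ‖v - z‖ * ((r / 2)⁻¹ * r⁻¹) := by gcongr
      _ = 2 / r ^ 2 * ‖v - z‖ := by field_simp
  have h4 := norm_integral_le_of_norm_le_const h3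
  simpa using h4

/-- On a compact set the hypotheses hold with a margin. -/
theorem margin {μ : Measure ℂ} [IsProbabilityMeasure μ] {M s B β : ℝ} (hs : 0 < s)
    (hs2 : s ≤ 2) (hB0 : 0 ≤ B) (hM : ∀ᵐ w ∂μ, ‖w‖ ≤ M)
    (hB : ∀ (z : ℂ) (r : ℝ), 0 < r → μ {w | ‖z - w‖ ≤ r} ≤ ENNReal.ofReal (B * r ^ s))
    (hlev : ∀ z : ℂ, ‖z‖ ≤ M → ∫ w, Real.log ‖z - w‖ ∂μ = -β →
      (∃ r : ℝ, 0 < r ∧ μ (Metric.ball z r) = 0) ∧ ∫ w, (z - w)⁻¹ ∂μ ≠ 0) (t : ℂ)
    (ht : ∫ w, Real.log ‖t - w‖ ∂μ ≠ -β) :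
    ∃ η : ℝ, 0 < η ∧ η ≤ |(∫ w, Real.log ‖t - w‖ ∂μ) + β| ∧
      ∀ z : ℂ, ‖z‖ ≤ M → |(∫ w, Real.log ‖z - w‖ ∂μ) + β| ≤ η →
        μ (Metric.ball z η) = 0 ∧ η ≤ ‖∫ w, (z - w)⁻¹ ∂μ‖ := by
  set U : ℂ → ℝ := fun z : ℂ => ∫ w, Real.log ‖z - w‖ ∂μ with hU
  have hUc : Continuous U := pot_continuous hs hs2 hB0 hM hB
  have key : ∀ᶠ η : ℝ in 𝓝 0, ∀ z ∈ Metric.closedBall (0 : ℂ) M, |U z + β| ≤ η → 0 < η →
      μ (Metric.ball z η) = 0 ∧ η ≤ ‖∫ w, (z - w)⁻¹ ∂μ‖ := by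
    refine (isCompact_closedBall (0 : ℂ) M).eventually_forall_of_forall_eventually ?_
    intro z hz
    rcases eq_or_ne (U z) (-β) with hUz | hUz
    · obtain ⟨⟨r, hr, h0⟩, hC⟩ := hlev z (mem_closedBall_zero_iff.mp hz) hUz
      set m : ℝ := ‖∫ w, (z - w)⁻¹ ∂μ‖ with hm
      have hm0 : 0 < m := norm_pos_iff.mpr hC
      have e1 : ∀ᶠ p : ℝ × ℂ in 𝓝 (0, z), p.1 < r / 2 ∧ p.1 < m / 2 := by
        have h1 : Tendsto (fun p : ℝ × ℂ => p.1) (𝓝 (0, z)) (𝓝 0) := continuous_fst.tendsto _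
        exact (h1.eventually_lt_const (by positivity)).and (h1.eventually_lt_const (by positivity))
      have e2 : ∀ᶠ p : ℝ × ℂ in 𝓝 (0, z), ‖p.2 - z‖ < r / 2 ∧ ‖p.2 - z‖ < m * r ^ 2 / 4 := by
        have h1 : Tendsto (fun p : ℝ × ℂ => ‖p.2 - z‖) (𝓝 (0, z)) (𝓝 0) := by
          have h2 : Continuous fun p : ℝ × ℂ => ‖p.2 - z‖ := by fun_prop
          have h3 := h2.tendsto (0, z)
          simpa using h3
        exact (h1.eventually_lt_const (by positivity)).and (h1.eventually_lt_const (by positivity))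
      filter_upwards [e1, e2] with p hp1 hp2 _ hp0
      constructor
      · refine measure_mono_null ?_ h0
        intro w hw
        rw [Metric.mem_ball, Complex.dist_eq] at hw ⊢
        have : w - z = (w - p.2) + (p.2 - z) := by ring
        rw [this]
        have := norm_add_le (w - p.2) (p.2 - z)
        linarith [hp1.1, hp2.1]
      · have h3 := cauchy_near hr h0 hp2.1
        have h4 := norm_sub_norm_le (∫ w, (z - w)⁻¹ ∂μ) (∫ w, (p.2 - w)⁻¹ ∂μ)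
        rw [norm_sub_rev] at h4
        have h5 : 2 / r ^ 2 * ‖p.2 - z‖ ≤ m / 2 := by
          calc 2 / r ^ 2 * ‖p.2 - z‖ ≤ 2 / r ^ 2 * (m * r ^ 2 / 4) := by
                gcongr
                exact hp2.2.le
            _ = m / 2 := by field_simp; ring
        linarith [hp1.2]
    · have hd : 0 < |U z + β| := by
        rw [abs_pos]
        intro h
        exact hUz (by linarith)
      have e1 : ∀ᶠ p : ℝ × ℂ in 𝓝 (0, z), p.1 < |U z + β| / 2 := by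
        have h1 : Tendsto (fun p : ℝ × ℂ => p.1) (𝓝 (0, z)) (𝓝 0) := continuous_fst.tendsto _
        exact h1.eventually_lt_const (by positivity)
      have e2 : ∀ᶠ p : ℝ × ℂ in 𝓝 (0, z), |U z + β| / 2 < |U p.2 + β| := by
        have h2 : Continuous fun p : ℝ × ℂ => |U p.2 + β| := by fun_prop
        exact (h2.tendsto (0, z)).eventually_const_lt (by simpa using half_lt_self hd)
      filter_upwards [e1, e2] with p hp1 hp2 hle _
      linarith
  have hT : 0 < |U t + β| := by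
    rw [abs_pos]
    intro h
    exact ht (by linarith)
  have key2 : ∀ᶠ η : ℝ in 𝓝[>] 0, η ≤ |U t + β| := by
    have : ∀ᶠ η : ℝ in 𝓝 0, η ≤ |U t + β| := eventually_le_nhds hT
    exact this.filter_mono nhdsWithin_le_nhds
  have key3 : ∀ᶠ η : ℝ in 𝓝[>] 0, 0 < η := self_mem_nhdsWithin
  obtain ⟨η, h1, h2, h3⟩ := ((key.filter_mono nhdsWithin_le_nhds).and (key2.and key3)).exists
  exact ⟨η, h3, h2, fun z hz hUz => h1 z (mem_closedBall_zero_iff.mpr hz) hUz h3⟩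

end Pool.Agent.H363Roots
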