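import Mathlib
import Pool.Agent.H363Roots.Iid

/-!
# Two laws: compactness
-/

set_option autoImplicit false

open MeasureTheory ProbabilityTheory Filter Topology

namespace Pool.Agent.H363Roots

/-- The potential far away. -/
theorem pot_far {μ : Measure ℂ} [IsProbabilityMeasure μ] {M : ℝ}
    (hM : ∀ᵐ w ∂μ, ‖w‖ ≤ M) {z : ℂ} (hz : 2 * M ≤ ‖z‖) (hz0 : 0 < ‖z‖) :
    |(∫ w, Real.log ‖z - w‖ ∂μ) - Real.log ‖z‖| ≤ 2 * M / ‖z‖ := by
  have hpt : ∀ᵐ w ∂μ, ‖Real.log ‖z - w‖ - Real.log ‖z‖‖ ≤ 2 * M / ‖z‖ := by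
    filter_upwards [hM] with w hw
    have h1 : ‖z‖ - ‖w‖ ≤ ‖z - w‖ := norm_sub_norm_le z w
    have h2 : ‖z - w‖ ≤ ‖z‖ + ‖w‖ := norm_sub_le z w
    have h3 : ‖z‖ / 2 ≤ ‖z - w‖ := by linarith
    have ha : 0 < ‖z - w‖ := by linarith
    rw [Real.norm_eq_abs, abs_le]
    constructor
    · have h4 : Real.log ‖z‖ - Real.log ‖z - w‖ ≤ ‖z‖ / ‖z - w‖ - 1 := by
        rw [← Real.log_div hz0.ne' ha.ne']
        exact Real.log_le_sub_one_of_pos (by positivity)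
      have h5 : ‖z‖ / ‖z - w‖ - 1 ≤ 2 * M / ‖z‖ := by
        rw [div_sub_one ha.ne', div_le_div_iff₀ ha hz0]
        have h6 : ‖z‖ - ‖z - w‖ ≤ M := by linarith
        have hM0 : 0 ≤ M := (norm_nonneg w).trans hw
        calc (‖z‖ - ‖z - w‖) * ‖z‖ ≤ M * ‖z‖ := by gcongr
          _ = 2 * M * (‖z‖ / 2) := by ring
          _ ≤ 2 * M * ‖z - w‖ := by gcongr
      linarith
    · have h4 : Real.log ‖z - w‖ - Real.log ‖z‖ ≤ ‖z - w‖ / ‖z‖ - 1 := by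
        rw [← Real.log_div ha.ne' hz0.ne']
        exact Real.log_le_sub_one_of_pos (by positivity)
      have h5 : ‖z - w‖ / ‖z‖ - 1 ≤ 2 * M / ‖z‖ := by
        have hM0 : 0 ≤ M := (norm_nonneg w).trans hw
        rw [div_sub_one hz0.ne']
        gcongr
        linarith
      linarith
  have hm : AEStronglyMeasurable (fun w : ℂ => Real.log ‖z - w‖ - Real.log ‖z‖) μ :=
    ((Real.measurable_log.comp (measurable_const.sub measurable_id).norm).sub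
      measurable_const).aestronglyMeasurable
  have hi : Integrable (fun w : ℂ => Real.log ‖z - w‖ - Real.log ‖z‖) μ :=
    Integrable.of_bound hm _ hpt
  have hi2 : Integrable (fun w : ℂ => Real.log ‖z - w‖) μ := by
    have := hi.add (integrable_const (Real.log ‖z‖))
    refine this.congr ?_
    filter_upwards with w
    simp
  have h1 : (∫ w, Real.log ‖z - w‖ ∂μ) - Real.log ‖z‖ =
      ∫ w, (Real.log ‖z - w‖ - Real.log ‖z‖) ∂μ := by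
    rw [integral_sub hi2 (integrable_const _), integral_const]
    simp
  rw [h1]
  have h2 := norm_integral_le_of_norm_le_const hpt
  simpa using h2

/-- The hypotheses hold with a margin. -/
theorem margin2 {μ ν : Measure ℂ} [IsProbabilityMeasure μ] [IsProbabilityMeasure ν]
    {M s B β : ℝ} (hs : 0 < s) (hs2 : s ≤ 2) (hB0 : 0 ≤ B)
    (hM : ∀ᵐ w ∂μ, ‖w‖ ≤ M) (hM' : ∀ᵐ w ∂ν, ‖w‖ ≤ M)
    (hB : ∀ (z : ℂ) (r : ℝ), 0 < r → μ {w | ‖z - w‖ ≤ r} ≤ ENNReal.ofReal (B * r ^ s))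
    (hB' : ∀ (z : ℂ) (r : ℝ), 0 < r → ν {w | ‖z - w‖ ≤ r} ≤ ENNReal.ofReal (B * r ^ s))
    (hβ : β ≠ 0)
    (hzero : (∫ w, Real.log ‖0 - w‖ ∂μ) - ∫ w, Real.log ‖0 - w‖ ∂ν ≠ -β)
    (hlev : ∀ z : ℂ, (∫ w, Real.log ‖z - w‖ ∂μ) - ∫ w, Real.log ‖z - w‖ ∂ν = -β →
      (∃ r : ℝ, 0 < r ∧ μ (Metric.ball z r) = 0 ∧ ν (Metric.ball z r) = 0) ∧
        ∫ w, (z - w)⁻¹ ∂μ ≠ ∫ w, (z - w)⁻¹ ∂ν) :
    ∃ η : ℝ, 0 < η ∧ 2 * η ≤ |β| ∧
      2 * η ≤ |(∫ w, Real.log ‖0 - w‖ ∂μ) - (∫ w, Real.log ‖0 - w‖ ∂ν) + β| ∧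
      ∀ z : ℂ, |(∫ w, Real.log ‖z - w‖ ∂μ) - (∫ w, Real.log ‖z - w‖ ∂ν) + β| ≤ 2 * η →
        μ (Metric.ball z η) = 0 ∧ ν (Metric.ball z η) = 0 ∧
          η ≤ ‖(∫ w, (z - w)⁻¹ ∂μ) - ∫ w, (z - w)⁻¹ ∂ν‖ := by
  set U : ℂ → ℝ := fun z : ℂ => (∫ w, Real.log ‖z - w‖ ∂μ) - ∫ w, Real.log ‖z - w‖ ∂ν with hU
  have hUc : Continuous U :=
    (pot_continuous hs hs2 hB0 hM hB).sub (pot_continuous hs hs2 hB0 hM' hB')
  have hβ0 : 0 < |β| := abs_pos.mpr hβ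
  have hM0 : 0 ≤ M := by
    obtain ⟨w, hw⟩ := hM.exists
    exact (norm_nonneg w).trans hw
  set R : ℝ := 2 * M + 8 * M / |β| + 1 with hR
  have hfar : ∀ z : ℂ, R < ‖z‖ → |β| / 2 < |U z + β| := by
    intro z hz
    have h8 : 0 ≤ 8 * M / |β| := by positivity
    have hz0 : 0 < ‖z‖ := by linarith
    have h1 := pot_far hM (z := z) (by linarith) hz0
    have h2 := pot_far hM' (z := z) (by linarith) hz0
    have h3 : 2 * M / ‖z‖ < |β| / 4 := by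
      rw [div_lt_iff₀ hz0]
      have h4 : 8 * M / |β| < ‖z‖ := by linarith
      rw [div_lt_iff₀ hβ0] at h4
      linarith
    have h5 : |U z| < |β| / 2 := by
      have h6 : U z = ((∫ w, Real.log ‖z - w‖ ∂μ) - Real.log ‖z‖) -
          ((∫ w, Real.log ‖z - w‖ ∂ν) - Real.log ‖z‖) := by
        rw [hU]
        ring
      rw [h6]
      have h7 := abs_sub ((∫ w, Real.log ‖z - w‖ ∂μ) - Real.log ‖z‖)
        ((∫ w, Real.log ‖z - w‖ ∂ν) - Real.log ‖z‖)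
      linarith
    have h6 : |β| ≤ |U z + β| + |U z| := by
      have : β = (U z + β) - U z := by ring
      calc |β| = |(U z + β) - U z| := by rw [← this]
        _ ≤ |U z + β| + |U z| := abs_sub _ _
    linarith
  have key : ∀ᶠ η : ℝ in 𝓝 0, ∀ z ∈ Metric.closedBall (0 : ℂ) R, |U z + β| ≤ 2 * η → 0 < η →
      μ (Metric.ball z η) = 0 ∧ ν (Metric.ball z η) = 0 ∧
        η ≤ ‖(∫ w, (z - w)⁻¹ ∂μ) - ∫ w, (z - w)⁻¹ ∂ν‖ := by
    refine (isCompact_closedBall (0 : ℂ) R).eventually_forall_of_forall_eventually ?_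
    intro z _
    rcases eq_or_ne (U z) (-β) with hUz | hUz
    · obtain ⟨⟨r, hr, h0, h0'⟩, hC⟩ := hlev z hUz
      set m : ℝ := ‖(∫ w, (z - w)⁻¹ ∂μ) - ∫ w, (z - w)⁻¹ ∂ν‖ with hm
      have hm0 : 0 < m := norm_pos_iff.mpr (sub_ne_zero.mpr hC)
      have e1 : ∀ᶠ p : ℝ × ℂ in 𝓝 (0, z), p.1 < r / 2 ∧ p.1 < m / 2 := by
        have h1 : Tendsto (fun p : ℝ × ℂ => p.1) (𝓝 (0, z)) (𝓝 0) := continuous_fst.tendsto _
        exact (h1.eventually_lt_const (by positivity)).and (h1.eventually_lt_const (by positivity))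
      have e2 : ∀ᶠ p : ℝ × ℂ in 𝓝 (0, z), ‖p.2 - z‖ < r / 2 ∧ ‖p.2 - z‖ < m * r ^ 2 / 8 := by
        have h1 : Tendsto (fun p : ℝ × ℂ => ‖p.2 - z‖) (𝓝 (0, z)) (𝓝 0) := by
          have h2 : Continuous fun p : ℝ × ℂ => ‖p.2 - z‖ := by fun_prop
          have h3 := h2.tendsto (0, z)
          simpa using h3
        exact (h1.eventually_lt_const (by positivity)).and (h1.eventually_lt_const (by positivity))
      filter_upwards [e1, e2] with p hp1 hp2 _ hp0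
      have hsub : Metric.ball p.2 p.1 ⊆ Metric.ball z r := by
        intro w hw
        rw [Metric.mem_ball, Complex.dist_eq] at hw ⊢
        have : w - z = (w - p.2) + (p.2 - z) := by ring
        rw [this]
        have := norm_add_le (w - p.2) (p.2 - z)
        linarith [hp1.1, hp2.1]
      refine ⟨measure_mono_null hsub h0, measure_mono_null hsub h0', ?_⟩
      have h3 := cauchy_near hr h0 hp2.1
      have h3' := cauchy_near hr h0' hp2.1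
      have h5 : 2 / r ^ 2 * ‖p.2 - z‖ ≤ m / 4 := by
        calc 2 / r ^ 2 * ‖p.2 - z‖ ≤ 2 / r ^ 2 * (m * r ^ 2 / 8) := by
              gcongr
              exact hp2.2.le
          _ = m / 4 := by field_simp; ring
      have h6 : (∫ w, (z - w)⁻¹ ∂μ) - ∫ w, (z - w)⁻¹ ∂ν =
          ((∫ w, (p.2 - w)⁻¹ ∂μ) - ∫ w, (p.2 - w)⁻¹ ∂ν) -
            (((∫ w, (p.2 - w)⁻¹ ∂μ) - ∫ w, (z - w)⁻¹ ∂μ) -
              ((∫ w, (p.2 - w)⁻¹ ∂ν) - ∫ w, (z - w)⁻¹ ∂ν)) := by ring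
      have h7 : m ≤ ‖(∫ w, (p.2 - w)⁻¹ ∂μ) - ∫ w, (p.2 - w)⁻¹ ∂ν‖ +
          ‖((∫ w, (p.2 - w)⁻¹ ∂μ) - ∫ w, (z - w)⁻¹ ∂μ) -
              ((∫ w, (p.2 - w)⁻¹ ∂ν) - ∫ w, (z - w)⁻¹ ∂ν)‖ := by
        rw [hm, h6]
        exact norm_sub_le _ _
      have h8 := norm_sub_le ((∫ w, (p.2 - w)⁻¹ ∂μ) - ∫ w, (z - w)⁻¹ ∂μ)
        ((∫ w, (p.2 - w)⁻¹ ∂ν) - ∫ w, (z - w)⁻¹ ∂ν)
      linarith [hp1.2]
    · have hd : 0 < |U z + β| := by
        rw [abs_pos]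
        intro h
        exact hUz (by linarith)
      have e1 : ∀ᶠ p : ℝ × ℂ in 𝓝 (0, z), p.1 < |U z + β| / 4 := by
        have h1 : Tendsto (fun p : ℝ × ℂ => p.1) (𝓝 (0, z)) (𝓝 0) := continuous_fst.tendsto _
        exact h1.eventually_lt_const (by positivity)
      have e2 : ∀ᶠ p : ℝ × ℂ in 𝓝 (0, z), |U z + β| / 2 < |U p.2 + β| := by
        have h2 : Continuous fun p : ℝ × ℂ => |U p.2 + β| := by fun_prop
        exact (h2.tendsto (0, z)).eventually_const_lt (by simpa using half_lt_self hd)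
      filter_upwards [e1, e2] with p hp1 hp2 hle _
      linarith
  have hT : 0 < |U 0 + β| := by
    rw [abs_pos]
    intro h
    exact hzero (by linarith)
  have key2 : ∀ᶠ η : ℝ in 𝓝[>] 0, η ≤ |U 0 + β| / 2 ∧ η ≤ |β| / 8 := by
    have h1 : ∀ᶠ η : ℝ in 𝓝 0, η ≤ |U 0 + β| / 2 := eventually_le_nhds (by positivity)
    have h2 : ∀ᶠ η : ℝ in 𝓝 0, η ≤ |β| / 8 := eventually_le_nhds (by positivity)
    exact (h1.and h2).filter_mono nhdsWithin_le_nhds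
  have key3 : ∀ᶠ η : ℝ in 𝓝[>] 0, 0 < η := self_mem_nhdsWithin
  obtain ⟨η, h1, ⟨h2, h2'⟩, h3⟩ :=
    ((key.filter_mono nhdsWithin_le_nhds).and (key2.and key3)).exists
  refine ⟨η, h3, by linarith, by linarith, fun z hUz => ?_⟩
  rcases le_or_gt ‖z‖ R with hz | hz
  · exact h1 z (mem_closedBall_zero_iff.mpr hz) hUz h3
  · exfalso
    have := hfar z hz
    linarith

end Pool.Agent.H363Roots
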