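import Mathlib
import Pool.Agent.H363Roots.Attr

/-!
# A noncritical level of the mean potential: deterministic part
-/

set_option autoImplicit false

open Filter Topology Polynomial

namespace Pool.Agent.H363Roots

/-- A polynomial map which is close to `t` on a neighbourhood of `t` has an attracting fixed point
near `t`. -/
theorem sink_at {F : ℂ[X]} {t : ℂ} {r a : ℝ} (hr : 0 < r) (har : a ≤ r / 2)
    (hF : ∀ w : ℂ, ‖w - t‖ ≤ 2 * r → ‖F.eval w - t‖ ≤ a) :
    ∃ x : ℂ, F.eval x = x ∧ ‖(derivative F).eval x‖ < 1 ∧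
      ∀ c : ℂ, ‖c - t‖ ≤ r → Tendsto (fun k : ℕ => (fun w => F.eval w)^[k] c) atTop (𝓝 x) := by
  have hder : ∀ z0 : ℂ, ‖z0 - t‖ ≤ r → ‖deriv (fun w => F.eval w) z0‖ ≤ 1 / 2 := by
    intro z0 hz0
    have h1 : deriv (fun w => F.eval w) z0 = deriv (fun w => F.eval w - t) z0 := by
      rw [deriv_sub_const_fun]
    rw [h1]
    have h2 := Complex.norm_deriv_le_of_forall_mem_sphere_norm_le (c := z0) (R := r) (C := a)
      (f := fun w => F.eval w - t) hr
      ((F.differentiable.sub_const t).diffContOnCl) (by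
        intro w hw
        refine hF w ?_
        rw [mem_sphere_iff_norm] at hw
        have : w - t = (w - z0) + (z0 - t) := by ring
        rw [this]
        have := norm_add_le (w - z0) (z0 - t)
        linarith)
    refine h2.trans ?_
    rw [div_le_iff₀ hr]
    linarith
  have hlip : ∀ a b : ℂ, ‖a - t‖ ≤ r → ‖b - t‖ ≤ r → ‖F.eval a - F.eval b‖ ≤ 1 / 2 * ‖a - b‖ := by
    intro a b ha hb
    have h3 := (convex_closedBall t r).norm_image_sub_le_of_norm_deriv_le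
      (f := fun w => F.eval w) (C := 1 / 2) (fun x _ => F.differentiable.differentiableAt)
      (fun x hx => hder x (mem_closedBall_iff_norm.mp hx)) (mem_closedBall_iff_norm.mpr hb)
      (mem_closedBall_iff_norm.mpr ha)
    exact h3
  have hmaps : ∀ a : ℂ, ‖a - t‖ ≤ r → ‖F.eval a - t‖ ≤ r := by
    intro a ha
    have h4 := hF a (by linarith)
    linarith
  have hmapsto : Set.MapsTo (fun w => F.eval w) (Metric.closedBall t r)
      (Metric.closedBall t r) := by
    intro a ha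
    rw [mem_closedBall_iff_norm] at ha ⊢
    exact hmaps a ha
  have hcontr : ContractingWith (1 / 2) (hmapsto.restrict (fun w => F.eval w) _ _) := by
    refine ⟨by norm_num [← NNReal.coe_lt_coe], ?_⟩
    refine LipschitzWith.of_dist_le_mul fun a b => ?_
    rw [Subtype.dist_eq, Subtype.dist_eq, Complex.dist_eq, Complex.dist_eq]
    have h6 := hlip a b (mem_closedBall_iff_norm.mp a.2) (mem_closedBall_iff_norm.mp b.2)
    simpa using h6
  obtain ⟨x, hx1, hx2, -, -⟩ := hcontr.exists_fixedPoint' Metric.isClosed_closedBall.isComplete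
    hmapsto (x := t) (by rw [mem_closedBall_iff_norm, sub_self, norm_zero]; exact hr.le)
    (edist_ne_top _ _)
  rw [mem_closedBall_iff_norm] at hx1
  have hfix : F.eval x = x := hx2
  refine ⟨x, hfix, ?_, ?_⟩
  · have h7 := hder x hx1
    rw [Polynomial.deriv] at h7
    linarith
  · intro c hc
    have hit : ∀ k : ℕ, ‖(fun w => F.eval w)^[k] c - t‖ ≤ r ∧
        ‖(fun w => F.eval w)^[k] c - x‖ ≤ (1 / 2) ^ k * ‖c - x‖ := by
      intro k
      induction k with
      | zero => simpa using hc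
      | succ k ih =>
        rw [Function.iterate_succ_apply']
        refine ⟨hmaps _ ih.1, ?_⟩
        have h8 := hlip _ x ih.1 hx1
        rw [hfix] at h8
        calc _ ≤ 1 / 2 * ‖(fun w => F.eval w)^[k] c - x‖ := h8
          _ ≤ 1 / 2 * ((1 / 2) ^ k * ‖c - x‖) := by gcongr; exact ih.2
          _ = (1 / 2) ^ (k + 1) * ‖c - x‖ := by ring
    rw [tendsto_iff_norm_sub_tendsto_zero]
    have h9 : Tendsto (fun k : ℕ => (1 / 2 : ℝ) ^ k * ‖c - x‖) atTop (𝓝 (0 * ‖c - x‖)) :=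
      (tendsto_pow_atTop_nhds_zero_of_lt_one (by norm_num) (by norm_num)).mul_const _
    rw [zero_mul] at h9
    exact squeeze_zero (fun k => norm_nonneg _) (fun k => (hit k).2) h9

/-- The derivative at a point which is not a root. -/
theorem derivative_ne_zero {N : ℕ} (z : Fin N → ℂ) (c : ℂ) (h : ∀ i, c - z i ≠ 0)
    (hs : ∑ i, (c - z i)⁻¹ ≠ 0) : (derivative (wr z)).eval c ≠ 0 := by
  rcases Nat.eq_zero_or_pos N with h0 | h0
  · subst h0
    simp at hs
  · have h1 := eval_derivative_wr z c ⟨0, h0⟩ (fun j _ => h j)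
    have h2 : (1 : ℂ) = (c - z ⟨0, h0⟩) * (c - z ⟨0, h0⟩)⁻¹ := (mul_inv_cancel₀ (h _)).symm
    have h3 : 1 + (c - z ⟨0, h0⟩) * ∑ k ∈ Finset.univ.erase ⟨0, h0⟩, (c - z k)⁻¹ =
        (c - z ⟨0, h0⟩) * ∑ i, (c - z i)⁻¹ := by
      rw [← Finset.add_sum_erase Finset.univ (fun i => (c - z i)⁻¹) (Finset.mem_univ ⟨0, h0⟩),
        mul_add, ← h2]
    rw [h1, h3]
    refine mul_ne_zero ?_ (mul_ne_zero (h _) hs)
    rw [Finset.prod_ne_zero_iff]
    exact fun j _ => h j

theorem double_of_big {N : ℕ} (z : Fin N → ℂ) {M a R : ℝ} (hN : 2 ≤ N)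
    (hz : ∀ i, ‖z i‖ ≤ M) (hRM : 2 * M ≤ R) (hR0 : 0 < R)
    (hR1 : 1 ≤ Real.exp a / 2 * R) (hR3 : 3 ≤ (Real.exp a / 2) ^ 2 * R)
    (α t : ℂ) (hα : Real.exp (a * N) ≤ ‖α‖) (ht : ‖t‖ ≤ R) (w : ℂ) (hw : R ≤ ‖w‖) :
    2 * ‖w‖ ≤ ‖(C α * wr z + C t).eval w‖ := by
  have heval : ‖α‖ * ∏ i, ‖w - z i‖ - ‖t‖ ≤ ‖(C α * wr z + C t).eval w‖ := by
    rw [eval_add, eval_mul, eval_C, eval_C, eval_wr]
    have h1 : ‖α * ∏ i, (w - z i)‖ = ‖α‖ * ∏ i, ‖w - z i‖ := by
      rw [norm_mul, norm_prod]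
    rw [← h1]
    have h2 := norm_sub_norm_le (α * ∏ i, (w - z i)) (-t)
    rw [norm_neg, sub_neg_eq_add] at h2
    exact h2
  refine le_trans ?_ heval
  set κ := Real.exp a / 2 with hκdef
  have hκ : 0 < κ := by positivity
  have h1 : ∀ i, ‖w‖ / 2 ≤ ‖w - z i‖ := by
    intro i
    have h2 := norm_sub_norm_le w (z i)
    have h3 := hz i
    linarith
  have h2 : (‖w‖ / 2) ^ N ≤ ∏ i, ‖w - z i‖ := by
    calc (‖w‖ / 2) ^ N = ∏ _i : Fin N, (‖w‖ / 2) := by
          rw [Finset.prod_const, Finset.card_univ, Fintype.card_fin]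
      _ ≤ ∏ i, ‖w - z i‖ := Finset.prod_le_prod (fun i _ => by positivity) fun i _ => h1 i
  have h3 : (κ * ‖w‖) ^ N ≤ ‖α‖ * ∏ i, ‖w - z i‖ := by
    calc (κ * ‖w‖) ^ N = Real.exp (a * N) * (‖w‖ / 2) ^ N := by
          rw [mul_comm a, Real.exp_nat_mul, ← mul_pow]
          congr 1
          rw [hκdef]
          ring
      _ ≤ ‖α‖ * ∏ i, ‖w - z i‖ := by gcongr
  have h4 : 1 ≤ κ * ‖w‖ := hR1.trans (by gcongr)
  have h5 : (κ * ‖w‖) ^ 2 ≤ (κ * ‖w‖) ^ N := pow_le_pow_right₀ h4 hN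
  have h6 : 3 * ‖w‖ ≤ (κ * ‖w‖) ^ 2 := by
    have h7 : 3 ≤ κ ^ 2 * ‖w‖ := hR3.trans (by gcongr)
    have : (κ * ‖w‖) ^ 2 = (κ ^ 2 * ‖w‖) * ‖w‖ := by ring
    rw [this]
    gcongr
  linarith

/-- The deterministic part. -/
theorem level_det {N : ℕ} (z : Fin N → ℂ) (V : ℂ → ℝ) {M τ σ h h0 β η ρ a R : ℝ} {L : ℕ}
    (S S' : Set ℂ) (hN : 2 ≤ N) (hM0 : 0 ≤ M) (hτ : 0 ≤ τ) (hη : 0 < η) (hσ : 0 < σ)
    (hh : 0 < h) (hh0 : 0 < h0) (hhh : h ≤ h0) (hL : (M + τ + 1) / h + 1 ≤ L)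
    (hz : ∀ i, ‖z i‖ ≤ M) (hsep : ∀ i j, i ≠ j → σ < ‖z i - z j‖)
    (hV : ∀ v w : ℂ, ‖v - w‖ ≤ h0 → V w ≤ V v + η / 32 * N)
    (hG3 : ∀ p ∈ Finset.Icc (-(L : ℤ)) L ×ˢ Finset.Icc (-(L : ℤ)) L,
      η / 4 * N ≤ V (gridPt h p) + β * N →
        Real.exp ((-β + η / 8) * N) ≤ ∏ i, ‖gridPt h p - z i‖)
    (hS : ∀ w : ℂ, ‖w‖ ≤ M + τ + 1 → ∃ g ∈ S, ‖w - g‖ ≤ h0 / 2)
    (hG4 : ∀ g ∈ S, V g + β * N ≤ -(η / 4) * N →
      ∏ i, (‖g - z i‖ + h0) ≤ Real.exp ((-β - η / 8) * N))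
    (hS' : ∀ w : ℂ, ‖w‖ ≤ M → ∃ g ∈ S', ‖w - g‖ ≤ h0 / 2)
    (hG5 : ∀ g ∈ S', |V g + β * N| ≤ η * N → (∀ i, η ≤ ‖g - z i‖) ∧
      3 * η / 4 * N ≤ ‖∑ i, (g - z i)⁻¹‖)
    (hh0η : h0 ≤ η) (hh0η3 : h0 ≤ η ^ 3 / 4) (hρ : ρ ≤ η / 32)
    (hsm1 : (1 + h / (σ / N)) ^ N ≤ Real.exp (η / 32 * N))
    (hsm2 : (1 + h / (Real.exp (-ρ * N) / 2)) ^ N ≤ Real.exp (η / 32 * N))
    (ha : a = Real.exp (-(η / 16) * N)) (haρ : a ≤ Real.exp (-ρ * N) / 2) (hah : a ≤ h0 / 8)
    (ha1 : a ≤ 1)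
    (hR : R = Real.exp (η / 32 * N)) (hR2 : 2 ≤ R) (hRτ : τ ≤ R) (hRM : 2 * M ≤ R)
    (hR1 : 1 ≤ Real.exp (β - ρ) / 2 * R) (hR3 : 3 ≤ (Real.exp (β - ρ) / 2) ^ 2 * R)
    (α t : ℂ) (hα : Real.exp ((β - ρ) * N) ≤ ‖α‖) (hα' : ‖α‖ ≤ Real.exp ((β + ρ) * N))
    (ht : ‖t‖ ≤ τ) (htV : η * N ≤ |V t + β * N|) (htz : ∀ i, Real.exp (-ρ * N) ≤ ‖t - z i‖)
    (c : ℂ) (hc : (derivative (C α * wr z + C t)).eval c = 0) :
    Tendsto (fun k : ℕ => ‖(fun w => (C α * wr z + C t).eval w)^[k] c‖) atTop atTop ∨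
      ∃ x : ℂ, (C α * wr z + C t).eval x = x ∧ ‖(derivative (C α * wr z + C t)).eval x‖ < 1 ∧
        Tendsto (fun k : ℕ => (fun w => (C α * wr z + C t).eval w)^[k] c) atTop (𝓝 x) := by
  have hN0 : (0 : ℝ) < N := by
    have : 0 < N := by omega
    exact_mod_cast this
  have hηN : 0 < η * N := by positivity
  have hα0 : 0 < ‖α‖ := (Real.exp_pos _).trans_le hα
  have hR0 : 0 < R := by linarith
  have hc' : (derivative (wr z)).eval c = 0 := by
    rw [derivative_add, derivative_C, add_zero, derivative_mul, derivative_C, zero_mul, zero_add,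
      eval_mul, eval_C] at hc
    rcases mul_eq_zero.mp hc with h1 | h1
    · rw [h1, norm_zero] at hα0
      exact absurd hα0 (lt_irrefl _)
    · exact h1
  have hcM : ‖c‖ ≤ M := critical_norm z c (by omega) hz hc'
  have hdouble := double_of_big z hN hz hRM hR0 hR1 hR3 α t hα (ht.trans hRτ)
  -- large values
  have hbig : ∀ (w : ℂ) (r : ℝ), ‖w‖ ≤ M + τ + 1 → 0 < r → (∀ i, r ≤ ‖w - z i‖) →
      (1 + h / r) ^ N ≤ Real.exp (η / 32 * N) → η / 2 * N ≤ V w + β * N →
      R ≤ ‖(C α * wr z + C t).eval w‖ := by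
    intro w r hw hr hwz hsm hVw
    obtain ⟨p, hp, hpw⟩ := grid_near hh hL w hw
    have h1 : V w ≤ V (gridPt h p) + η / 32 * N := by
      refine hV _ _ ?_
      rw [norm_sub_rev]
      exact hpw.trans hhh
    have h2 := hG3 p hp (by linarith)
    have h3 := prod_compare z w (gridPt h p) hr hwz hpw
    have h4 : Real.exp ((-β + 3 * η / 32) * N) ≤ ∏ i, ‖w - z i‖ := by
      have h5 : Real.exp ((-β + η / 8) * N) ≤ (∏ i, ‖w - z i‖) * Real.exp (η / 32 * N) := by
        refine h2.trans (h3.trans ?_)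
        have : 0 ≤ ∏ i, ‖w - z i‖ := Finset.prod_nonneg fun i _ => norm_nonneg _
        gcongr
      have h6 : Real.exp ((-β + η / 8) * N) = Real.exp ((-β + 3 * η / 32) * N) *
          Real.exp (η / 32 * N) := by
        rw [← Real.exp_add]
        congr 1
        ring
      rw [h6] at h5
      exact le_of_mul_le_mul_right h5 (Real.exp_pos _)
    have h7 : R * R ≤ ‖α‖ * ∏ i, ‖w - z i‖ := by
      calc R * R ≤ Real.exp ((β - ρ) * N) * Real.exp ((-β + 3 * η / 32) * N) := by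
            rw [hR, ← Real.exp_add, ← Real.exp_add]
            refine Real.exp_le_exp.mpr ?_
            nlinarith
        _ ≤ ‖α‖ * ∏ i, ‖w - z i‖ := by gcongr
    have heval : ‖α‖ * ∏ i, ‖w - z i‖ - ‖t‖ ≤ ‖(C α * wr z + C t).eval w‖ := by
      rw [eval_add, eval_mul, eval_C, eval_C, eval_wr]
      have h1 : ‖α * ∏ i, (w - z i)‖ = ‖α‖ * ∏ i, ‖w - z i‖ := by
        rw [norm_mul, norm_prod]
      rw [← h1]
      have h2 := norm_sub_norm_le (α * ∏ i, (w - z i)) (-t)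
      rw [norm_neg, sub_neg_eq_add] at h2
      exact h2
    nlinarith
  -- small values
  have hsmall : ∀ v : ℂ, ‖v‖ ≤ M + τ + 1 → V v + β * N ≤ -(η / 2) * N →
      ∀ w : ℂ, ‖w - v‖ ≤ h0 / 2 → ‖(C α * wr z + C t).eval w - t‖ ≤ a := by
    intro v hv hVv w hwv
    obtain ⟨g, hg, hvg⟩ := hS v hv
    have h1 : V g ≤ V v + η / 32 * N := hV _ _ (by linarith)
    have h2 := hG4 g hg (by linarith)
    rw [eval_add, eval_mul, eval_C, eval_C, add_sub_cancel_right, eval_wr, norm_mul, norm_prod]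
    have h3 : ∏ i, ‖w - z i‖ ≤ ∏ i, (‖g - z i‖ + h0) := by
      refine Finset.prod_le_prod (fun i _ => norm_nonneg _) fun i _ => ?_
      have : w - z i = (g - z i) + ((w - v) + (v - g)) := by ring
      rw [this]
      refine (norm_add_le _ _).trans ?_
      have h2 := norm_add_le (w - v) (v - g)
      linarith
    calc ‖α‖ * ∏ i, ‖w - z i‖ ≤ Real.exp ((β + ρ) * N) * Real.exp ((-β - η / 8) * N) := by
          have h4 := h3.trans h2
          have h5 : 0 ≤ ∏ i, ‖w - z i‖ := Finset.prod_nonneg fun i _ => norm_nonneg _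
          gcongr
      _ ≤ a := by
          rw [ha, ← Real.exp_add]
          refine Real.exp_le_exp.mpr ?_
          nlinarith
  rcases le_or_gt (η / 2 * N) (V c + β * N) with hca | hca
  · -- the critical value is large
    left
    have hfar := critical_far z c hσ hsep hc'
    have h1 := hbig c (σ / N) (by linarith) (by positivity) hfar hsm1 hca
    exact escape (f := fun w => (C α * wr z + C t).eval w) hR0 hdouble h1
  rcases le_or_gt (V c + β * N) (-(η / 2) * N) with hcb | hcb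
  · -- the critical value is close to `t`
    have h1 : ‖(C α * wr z + C t).eval c - t‖ ≤ a :=
      hsmall c (by linarith) hcb c (by rw [sub_self, norm_zero]; positivity)
    rcases le_or_gt 0 (V t + β * N) with hpos | hneg
    · left
      rw [abs_of_nonneg hpos] at htV
      set w : ℂ := (C α * wr z + C t).eval c with hw
      have hwn : ‖w‖ ≤ M + τ + 1 := by
        have h2 : ‖w‖ ≤ ‖w - t‖ + ‖t‖ := by
          have : w = (w - t) + t := by ring
          calc ‖w‖ = ‖(w - t) + t‖ := by rw [← this]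
            _ ≤ _ := norm_add_le _ _
        linarith
      have hVw : η / 2 * N ≤ V w + β * N := by
        have h3 : V t ≤ V w + η / 32 * N := hV _ _ (by linarith)
        linarith
      have hwz : ∀ i, Real.exp (-ρ * N) / 2 ≤ ‖w - z i‖ := by
        intro i
        have h3 := htz i
        have h4 : ‖t - z i‖ ≤ ‖w - z i‖ + ‖w - t‖ := by
          have : t - z i = (w - z i) - (w - t) := by ring
          rw [this]
          exact norm_sub_le _ _
        linarith
      have h5 := hbig w _ hwn (by positivity) hwz hsm2 hVw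
      have h6 := escape (f := fun w => (C α * wr z + C t).eval w) hR0 hdouble h5
      rw [← tendsto_add_atTop_iff_nat 1]
      exact h6
    · right
      rw [abs_of_neg hneg] at htV
      have hVt : V t + β * N ≤ -(η / 2) * N := by linarith
      obtain ⟨x, hx1, hx2, hx3⟩ := sink_at (F := C α * wr z + C t) (t := t) (r := h0 / 4) (a := a)
        (by positivity) (by linarith) (fun w hw =>
          hsmall t (by linarith) hVt w (by linarith))
      refine ⟨x, hx1, hx2, ?_⟩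
      have h7 := hx3 _ (h1.trans (by linarith) : ‖(C α * wr z + C t).eval c - t‖ ≤ h0 / 4)
      rw [← tendsto_add_atTop_iff_nat 1]
      exact h7
  · -- no critical point in the level region
    exfalso
    obtain ⟨g, hg, hcg⟩ := hS' c hcM
    have h1 : V g ≤ V c + η / 32 * N := hV _ _ (by linarith)
    have h2 : V c ≤ V g + η / 32 * N := hV _ _ (by rw [norm_sub_rev]; linarith)
    obtain ⟨h3, h4⟩ := hG5 g hg (by rw [abs_le]; constructor <;> linarith)
    have hcz : ∀ i, η / 2 ≤ ‖c - z i‖ := by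
      intro i
      have h5 := h3 i
      have h6 : ‖g - z i‖ ≤ ‖c - z i‖ + ‖c - g‖ := by
        have : g - z i = (c - z i) - (c - g) := by ring
        rw [this]
        exact norm_sub_le _ _
      linarith
    have hcz0 : ∀ i, c - z i ≠ 0 := by
      intro i h0
      have := hcz i
      rw [h0, norm_zero] at this
      linarith
    have hgz0 : ∀ i, g - z i ≠ 0 := by
      intro i h0
      have := h3 i
      rw [h0, norm_zero] at this
      linarith
    have hdiff : ‖(∑ i, (g - z i)⁻¹) - ∑ i, (c - z i)⁻¹‖ ≤ η / 4 * N := by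
      rw [← Finset.sum_sub_distrib]
      calc ‖∑ i, ((g - z i)⁻¹ - (c - z i)⁻¹)‖ ≤ ∑ i, ‖(g - z i)⁻¹ - (c - z i)⁻¹‖ :=
            norm_sum_le _ _
        _ ≤ ∑ _i : Fin N, η / 4 := by
            refine Finset.sum_le_sum fun i _ => ?_
            have e1 : (g - z i)⁻¹ - (c - z i)⁻¹ = (c - g) * ((g - z i)⁻¹ * (c - z i)⁻¹) := by
              have := hcz0 i
              have := hgz0 i
              field_simp
              ring
            rw [e1, norm_mul, norm_mul, norm_inv, norm_inv]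
            have e2 : ‖g - z i‖⁻¹ ≤ η⁻¹ := inv_anti₀ hη (h3 i)
            have e3 : ‖c - z i‖⁻¹ ≤ (η / 2)⁻¹ := inv_anti₀ (by positivity) (hcz i)
            calc ‖c - g‖ * (‖g - z i‖⁻¹ * ‖c - z i‖⁻¹) ≤ (h0 / 2) * (η⁻¹ * (η / 2)⁻¹) := by
                  gcongr
              _ = h0 / η ^ 2 := by field_simp
              _ ≤ (η ^ 3 / 4) / η ^ 2 := by gcongr
              _ = η / 4 := by field_simp
        _ = η / 4 * N := by
            rw [Finset.sum_const, Finset.card_univ, Fintype.card_fin, nsmul_eq_mul]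
            ring
    have hne : ∑ i, (c - z i)⁻¹ ≠ 0 := by
      intro h0
      rw [h0, sub_zero] at hdiff
      linarith
    exact derivative_ne_zero z c hcz0 hne hc'

end Pool.Agent.H363Roots
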