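import Mathlib
import Pool.Agent.H363Roots.Cauchy
import Pool.Agent.H363Roots.LevelDet

/-!
# A noncritical level of the mean potential: probabilities
-/

set_option autoImplicit false

open MeasureTheory ProbabilityTheory Filter Topology Polynomial

namespace Pool.Agent.H363Roots

/-- The conclusion for given roots `z i` and mean potential `V`. -/
def Good3 (N : ℕ) (V : ℂ → ℝ) (β η ρ τ : ℝ) (z : Fin N → ℂ) : Prop :=
  ∀ α t : ℂ, Real.exp ((β - ρ) * N) ≤ ‖α‖ → ‖α‖ ≤ Real.exp ((β + ρ) * N) → ‖t‖ ≤ τ →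
    η * N ≤ |V t + β * N| → (∀ i, Real.exp (-ρ * N) ≤ ‖t - z i‖) →
    ∀ c : ℂ, (derivative (C α * wr z + C t)).eval c = 0 →
      Tendsto (fun k : ℕ => ‖(fun w => (C α * wr z + C t).eval w)^[k] c‖) atTop atTop ∨
      ∃ x : ℂ, (C α * wr z + C t).eval x = x ∧ ‖(derivative (C α * wr z + C t)).eval x‖ < 1 ∧
        Tendsto (fun k : ℕ => (fun w => (C α * wr z + C t).eval w)^[k] c) atTop (𝓝 x)

section

variable {Ω : Type*} [MeasurableSpace Ω] {P : Measure Ω}

theorem prob_level [IsProbabilityMeasure P] {N : ℕ} {Z : Fin N → Ω → ℂ}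
    (hZ : ∀ i, Measurable (Z i)) (hind : iIndepFun Z P) (V : ℂ → ℝ)
    (hVdef : ∀ z, V z = ∑ i, ∫ ω, Real.log ‖z - Z i ω‖ ∂P)
    {M τ s B B' Q u σ h h0 β η ρ a R : ℝ} {L : ℕ}
    (S S' : Finset ℂ) (hN : 2 ≤ N) (hM0 : 0 ≤ M) (hτ : 0 ≤ τ) (hs : 0 < s) (hs2 : s ≤ 2)
    (hB0 : 0 ≤ B) (hη : 0 < η) (hσ : 0 < σ)
    (hh : 0 < h) (hh0 : 0 < h0) (hh01 : h0 ≤ 1) (hhh : h ≤ h0)
    (hL : (M + τ + 1) / h + 1 ≤ L) (hLM : h * L ≤ M + τ + 3)
    (hM : ∀ i, ∀ᵐ ω ∂P, ‖Z i ω‖ ≤ M)
    (hB : ∀ (i : Fin N) (z : ℂ) (r : ℝ), 0 < r →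
      P {ω | ‖Z i ω - z‖ ≤ r} ≤ ENNReal.ofReal (B * r ^ s))
    (hB' : B' = 1 + B * (2 : ℝ) ^ (s / 2) / (1 - ((2 : ℝ) ^ (s / 2))⁻¹))
    (hQ : Q = 8 / (s / 2) ^ 2 * (B' + (3 * M + 2 * τ + 6) ^ (s / 2)))
    (hu : 0 < u) (hus : u ≤ s / 4) (huQ : u * Q ≤ η / 32)
    (hhB : h0 ^ (s / 2) * B' / (s / 2) ≤ η / 32)
    (hlev : ∀ z : ℂ, ‖z‖ ≤ M → |V z + β * N| ≤ η * N →
      (∀ i, ∀ᵐ ω ∂P, η ≤ ‖z - Z i ω‖) ∧ η * N ≤ ‖∑ i, ∫ ω, (z - Z i ω)⁻¹ ∂P‖)
    (hS : ∀ w : ℂ, ‖w‖ ≤ M + τ + 1 → ∃ g ∈ S, ‖w - g‖ ≤ h0 / 2)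
    (hSn : ∀ g ∈ S, ‖g‖ ≤ M + τ + 1)
    (hS' : ∀ w : ℂ, ‖w‖ ≤ M → ∃ g ∈ S', ‖w - g‖ ≤ h0 / 2)
    (hSn' : ∀ g ∈ S', ‖g‖ ≤ M)
    (hh0η : h0 ≤ η) (hh0η3 : h0 ≤ η ^ 3 / 4) (hρ : ρ ≤ η / 32)
    (hsm1 : (1 + h / (σ / N)) ^ N ≤ Real.exp (η / 32 * N))
    (hsm2 : (1 + h / (Real.exp (-ρ * N) / 2)) ^ N ≤ Real.exp (η / 32 * N))
    (ha : a = Real.exp (-(η / 16) * N)) (haρ : a ≤ Real.exp (-ρ * N) / 2) (hah : a ≤ h0 / 8)
    (ha1 : a ≤ 1)
    (hR : R = Real.exp (η / 32 * N)) (hR2 : 2 ≤ R) (hRτ : τ ≤ R) (hRM : 2 * M ≤ R)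
    (hR1 : 1 ≤ Real.exp (β - ρ) / 2 * R) (hR3 : 3 ≤ (Real.exp (β - ρ) / 2) ^ 2 * R) :
    P {ω | ¬ Good3 N V β η ρ τ (fun i => Z i ω)} ≤
      ENNReal.ofReal (((2 * L + 1) ^ 2 * Real.exp (-(u * η / 16) * N) + N ^ 2 * (B * σ ^ s)) +
        (S.card * Real.exp (-(u * η / 16) * N) +
          S'.card * (4 * Real.exp (-(η ^ 4 / 128) * N)))) := by
  have hBr : ∀ (i : Fin N) (z : ℂ) (r : ℝ), 0 < r →
      P {ω | ‖z - Z i ω‖ ≤ r} ≤ ENNReal.ofReal (B * r ^ s) := by
    intro i z r hr
    refine le_trans (measure_mono ?_) (hB i z r hr)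
    intro ω hω
    have h3 : ‖z - Z i ω‖ ≤ r := hω
    show ‖Z i ω - z‖ ≤ r
    rwa [norm_sub_rev]
  have hV : ∀ v w : ℂ, ‖v - w‖ ≤ h0 → V w ≤ V v + η / 32 * N := by
    intro v w hvw
    rw [hVdef, hVdef]
    calc ∑ i, ∫ ω, Real.log ‖w - Z i ω‖ ∂P ≤
        ∑ i, ((∫ ω, Real.log ‖v - Z i ω‖ ∂P) + η / 32) := by
          refine Finset.sum_le_sum fun i _ => ?_
          have := holder (hZ i) hs hs2 hB0 (hBr i) hB' v w hh0 hvw (hM i)
          linarith
      _ = _ := by
          rw [Finset.sum_add_distrib, Finset.sum_const, Finset.card_univ, Fintype.card_fin,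
            nsmul_eq_mul]
          ring
  have hN1 : 1 ≤ N := by omega
  have hN0 : (0 : ℝ) < N := by exact_mod_cast hN1
  set G : Finset (ℤ × ℤ) := Finset.Icc (-(L : ℤ)) L ×ˢ Finset.Icc (-(L : ℤ)) L with hG
  set D : Finset (Fin N × Fin N) := Finset.univ.filter fun p => p.1 ≠ p.2 with hD
  have hMall : ∀ᵐ ω ∂P, ∀ i, ‖Z i ω‖ ≤ M := by
    rw [ae_all_iff]
    exact hM
  set E3 : Set Ω := ⋃ p ∈ G, {ω | ¬ (η / 4 * N ≤ V (gridPt h p) + β * N →
    Real.exp ((-β + η / 8) * N) ≤ ∏ i, ‖gridPt h p - Z i ω‖)} with hE3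
  set E2 : Set Ω := ⋃ p ∈ D, {ω | ‖Z p.1 ω - Z p.2 ω‖ ≤ σ} with hE2
  set E4 : Set Ω := ⋃ g ∈ S, {ω | ¬ (V g + β * N ≤ -(η / 4) * N →
    ∏ i, (‖g - Z i ω‖ + h0) ≤ Real.exp ((-β - η / 8) * N))} with hE4
  set E5 : Set Ω := ⋃ g ∈ S', {ω | ¬ (|V g + β * N| ≤ η * N → (∀ i, η ≤ ‖g - Z i ω‖) ∧
    3 * η / 4 * N ≤ ‖∑ i, (g - Z i ω)⁻¹‖)} with hE5
  have hsub : P {ω | ¬ Good3 N V β η ρ τ (fun i => Z i ω)} ≤ P ((E3 ∪ E2) ∪ (E4 ∪ E5)) := by
    refine measure_mono_ae ?_
    filter_upwards [hMall] with ω hω hbad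
    by_contra hcon
    have hcon' : ω ∉ ((E3 ∪ E2) ∪ (E4 ∪ E5)) := hcon
    rw [Set.mem_union, Set.mem_union, Set.mem_union, not_or, not_or, not_or] at hcon'
    obtain ⟨⟨hc3, hc2⟩, hc4, hc5⟩ := hcon'
    apply hbad
    intro α t hα hα' ht htV htz c hc
    refine level_det (fun i => Z i ω) V (S : Set ℂ) (S' : Set ℂ) hN hM0 hτ hη hσ hh hh0 hhh hL hω
      ?_ hV ?_ hS ?_ hS' ?_ hh0η hh0η3 hρ hsm1 hsm2 ha haρ hah ha1 hR hR2 hRτ hRM hR1 hR3 α t
      hα hα' ht htV htz c hc
    · intro i j hij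
      by_contra hle
      apply hc2
      rw [hE2, Set.mem_iUnion₂]
      refine ⟨(i, j), ?_, ?_⟩
      · rw [hD, Finset.mem_filter]
        exact ⟨Finset.mem_univ _, hij⟩
      · exact not_lt.mp hle
    · intro p hp
      by_contra hle
      apply hc3
      rw [hE3, Set.mem_iUnion₂]
      exact ⟨p, hp, hle⟩
    · intro g hg
      by_contra hle
      apply hc4
      rw [hE4, Set.mem_iUnion₂]
      exact ⟨g, hg, hle⟩
    · intro g hg
      by_contra hle
      apply hc5
      rw [hE5, Set.mem_iUnion₂]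
      exact ⟨g, hg, hle⟩
  refine hsub.trans ((measure_union_le _ _).trans ?_)
  rw [ENNReal.ofReal_add (by positivity) (by positivity)]
  refine add_le_add ((measure_union_le _ _).trans ?_) ((measure_union_le _ _).trans ?_)
  · rw [ENNReal.ofReal_add (by positivity) (by positivity)]
    refine add_le_add ?_ ?_
    · refine (measure_biUnion_finset_le _ _).trans ?_
      calc ∑ p ∈ G, P {ω | ¬ (η / 4 * N ≤ V (gridPt h p) + β * N →
            Real.exp ((-β + η / 8) * N) ≤ ∏ i, ‖gridPt h p - Z i ω‖)} ≤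
          ∑ _p ∈ G, ENNReal.ofReal (Real.exp (-(u * η / 16) * N)) := by
            refine Finset.sum_le_sum fun p hp => ?_
            by_cases hcond : η / 4 * N ≤ V (gridPt h p) + β * N
            · have h1 := seldom_small hZ hind (A := 3 * M + 2 * τ + 6) (C := Q) (u := u)
                (lam := β - η / 4) (δ := η / 2) hs hB0 hBr
                (by rw [hQ, hB']) hu hus (by linarith) (gridPt h p) (by
                  intro i
                  filter_upwards [hM i] with ω hω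
                  have h1 := norm_gridPt_le hh hp
                  have h2 := norm_sub_le (gridPt h p) (Z i ω)
                  linarith) (by rw [← hVdef]; linarith)
              have e1 : (-(β - η / 4 + η / 2 / 4)) * (N : ℝ) ≥ (-β + η / 8) * N := by
                have : (-(β - η / 4 + η / 2 / 4)) = -β + η / 8 := by ring
                rw [this]
              have e2 : -(u * (η / 2) / 8) * (N : ℝ) = -(u * η / 16) * N := by ring
              rw [e2] at h1
              refine le_trans (measure_mono ?_) h1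
              intro ω hω hle
              apply hω
              intro _
              exact (Real.exp_le_exp.mpr e1).trans hle
            · have h1 : {ω : Ω | ¬ (η / 4 * N ≤ V (gridPt h p) + β * N →
                  Real.exp ((-β + η / 8) * N) ≤ ∏ i, ‖gridPt h p - Z i ω‖)} = ∅ := by
                rw [Set.eq_empty_iff_forall_notMem]
                intro ω hω
                exact hω fun h2 => absurd h2 hcond
              rw [h1, measure_empty]
              exact zero_le
        _ = ENNReal.ofReal ((2 * L + 1) ^ 2 * Real.exp (-(u * η / 16) * N)) := by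
            rw [Finset.sum_const, hG, Finset.card_product, Int.card_Icc, nsmul_eq_mul,
              ENNReal.ofReal_mul (by positivity)]
            congr 1
            have h3 : ((L : ℤ) + 1 - -(L : ℤ)).toNat = 2 * L + 1 := by omega
            rw [h3]
            have h4 : ((2 * (L : ℝ) + 1) ^ 2) = (((2 * L + 1) * (2 * L + 1) : ℕ) : ℝ) := by
              push_cast
              ring
            rw [h4, ENNReal.ofReal_natCast]
    · refine (measure_biUnion_finset_le _ _).trans ?_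
      calc ∑ p ∈ D, P {ω | ‖Z p.1 ω - Z p.2 ω‖ ≤ σ} ≤
          ∑ _p ∈ D, ENNReal.ofReal (B * σ ^ s) := by
            refine Finset.sum_le_sum fun p hp => ?_
            rw [hD, Finset.mem_filter] at hp
            exact pair_close (hZ _) (hZ _) (hind.indepFun hp.2) fun z => hB p.2 z σ hσ
        _ ≤ ENNReal.ofReal (N ^ 2 * (B * σ ^ s)) := by
            rw [Finset.sum_const, nsmul_eq_mul, ENNReal.ofReal_mul (p := (N : ℝ) ^ 2)
              (by positivity)]
            refine mul_le_mul' ?_ le_rfl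
            have h5 : D.card ≤ N ^ 2 := by
              refine (Finset.card_filter_le _ _).trans ?_
              rw [Finset.card_univ, Fintype.card_prod, Fintype.card_fin, sq]
            have h6 : ((N : ℝ) ^ 2) = ((N ^ 2 : ℕ) : ℝ) := by push_cast; rfl
            rw [h6, ENNReal.ofReal_natCast]
            exact_mod_cast h5
  · rw [ENNReal.ofReal_add (by positivity) (by positivity)]
    refine add_le_add ?_ ?_
    · refine (measure_biUnion_finset_le _ _).trans ?_
      calc ∑ g ∈ S, P {ω | ¬ (V g + β * N ≤ -(η / 4) * N →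
            ∏ i, (‖g - Z i ω‖ + h0) ≤ Real.exp ((-β - η / 8) * N))} ≤
          ∑ _g ∈ S, ENNReal.ofReal (Real.exp (-(u * η / 16) * N)) := by
            refine Finset.sum_le_sum fun g hg => ?_
            by_cases hcond : V g + β * N ≤ -(η / 4) * N
            · have h1 := seldom_large hZ hind (A := 3 * M + 2 * τ + 6) (Q := Q) (B' := B')
                (u := u) (lam := β + η / 4) (δ := η / 4) (h := h0) hs hs2 hB0 hh0 hBr hB'
                hQ hu hus (by linarith) (by linarith) g (by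
                  intro i
                  filter_upwards [hM i] with ω hω
                  have h1 := hSn g hg
                  have h2 := norm_sub_le g (Z i ω)
                  linarith) (by rw [← hVdef]; linarith)
              have e1 : (-(β + η / 4) + η / 4 / 2) * (N : ℝ) ≤ (-β - η / 8) * N := by
                have : (-(β + η / 4) + η / 4 / 2) = -β - η / 8 := by ring
                rw [this]
              have e2 : -(u * (η / 4) / 4) * (N : ℝ) = -(u * η / 16) * N := by ring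
              rw [e2] at h1
              refine le_trans (measure_mono ?_) h1
              intro ω hω hle
              apply hω
              intro _
              exact hle.trans (Real.exp_le_exp.mpr e1)
            · have h1 : {ω : Ω | ¬ (V g + β * N ≤ -(η / 4) * N →
                  ∏ i, (‖g - Z i ω‖ + h0) ≤ Real.exp ((-β - η / 8) * N))} = ∅ := by
                rw [Set.eq_empty_iff_forall_notMem]
                intro ω hω
                exact hω fun h2 => absurd h2 hcond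
              rw [h1, measure_empty]
              exact zero_le
        _ = ENNReal.ofReal (S.card * Real.exp (-(u * η / 16) * N)) := by
            rw [Finset.sum_const, nsmul_eq_mul, ENNReal.ofReal_mul (by positivity),
              ENNReal.ofReal_natCast]
    · refine (measure_biUnion_finset_le _ _).trans ?_
      calc ∑ g ∈ S', P {ω | ¬ (|V g + β * N| ≤ η * N → (∀ i, η ≤ ‖g - Z i ω‖) ∧
            3 * η / 4 * N ≤ ‖∑ i, (g - Z i ω)⁻¹‖)} ≤
          ∑ _g ∈ S', ENNReal.ofReal (4 * Real.exp (-(η ^ 4 / 128) * N)) := by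
            refine Finset.sum_le_sum fun g hg => ?_
            by_cases hcond : |V g + β * N| ≤ η * N
            · obtain ⟨h1, h2⟩ := hlev g (hSn' g hg) hcond
              refine le_trans (measure_mono_ae ?_) (cauchy_conc hN1 hZ hind hη g h1)
              have h1all : ∀ᵐ ω ∂P, ∀ i, η ≤ ‖g - Z i ω‖ := by
                rw [ae_all_iff]
                exact h1
              filter_upwards [h1all] with ω hω hbad
              intro hle
              have hle' : ‖(∑ i, (g - Z i ω)⁻¹) - ∑ i, ∫ ω, (g - Z i ω)⁻¹ ∂P‖ ≤ η / 4 * N := hle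
              apply hbad
              intro _
              refine ⟨hω, ?_⟩
              have h3 := norm_sub_norm_le (∑ i, ∫ ω, (g - Z i ω)⁻¹ ∂P) (∑ i, (g - Z i ω)⁻¹)
              rw [norm_sub_rev] at h3
              linarith
            · have h1 : {ω : Ω | ¬ (|V g + β * N| ≤ η * N → (∀ i, η ≤ ‖g - Z i ω‖) ∧
                  3 * η / 4 * N ≤ ‖∑ i, (g - Z i ω)⁻¹‖)} = ∅ := by
                rw [Set.eq_empty_iff_forall_notMem]
                intro ω hω
                exact hω fun h2 => absurd h2 hcond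
              rw [h1, measure_empty]
              exact zero_le
        _ = ENNReal.ofReal (S'.card * (4 * Real.exp (-(η ^ 4 / 128) * N))) := by
            rw [Finset.sum_const, nsmul_eq_mul, ENNReal.ofReal_mul (p := (S'.card : ℝ))
              (by positivity), ENNReal.ofReal_natCast]

end

end Pool.Agent.H363Roots
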