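import Mathlib
import Pool.Agent.H363Roots.Prob

/-!
# The exponential bound
-/

set_option autoImplicit false

open MeasureTheory ProbabilityTheory Filter Topology Polynomial

namespace Pool.Agent.H363Roots

/-- All the critical points of all the polynomials `α T + t` with `|α| ≥ e ^ (a N)` and
`|t| ≤ e ^ (b N)` escape. -/
def Good (N : ℕ) (a b : ℝ) (T : ℂ[X]) : Prop :=
  ∀ α t : ℂ, Real.exp (a * N) ≤ ‖α‖ → ‖t‖ ≤ Real.exp (b * N) →
    ∀ c : ℂ, (derivative (C α * T + C t)).eval c = 0 →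
      Tendsto (fun k : ℕ => ‖(fun w => (C α * T + C t).eval w)^[k] c‖) atTop atTop

theorem ev_exp {a b : ℝ} (ha : 0 < a) : ∀ᶠ N : ℕ in atTop, b ≤ Real.exp (a * N) := by
  have h1 : Tendsto (fun N : ℕ => Real.exp (a * N)) atTop atTop :=
    Real.tendsto_exp_atTop.comp (tendsto_natCast_atTop_atTop.const_mul_atTop ha)
  exact h1.eventually_ge_atTop b

theorem ev_small {ε δ : ℝ} (hε : 0 < ε) (hδ : 0 < δ) :
    ∀ᶠ N : ℕ in atTop, (N : ℝ) * Real.exp (-(ε * N)) ≤ δ := by
  have h1 : Tendsto (fun x : ℝ => x ^ 1 * Real.exp (-x)) atTop (𝓝 0) :=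
    Real.tendsto_pow_mul_exp_neg_atTop_nhds_zero 1
  have h2 : Tendsto (fun N : ℕ => ε * (N : ℝ)) atTop atTop :=
    tendsto_natCast_atTop_atTop.const_mul_atTop hε
  have h3 := (h1.comp h2).eventually_le_const (by positivity : 0 < ε * δ)
  filter_upwards [h3] with N hN
  simp only [Function.comp_apply, pow_one] at hN
  have : ε * ((N : ℝ) * Real.exp (-(ε * N))) ≤ ε * δ := by
    calc ε * ((N : ℝ) * Real.exp (-(ε * N))) = ε * N * Real.exp (-(ε * N)) := by ring
      _ ≤ ε * δ := hN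
  exact le_of_mul_le_mul_left this hε

theorem mainA0 (M s B lam δ : ℝ) (hM0 : 0 ≤ M) (hB0 : 0 ≤ B) (hs : 0 < s) (hδ : 0 < δ) :
    ∃ K θ : ℝ, 0 < K ∧ 0 < θ ∧ θ < 1 ∧
      ∀ (Ω : Type) [MeasurableSpace Ω] (P : Measure Ω) [IsProbabilityMeasure P] (N : ℕ)
        (Z : Fin N → Ω → ℂ), (∀ i, Measurable (Z i)) → iIndepFun Z P →
        (∀ i, ∀ᵐ ω ∂P, ‖Z i ω‖ ≤ M) →
        (∀ (i : Fin N) (z : ℂ) (r : ℝ), 0 < r →
          P {ω | ‖Z i ω - z‖ ≤ r} ≤ ENNReal.ofReal (B * r ^ s)) →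
        (∀ z : ℂ, -lam * N ≤ ∑ i, ∫ ω, Real.log ‖z - Z i ω‖ ∂P) →
        P {ω | ¬ Good N (lam + δ) (δ / 4) (wr fun i => Z i ω)} ≤
          ENNReal.ofReal (K * θ ^ N) := by
  set Q : ℝ := 8 / (s / 2) ^ 2 * ((1 + B * (2 : ℝ) ^ (s / 2) / (1 - ((2 : ℝ) ^ (s / 2))⁻¹)) +
      (3 * M + 4) ^ (s / 2)) with hQ
  have hQ0 : 0 < Q := by
    have h2q : 1 < (2 : ℝ) ^ (s / 2) := Real.one_lt_rpow (by norm_num) (by positivity)
    have h1 : ((2 : ℝ) ^ (s / 2))⁻¹ < 1 := inv_lt_one_of_one_lt₀ h2q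
    have h2 : 0 < 1 - ((2 : ℝ) ^ (s / 2))⁻¹ := by linarith
    positivity
  set u : ℝ := min (s / 4) (δ / (8 * Q)) with hu
  have hu0 : 0 < u := lt_min (by positivity) (by positivity)
  have hus : u ≤ s / 4 := min_le_left _ _
  have huQ : u * Q ≤ δ / 8 := by
    calc u * Q ≤ δ / (8 * Q) * Q := by gcongr; exact min_le_right _ _
      _ = δ / 8 := by field_simp
  set ε : ℝ := u * δ / 64 with hε
  have hε0 : 0 < ε := by positivity
  set κ : ℝ := Real.exp (lam + δ) / 2 with hκ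
  have hκ0 : 0 < κ := by positivity
  have hev : ∀ᶠ N : ℕ in atTop, 2 ≤ N ∧ (N : ℝ) * Real.exp (-(ε * N)) ≤ δ / 4 ∧
      2 ≤ Real.exp (δ / 4 * N) ∧ 2 * M ≤ Real.exp (δ / 4 * N) ∧
      1 / κ ≤ Real.exp (δ / 4 * N) ∧ 3 / κ ^ 2 ≤ Real.exp (δ / 4 * N) := by
    filter_upwards [eventually_ge_atTop 2, ev_small hε0 (by positivity : 0 < δ / 4),
      ev_exp (by positivity : 0 < δ / 4), ev_exp (b := 2 * M) (by positivity : 0 < δ / 4),
      ev_exp (b := 1 / κ) (by positivity : 0 < δ / 4),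
      ev_exp (b := 3 / κ ^ 2) (by positivity : 0 < δ / 4)] with N h1 h2 h3 h4 h5 h6
    exact ⟨h1, h2, h3, h4, h5, h6⟩
  obtain ⟨N0, hN0⟩ := eventually_atTop.mp hev
  set θ : ℝ := max (Real.exp (-(u * δ / 16))) (Real.exp (-(ε * s / 2))) with hθ
  have hθ0 : 0 < θ := lt_max_of_lt_left (Real.exp_pos _)
  have hθ1 : θ < 1 := by
    refine max_lt ?_ ?_
    · rw [Real.exp_lt_one_iff]
      have : 0 < u * δ / 16 := by positivity
      linarith
    · rw [Real.exp_lt_one_iff]
      have : 0 < ε * s / 2 := by positivity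
      linarith
  refine ⟨(2 * M + 5) ^ 2 + 8 * B / (ε * s) ^ 2 + (θ⁻¹) ^ N0, θ, by positivity, hθ0, hθ1, ?_⟩
  intro Ω _ P _ N Z hZ hind hM hB hpot
  rcases lt_or_ge N N0 with hlt | hge
  · calc P {ω | ¬ Good N (lam + δ) (δ / 4) (wr fun i => Z i ω)} ≤ 1 := prob_le_one
      _ = ENNReal.ofReal 1 := ENNReal.ofReal_one.symm
      _ ≤ _ := by
        refine ENNReal.ofReal_le_ofReal ?_
        have h1 : 1 ≤ (θ⁻¹) ^ N0 * θ ^ N := by
          rw [inv_pow]
          rw [inv_mul_eq_div, le_div_iff₀ (by positivity), one_mul]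
          exact pow_le_pow_of_le_one hθ0.le hθ1.le hlt.le
        have h2 : 0 ≤ ((2 * M + 5) ^ 2 + 8 * B / (ε * s) ^ 2) * θ ^ N := by positivity
        rw [add_mul]
        linarith
  · obtain ⟨hN2, hsm, hR2, hRM, hR1, hR3⟩ := hN0 N hge
    have hNpos : (0 : ℝ) < N := by
      have : 0 < N := by omega
      exact_mod_cast this
    set σ : ℝ := Real.exp (-(ε * N)) with hσ
    set h : ℝ := Real.exp (-(2 * ε * N)) with hh
    have hσ0 : 0 < σ := Real.exp_pos _
    have hh0 : 0 < h := Real.exp_pos _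
    have hh1 : h ≤ 1 := by
      rw [hh, Real.exp_le_one_iff]
      have : 0 ≤ 2 * ε * N := by positivity
      linarith
    set L : ℕ := ⌈M / h⌉₊ + 1 with hL
    have hL1 : M / h + 1 ≤ L := by
      rw [hL]
      push_cast
      linarith [Nat.le_ceil (M / h)]
    have hL2 : (L : ℝ) ≤ M / h + 2 := by
      rw [hL]
      push_cast
      linarith [Nat.ceil_lt_add_one (by positivity : 0 ≤ M / h)]
    have hL3 : h * L ≤ M + 2 := by
      calc h * L ≤ h * (M / h + 2) := by gcongr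
        _ = M + 2 * h := by field_simp
        _ ≤ M + 2 := by linarith
    have hsmall : (1 + h / (σ / N)) ^ N ≤ Real.exp (δ / 4 * N) := by
      have e1 : h / (σ / N) = N * Real.exp (-(ε * N)) := by
        have : h = σ * σ := by
          rw [hh, hσ, ← Real.exp_add]
          congr 1
          ring
        rw [this, ← hσ]
        field_simp
      rw [e1]
      calc (1 + N * Real.exp (-(ε * N))) ^ N ≤ (1 + δ / 4) ^ N := by gcongr
        _ ≤ (Real.exp (δ / 4)) ^ N := by
          have := Real.add_one_le_exp (δ / 4)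
          gcongr
          linarith
        _ = Real.exp (δ / 4 * N) := by rw [← Real.exp_nat_mul, mul_comm]
    have hR1' : 1 ≤ κ * Real.exp (δ / 4 * N) := by
      rw [div_le_iff₀ hκ0] at hR1
      linarith
    have hR3' : 3 ≤ κ ^ 2 * Real.exp (δ / 4 * N) := by
      rw [div_le_iff₀ (by positivity)] at hR3
      linarith
    have hfin := prob_escape hZ hind hN2 hM0 hs hB0 hσ0 hh0 hL1 hL3 hM hB hQ hu0 hus huQ hpot
      hsmall hR2 hRM hR1' hR3'
    refine hfin.trans (ENNReal.ofReal_le_ofReal ?_)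
    have f1 : (2 * (L : ℝ) + 1) ^ 2 * Real.exp (-(u * δ / 8) * N) ≤ (2 * M + 5) ^ 2 * θ ^ N := by
      have g1 : 2 * (L : ℝ) + 1 ≤ (2 * M + 5) / h := by
        rw [le_div_iff₀ hh0]
        calc (2 * (L : ℝ) + 1) * h ≤ (2 * (M / h + 2) + 1) * h := by gcongr
          _ = 2 * M + 5 * h := by field_simp; ring
          _ ≤ 2 * M + 5 := by linarith
      calc (2 * (L : ℝ) + 1) ^ 2 * Real.exp (-(u * δ / 8) * N) ≤
          ((2 * M + 5) / h) ^ 2 * Real.exp (-(u * δ / 8) * N) := by gcongr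
        _ = (2 * M + 5) ^ 2 * (Real.exp (-(u * δ / 16))) ^ N := by
          have g6 : h ^ 2 = Real.exp (-(4 * ε * N)) := by
            rw [hh, sq, ← Real.exp_add]
            congr 1
            ring
          have g7 : Real.exp (-(u * δ / 8) * N) = Real.exp (-(4 * ε * N)) *
              Real.exp (N * -(u * δ / 16)) := by
            rw [← Real.exp_add, hε]
            congr 1
            ring
          rw [div_pow, g6, g7, ← Real.exp_nat_mul]
          have g8 : 0 < Real.exp (-(4 * ε * N)) := Real.exp_pos _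
          field_simp
        _ ≤ (2 * M + 5) ^ 2 * θ ^ N := by
          gcongr
          exact le_max_left _ _
    have f2 : (N : ℝ) ^ 2 * (B * σ ^ s) ≤ 8 * B / (ε * s) ^ 2 * θ ^ N := by
      have g1 : (N : ℝ) ^ 2 ≤ 8 / (ε * s) ^ 2 * Real.exp (ε * s / 2 * N) := by
        have g2 := Real.quadratic_le_exp_of_nonneg (by positivity : 0 ≤ ε * s / 2 * N)
        have g3 : (ε * s / 2 * N) ^ 2 / 2 ≤ Real.exp (ε * s / 2 * N) := by
          have : 0 ≤ ε * s / 2 * N := by positivity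
          linarith
        calc (N : ℝ) ^ 2 = 8 / (ε * s) ^ 2 * ((ε * s / 2 * N) ^ 2 / 2) := by
              field_simp
              ring
          _ ≤ _ := by gcongr
      have g4 : σ ^ s = Real.exp (-(ε * s * N)) := by
        rw [hσ, ← Real.exp_mul]
        congr 1
        ring
      calc (N : ℝ) ^ 2 * (B * σ ^ s) ≤
          8 / (ε * s) ^ 2 * Real.exp (ε * s / 2 * N) * (B * Real.exp (-(ε * s * N))) := by
            rw [g4]
            gcongr
        _ = 8 * B / (ε * s) ^ 2 * (Real.exp (-(ε * s / 2))) ^ N := by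
            rw [← Real.exp_nat_mul]
            have g5 : Real.exp (ε * s / 2 * N) * Real.exp (-(ε * s * N)) =
                Real.exp (N * -(ε * s / 2)) := by
              rw [← Real.exp_add]
              congr 1
              ring
            rw [← g5]
            ring
        _ ≤ _ := by
            gcongr
            exact le_max_right _ _
    have f3 : 0 ≤ (θ⁻¹) ^ N0 * θ ^ N := by positivity
    rw [add_mul, add_mul]
    linarith

end Pool.Agent.H363Roots
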