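import Mathlib
import Pool.Agent.H363Roots.Attr
import Pool.Agent.H363Roots.MainA

/-!
# The exponential bound in the attracting regime
-/

set_option autoImplicit false

open MeasureTheory ProbabilityTheory Filter Topology Polynomial

namespace Pool.Agent.H363Roots

/-- Every polynomial `α T + t` with `0 < |α| ≤ e ^ (a N)` and `|t| ≤ m` has an attracting fixed
point which attracts all its critical points. -/
def Good2 (N : ℕ) (a m : ℝ) (T : ℂ[X]) : Prop :=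
  ∀ α t : ℂ, α ≠ 0 → ‖α‖ ≤ Real.exp (a * N) → ‖t‖ ≤ m →
    ∃ x : ℂ, (C α * T + C t).eval x = x ∧ ‖(derivative (C α * T + C t)).eval x‖ < 1 ∧
      ∀ c : ℂ, (derivative (C α * T + C t)).eval c = 0 →
        Tendsto (fun k : ℕ => (fun w => (C α * T + C t).eval w)^[k] c) atTop (𝓝 x)

theorem mainB0 (M s B lam δ : ℝ) (hM0 : 0 ≤ M) (hB0 : 0 ≤ B) (hs : 0 < s) (hs2 : s ≤ 2)
    (hδ : 0 < δ) :
    ∃ K θ : ℝ, 0 < K ∧ 0 < θ ∧ θ < 1 ∧
      ∀ (Ω : Type) [MeasurableSpace Ω] (P : Measure Ω) [IsProbabilityMeasure P] (N : ℕ)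
        (Z : Fin N → Ω → ℂ), (∀ i, Measurable (Z i)) → iIndepFun Z P →
        (∀ i, ∀ᵐ ω ∂P, ‖Z i ω‖ ≤ M) →
        (∀ (i : Fin N) (z : ℂ) (r : ℝ), 0 < r →
          P {ω | ‖Z i ω - z‖ ≤ r} ≤ ENNReal.ofReal (B * r ^ s)) →
        (∀ z : ℂ, ‖z‖ ≤ M → ∑ i, ∫ ω, Real.log ‖z - Z i ω‖ ∂P ≤ -lam * N) →
        P {ω | ¬ Good2 N (lam - δ) (M - δ) (wr fun i => Z i ω)} ≤
          ENNReal.ofReal (K * θ ^ N) := by
  set B' : ℝ := 1 + B * (2 : ℝ) ^ (s / 2) / (1 - ((2 : ℝ) ^ (s / 2))⁻¹) with hB'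
  set Q : ℝ := 8 / (s / 2) ^ 2 * (B' + (2 * M + 1) ^ (s / 2)) with hQ
  have hB'0 : 0 < B' := by
    have h2q : 1 < (2 : ℝ) ^ (s / 2) := Real.one_lt_rpow (by norm_num) (by positivity)
    have h1 : ((2 : ℝ) ^ (s / 2))⁻¹ < 1 := inv_lt_one_of_one_lt₀ h2q
    have h2 : 0 < 1 - ((2 : ℝ) ^ (s / 2))⁻¹ := by linarith
    positivity
  have hQ0 : 0 < Q := by positivity
  set u : ℝ := min (s / 4) (δ / (8 * Q)) with hu
  have hu0 : 0 < u := lt_min (by positivity) (by positivity)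
  have hus : u ≤ s / 4 := min_le_left _ _
  have huQ : u * Q ≤ δ / 8 := by
    calc u * Q ≤ δ / (8 * Q) * Q := by gcongr; exact min_le_right _ _
      _ = δ / 8 := by field_simp
  -- the mesh
  obtain ⟨h, hh0, hh1, hhB⟩ : ∃ h : ℝ, 0 < h ∧ h ≤ 1 ∧ h ^ (s / 2) * B' / (s / 2) ≤ δ / 8 := by
    have h1 : Tendsto (fun h : ℝ => h ^ (s / 2) * B' / (s / 2)) (𝓝[>] 0)
        (𝓝 ((0 : ℝ) ^ (s / 2) * B' / (s / 2))) := by
      have h4 : ContinuousAt (fun r : ℝ => r ^ (s / 2)) 0 :=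
        Real.continuousAt_rpow_const 0 _ (Or.inr (by positivity))
      exact ((h4.tendsto.mono_left nhdsWithin_le_nhds).mul_const B').div_const _
    rw [Real.zero_rpow (by positivity), zero_mul, zero_div] at h1
    have h2 := h1.eventually_le_const (by positivity : 0 < δ / 8)
    have h3 : ∀ᶠ h : ℝ in 𝓝[>] 0, h ∈ Set.Ioc (0 : ℝ) 1 := Ioc_mem_nhdsGT (by norm_num)
    obtain ⟨h, hh⟩ := (h2.and h3).exists
    exact ⟨h, hh.2.1, hh.2.2, hh.1⟩
  obtain ⟨G, hGs, hGfin, hGcov⟩ := finite_cover_balls_of_compact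
    (isCompact_closedBall (0 : ℂ) M) (by positivity : 0 < h / 2)
  have hG : ∀ w : ℂ, ‖w‖ ≤ M → ∃ g ∈ G, ‖w - g‖ ≤ h / 2 := by
    intro w hw
    have h1 := hGcov (mem_closedBall_zero_iff.mpr hw)
    rw [Set.mem_iUnion₂] at h1
    obtain ⟨g, hg, hwg⟩ := h1
    rw [mem_ball_iff_norm] at hwg
    exact ⟨g, hg, hwg.le⟩
  set S : Finset ℂ := hGfin.toFinset with hS
  have hev : ∀ᶠ N : ℕ in atTop, 1 ≤ N ∧ max (4 / h) (1 / δ) ≤ Real.exp (δ / 2 * N) := by
    filter_upwards [eventually_ge_atTop 1, ev_exp (by positivity : 0 < δ / 2)] with N h1 h2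
    exact ⟨h1, h2⟩
  obtain ⟨N0, hN0⟩ := eventually_atTop.mp hev
  set θ : ℝ := Real.exp (-(u * δ / 4)) with hθ
  have hθ0 : 0 < θ := Real.exp_pos _
  have hθ1 : θ < 1 := by
    rw [hθ, Real.exp_lt_one_iff]
    have : 0 < u * δ / 4 := by positivity
    linarith
  refine ⟨S.card + (θ⁻¹) ^ N0, θ, by positivity, hθ0, hθ1, ?_⟩
  intro Ω _ P _ N Z hZ hind hM hB hpot
  rcases lt_or_ge N N0 with hlt | hge
  · calc P {ω | ¬ Good2 N (lam - δ) (M - δ) (wr fun i => Z i ω)} ≤ 1 := prob_le_one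
      _ = ENNReal.ofReal 1 := ENNReal.ofReal_one.symm
      _ ≤ _ := by
        refine ENNReal.ofReal_le_ofReal ?_
        have h1 : 1 ≤ (θ⁻¹) ^ N0 * θ ^ N := by
          rw [inv_pow]
          rw [inv_mul_eq_div, le_div_iff₀ (by positivity), one_mul]
          exact pow_le_pow_of_le_one hθ0.le hθ1.le hlt.le
        have h2 : 0 ≤ (S.card : ℝ) * θ ^ N := by positivity
        rw [add_mul]
        linarith
  · obtain ⟨hN1, hR⟩ := hN0 N hge
    have hBr : ∀ (i : Fin N) (z : ℂ) (r : ℝ), 0 < r →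
        P {ω | ‖z - Z i ω‖ ≤ r} ≤ ENNReal.ofReal (B * r ^ s) := by
      intro i z r hr
      refine le_trans (measure_mono ?_) (hB i z r hr)
      intro ω hω
      have h3 : ‖z - Z i ω‖ ≤ r := hω
      show ‖Z i ω - z‖ ≤ r
      rwa [norm_sub_rev]
    have hMall : ∀ᵐ ω ∂P, ∀ i, ‖Z i ω‖ ≤ M := by
      rw [ae_all_iff]
      exact hM
    set a : ℝ := Real.exp (-(δ / 2) * N) with ha
    have hainv : a = (Real.exp (δ / 2 * N))⁻¹ := by
      rw [ha, ← Real.exp_neg]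
      congr 1
      ring
    have hah : a ≤ h / 4 := by
      rw [hainv]
      have h1 : 4 / h ≤ Real.exp (δ / 2 * N) := (le_max_left _ _).trans hR
      have h2 : 0 < 4 / h := by positivity
      calc (Real.exp (δ / 2 * N))⁻¹ ≤ (4 / h)⁻¹ := inv_anti₀ h2 h1
        _ = h / 4 := by rw [inv_div]
    have haδ : a ≤ δ := by
      rw [hainv]
      have h1 : 1 / δ ≤ Real.exp (δ / 2 * N) := (le_max_right _ _).trans hR
      have h2 : 0 < 1 / δ := by positivity
      calc (Real.exp (δ / 2 * N))⁻¹ ≤ (1 / δ)⁻¹ := inv_anti₀ h2 h1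
        _ = δ := by rw [one_div, inv_inv]
    have hsub : P {ω | ¬ Good2 N (lam - δ) (M - δ) (wr fun i => Z i ω)} ≤
        P (⋃ g ∈ S, {ω | ¬ ∏ i, (‖g - Z i ω‖ + h) ≤ Real.exp ((-lam + δ / 2) * N)}) := by
      refine measure_mono_ae ?_
      filter_upwards [hMall] with ω hω hbad
      by_contra hcon
      have hcon' : ω ∉ (⋃ g ∈ S, {ω | ¬ ∏ i, (‖g - Z i ω‖ + h) ≤
        Real.exp ((-lam + δ / 2) * N)}) := hcon
      apply hbad
      intro α t hα0 hα ht
      refine one_sink (fun i => Z i ω) G hN1 hM0 hh0 hδ hω hG ?_ ha hah haδ α t hα0 hα ht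
      intro g hg
      by_contra hle
      apply hcon'
      rw [Set.mem_iUnion₂]
      exact ⟨g, by rw [hS, Set.Finite.mem_toFinset]; exact hg, hle⟩
    refine hsub.trans ((measure_biUnion_finset_le _ _).trans ?_)
    calc ∑ g ∈ S, P {ω | ¬ ∏ i, (‖g - Z i ω‖ + h) ≤ Real.exp ((-lam + δ / 2) * N)} ≤
        ∑ _g ∈ S, ENNReal.ofReal (Real.exp (-(u * δ / 4) * N)) := by
          refine Finset.sum_le_sum fun g hg => ?_
          rw [hS, Set.Finite.mem_toFinset] at hg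
          have hgM : ‖g‖ ≤ M := mem_closedBall_zero_iff.mp (hGs hg)
          refine seldom_large hZ hind hs hs2 hB0 hh0 hBr hB' hQ hu0 hus huQ hhB g ?_ (hpot g hgM)
          intro i
          filter_upwards [hM i] with ω hω
          have h2 := norm_sub_le g (Z i ω)
          linarith
      _ = ENNReal.ofReal (S.card * θ ^ N) := by
          rw [Finset.sum_const, nsmul_eq_mul, ENNReal.ofReal_mul (by positivity),
            ENNReal.ofReal_natCast, hθ, ← Real.exp_nat_mul]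
          congr 3
          ring
      _ ≤ _ := by
          refine ENNReal.ofReal_le_ofReal ?_
          have f3 : 0 ≤ (θ⁻¹) ^ N0 * θ ^ N := by positivity
          rw [add_mul]
          linarith

end Pool.Agent.H363Roots
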