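import Mathlib
import Pool.Agent.H363Roots.LevelProb
import Pool.Agent.H363Roots.MainA

/-!
# A noncritical level of the mean potential: the exponential bound
-/

set_option autoImplicit false

open MeasureTheory ProbabilityTheory Filter Topology Polynomial

namespace Pool.Agent.H363Roots

theorem exists_net {A r : ℝ} (hr : 0 < r) :
    ∃ S : Finset ℂ, (∀ g ∈ S, ‖g‖ ≤ A) ∧ ∀ w : ℂ, ‖w‖ ≤ A → ∃ g ∈ S, ‖w - g‖ ≤ r := by
  obtain ⟨G, hGs, hGfin, hGcov⟩ := finite_cover_balls_of_compact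
    (isCompact_closedBall (0 : ℂ) A) hr
  refine ⟨hGfin.toFinset, ?_, ?_⟩
  · intro g hg
    rw [Set.Finite.mem_toFinset] at hg
    exact mem_closedBall_zero_iff.mp (hGs hg)
  · intro w hw
    have h1 := hGcov (mem_closedBall_zero_iff.mpr hw)
    rw [Set.mem_iUnion₂] at h1
    obtain ⟨g, hg, hwg⟩ := h1
    rw [mem_ball_iff_norm] at hwg
    exact ⟨g, by rw [Set.Finite.mem_toFinset]; exact hg, hwg.le⟩

theorem mainC0 (M τ s B β η : ℝ) (hM0 : 0 ≤ M) (hτ : 0 ≤ τ) (hB0 : 0 ≤ B) (hs : 0 < s)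
    (hs2 : s ≤ 2) (hη : 0 < η) :
    ∃ K θ ρ : ℝ, 0 < K ∧ 0 < θ ∧ θ < 1 ∧ 0 < ρ ∧
      ∀ (Ω : Type) [MeasurableSpace Ω] (P : Measure Ω) [IsProbabilityMeasure P] (N : ℕ)
        (Z : Fin N → Ω → ℂ), (∀ i, Measurable (Z i)) → iIndepFun Z P →
        (∀ i, ∀ᵐ ω ∂P, ‖Z i ω‖ ≤ M) →
        (∀ (i : Fin N) (z : ℂ) (r : ℝ), 0 < r →
          P {ω | ‖Z i ω - z‖ ≤ r} ≤ ENNReal.ofReal (B * r ^ s)) →
        (∀ z : ℂ, ‖z‖ ≤ M → |(∑ i, ∫ ω, Real.log ‖z - Z i ω‖ ∂P) + β * N| ≤ η * N →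
          (∀ i, ∀ᵐ ω ∂P, η ≤ ‖z - Z i ω‖) ∧ η * N ≤ ‖∑ i, ∫ ω, (z - Z i ω)⁻¹ ∂P‖) →
        P {ω | ¬ Good3 N (fun z => ∑ i, ∫ ω, Real.log ‖z - Z i ω‖ ∂P) β η ρ τ
          (fun i => Z i ω)} ≤ ENNReal.ofReal (K * θ ^ N) := by
  set B' : ℝ := 1 + B * (2 : ℝ) ^ (s / 2) / (1 - ((2 : ℝ) ^ (s / 2))⁻¹) with hB'
  set Q : ℝ := 8 / (s / 2) ^ 2 * (B' + (3 * M + 2 * τ + 6) ^ (s / 2)) with hQ
  have hB'0 : 0 < B' := by
    have h2q : 1 < (2 : ℝ) ^ (s / 2) := Real.one_lt_rpow (by norm_num) (by positivity)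
    have h1 : ((2 : ℝ) ^ (s / 2))⁻¹ < 1 := inv_lt_one_of_one_lt₀ h2q
    have h2 : 0 < 1 - ((2 : ℝ) ^ (s / 2))⁻¹ := by linarith
    positivity
  have hQ0 : 0 < Q := by positivity
  set u : ℝ := min (s / 4) (η / (32 * Q)) with hu
  have hu0 : 0 < u := lt_min (by positivity) (by positivity)
  have hus : u ≤ s / 4 := min_le_left _ _
  have huQ : u * Q ≤ η / 32 := by
    calc u * Q ≤ η / (32 * Q) * Q := by gcongr; exact min_le_right _ _
      _ = η / 32 := by field_simp
  obtain ⟨h0, hh0, hh01, hh0η, hh0η3, hhB⟩ : ∃ h : ℝ, 0 < h ∧ h ≤ 1 ∧ h ≤ η ∧ h ≤ η ^ 3 / 4 ∧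
      h ^ (s / 2) * B' / (s / 2) ≤ η / 32 := by
    have h1 : Tendsto (fun h : ℝ => h ^ (s / 2) * B' / (s / 2)) (𝓝[>] 0)
        (𝓝 ((0 : ℝ) ^ (s / 2) * B' / (s / 2))) := by
      have h4 : ContinuousAt (fun r : ℝ => r ^ (s / 2)) 0 :=
        Real.continuousAt_rpow_const 0 _ (Or.inr (by positivity))
      exact ((h4.tendsto.mono_left nhdsWithin_le_nhds).mul_const B').div_const _
    rw [Real.zero_rpow (by positivity), zero_mul, zero_div] at h1
    have h2 := h1.eventually_le_const (by positivity : 0 < η / 32)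
    have h3 : ∀ᶠ h : ℝ in 𝓝[>] 0, h ∈ Set.Ioc (0 : ℝ) (min 1 (min η (η ^ 3 / 4))) :=
      Ioc_mem_nhdsGT (lt_min (by norm_num) (lt_min hη (by positivity)))
    obtain ⟨h, hh⟩ := (h2.and h3).exists
    obtain ⟨hh1, hh2, hh3⟩ := hh
    exact ⟨h, hh2, hh3.trans (min_le_left _ _),
      hh3.trans ((min_le_right _ _).trans (min_le_left _ _)),
      hh3.trans ((min_le_right _ _).trans (min_le_right _ _)), hh1⟩
  obtain ⟨S, hSn, hS⟩ := exists_net (A := M + τ + 1) (by positivity : 0 < h0 / 2)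
  obtain ⟨S', hSn', hS'⟩ := exists_net (A := M) (by positivity : 0 < h0 / 2)
  set ε : ℝ := u * η / 128 with hε
  have hε0 : 0 < ε := by positivity
  set ρ : ℝ := min (η / 32) ε with hρ
  have hρ0 : 0 < ρ := lt_min (by positivity) hε0
  have hρη : ρ ≤ η / 32 := min_le_left _ _
  have hρε : ρ ≤ ε := min_le_right _ _
  set κ : ℝ := Real.exp (β - ρ) / 2 with hκ
  have hκ0 : 0 < κ := by positivity
  have hev : ∀ᶠ N : ℕ in atTop, 2 ≤ N ∧ (N : ℝ) * Real.exp (-(ε * N)) ≤ η / 32 ∧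
      max (max 2 τ) (max (2 * M) (max (1 / κ) (3 / κ ^ 2))) ≤ Real.exp (η / 32 * N) ∧
      8 / h0 ≤ Real.exp (η / 16 * N) ∧ 1 / h0 ≤ Real.exp (2 * ε * N) := by
    filter_upwards [eventually_ge_atTop 2, ev_small hε0 (by positivity : 0 < η / 32),
      ev_exp (b := max (max 2 τ) (max (2 * M) (max (1 / κ) (3 / κ ^ 2))))
        (by positivity : 0 < η / 32),
      ev_exp (b := 8 / h0) (by positivity : 0 < η / 16),
      ev_exp (b := 1 / h0) (by positivity : 0 < 2 * ε)] with N h1 h2 h3 h4 h5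
    exact ⟨h1, h2, h3, h4, h5⟩
  obtain ⟨N0, hN0⟩ := eventually_atTop.mp hev
  set θ : ℝ := max (max (Real.exp (-(u * η / 32))) (Real.exp (-(ε * s / 2))))
    (Real.exp (-(η ^ 4 / 128))) with hθ
  have hθ0 : 0 < θ := lt_max_of_lt_right (Real.exp_pos _)
  have hθ1 : θ < 1 := by
    refine max_lt (max_lt ?_ ?_) ?_
    · rw [Real.exp_lt_one_iff]
      have : 0 < u * η / 32 := by positivity
      linarith
    · rw [Real.exp_lt_one_iff]
      have : 0 < ε * s / 2 := by positivity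
      linarith
    · rw [Real.exp_lt_one_iff]
      have : 0 < η ^ 4 / 128 := by positivity
      linarith
  refine ⟨(2 * (M + τ + 1) + 5) ^ 2 + 8 * B / (ε * s) ^ 2 + S.card + S'.card * 4 + (θ⁻¹) ^ N0, θ, ρ,
    by positivity, hθ0, hθ1, hρ0, ?_⟩
  intro Ω _ P _ N Z hZ hind hM hB hlev
  rcases lt_or_ge N N0 with hlt | hge
  · refine prob_le_one.trans ?_
    rw [← ENNReal.ofReal_one]
    refine ENNReal.ofReal_le_ofReal ?_
    have h1 : 1 ≤ (θ⁻¹) ^ N0 * θ ^ N := by
      rw [inv_pow]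
      rw [inv_mul_eq_div, le_div_iff₀ (by positivity), one_mul]
      exact pow_le_pow_of_le_one hθ0.le hθ1.le hlt.le
    have h2 : 0 ≤ ((2 * (M + τ + 1) + 5) ^ 2 + 8 * B / (ε * s) ^ 2 + S.card + S'.card * 4) *
      θ ^ N := by positivity
    rw [add_mul]
    linarith
  · obtain ⟨hN2, hsm, hRmax, hR8, hRh⟩ := hN0 N hge
    have hN1' : (2 : ℝ) ≤ N := by exact_mod_cast hN2
    have hNpos : (0 : ℝ) < N := by linarith
    set σ : ℝ := Real.exp (-(ε * N)) with hσ
    set h : ℝ := Real.exp (-(2 * ε * N)) with hh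
    set a : ℝ := Real.exp (-(η / 16) * N) with ha
    set R : ℝ := Real.exp (η / 32 * N) with hR
    have hσ0 : 0 < σ := Real.exp_pos _
    have hhpos : 0 < h := Real.exp_pos _
    have hh1 : h ≤ 1 := by
      rw [hh, Real.exp_le_one_iff]
      have : 0 ≤ 2 * ε * N := by positivity
      linarith
    have hR2 : 2 ≤ R := ((le_max_left _ _).trans (le_max_left _ _)).trans hRmax
    have hRτ : τ ≤ R := ((le_max_right _ _).trans (le_max_left _ _)).trans hRmax
    have hRM : 2 * M ≤ R := ((le_max_left _ _).trans (le_max_right _ _)).trans hRmax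
    have hR1 : 1 / κ ≤ R :=
      (((le_max_left _ _).trans (le_max_right _ _)).trans (le_max_right _ _)).trans hRmax
    have hR3 : 3 / κ ^ 2 ≤ R :=
      (((le_max_right _ _).trans (le_max_right _ _)).trans (le_max_right _ _)).trans hRmax
    have hR1' : 1 ≤ κ * R := by
      rw [div_le_iff₀ hκ0] at hR1
      linarith
    have hR3' : 3 ≤ κ ^ 2 * R := by
      rw [div_le_iff₀ (by positivity)] at hR3
      linarith
    have hhh : h ≤ h0 := by
      have e1 : h = (Real.exp (2 * ε * N))⁻¹ := by rw [hh, Real.exp_neg]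
      rw [e1]
      calc (Real.exp (2 * ε * N))⁻¹ ≤ (1 / h0)⁻¹ := inv_anti₀ (by positivity) hRh
        _ = h0 := by rw [one_div, inv_inv]
    have hah : a ≤ h0 / 8 := by
      have e1 : a = (Real.exp (η / 16 * N))⁻¹ := by
        rw [ha, ← Real.exp_neg]
        congr 1
        ring
      rw [e1]
      calc (Real.exp (η / 16 * N))⁻¹ ≤ (8 / h0)⁻¹ := inv_anti₀ (by positivity) hR8
        _ = h0 / 8 := by rw [inv_div]
    have ha1 : a ≤ 1 := by linarith
    have haρ : a ≤ Real.exp (-ρ * N) / 2 := by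
      have e1 : a * R ≤ Real.exp (-ρ * N) := by
        rw [ha, hR, ← Real.exp_add]
        refine Real.exp_le_exp.mpr ?_
        nlinarith
      have e2 : 0 < a := Real.exp_pos _
      nlinarith
    set L : ℕ := ⌈(M + τ + 1) / h⌉₊ + 1 with hL
    have hA0 : 0 < M + τ + 1 := by positivity
    have hL1 : (M + τ + 1) / h + 1 ≤ L := by
      rw [hL]
      push_cast
      linarith [Nat.le_ceil ((M + τ + 1) / h)]
    have hL2 : (L : ℝ) ≤ (M + τ + 1) / h + 2 := by
      rw [hL]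
      push_cast
      linarith [Nat.ceil_lt_add_one (by positivity : 0 ≤ (M + τ + 1) / h)]
    have hL3 : h * L ≤ M + τ + 3 := by
      calc h * L ≤ h * ((M + τ + 1) / h + 2) := by gcongr
        _ = M + τ + 1 + 2 * h := by field_simp
        _ ≤ M + τ + 3 := by linarith
    have hexp32 : ∀ x : ℝ, 0 ≤ x → x ≤ η / 32 → (1 + x) ^ N ≤ R := by
      intro x hx0 hx
      calc (1 + x) ^ N ≤ (1 + η / 32) ^ N := by gcongr
        _ ≤ (Real.exp (η / 32)) ^ N := by
          have := Real.add_one_le_exp (η / 32)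
          gcongr
          linarith
        _ = R := by rw [hR, ← Real.exp_nat_mul, mul_comm]
    have hsmall1 : (1 + h / (σ / N)) ^ N ≤ R := by
      have e1 : h / (σ / N) = N * σ := by
        have : h = σ * σ := by
          rw [hh, hσ, ← Real.exp_add]
          congr 1
          ring
        rw [this]
        field_simp
      rw [e1]
      exact hexp32 _ (by positivity) hsm
    have hsmall2 : (1 + h / (Real.exp (-ρ * N) / 2)) ^ N ≤ R := by
      refine hexp32 _ (by positivity) ?_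
      have e1 : h ≤ σ * Real.exp (-ρ * N) := by
        rw [hh, hσ, ← Real.exp_add]
        refine Real.exp_le_exp.mpr ?_
        nlinarith
      have e2 : 0 < Real.exp (-ρ * N) := Real.exp_pos _
      calc h / (Real.exp (-ρ * N) / 2) ≤ σ * Real.exp (-ρ * N) / (Real.exp (-ρ * N) / 2) := by
            gcongr
        _ = 2 * σ := by field_simp
        _ ≤ N * σ := by gcongr
        _ ≤ η / 32 := hsm
    have hfin := prob_level hZ hind (fun z => ∑ i, ∫ ω, Real.log ‖z - Z i ω‖ ∂P)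
      (fun z => rfl) (τ := τ) (h := h) (h0 := h0) (L := L) (u := u) (σ := σ) (ρ := ρ) S S' hN2 hM0
      hτ hs hs2 hB0 hη hσ0 hhpos hh0 hh01 hhh hL1 hL3 hM hB hB' hQ hu0 hus huQ hhB hlev hS hSn hS'
      hSn' hh0η hh0η3 hρη hsmall1 hsmall2 ha haρ hah ha1 hR hR2 hRτ hRM hR1' hR3'
    refine hfin.trans (ENNReal.ofReal_le_ofReal ?_)
    have f1 : (2 * (L : ℝ) + 1) ^ 2 * Real.exp (-(u * η / 16) * N) ≤
        (2 * (M + τ + 1) + 5) ^ 2 * θ ^ N := by
      have g1 : 2 * (L : ℝ) + 1 ≤ (2 * (M + τ + 1) + 5) / h := by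
        rw [le_div_iff₀ hhpos]
        calc (2 * (L : ℝ) + 1) * h ≤ (2 * ((M + τ + 1) / h + 2) + 1) * h := by gcongr
          _ = 2 * (M + τ + 1) + 5 * h := by field_simp; ring
          _ ≤ 2 * (M + τ + 1) + 5 := by linarith
      calc (2 * (L : ℝ) + 1) ^ 2 * Real.exp (-(u * η / 16) * N) ≤
          ((2 * (M + τ + 1) + 5) / h) ^ 2 * Real.exp (-(u * η / 16) * N) := by gcongr
        _ = (2 * (M + τ + 1) + 5) ^ 2 * (Real.exp (-(u * η / 32))) ^ N := by
          have g6 : h ^ 2 = Real.exp (-(4 * ε * N)) := by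
            rw [hh, sq, ← Real.exp_add]
            congr 1
            ring
          have g7 : Real.exp (-(u * η / 16) * N) = Real.exp (-(4 * ε * N)) *
              Real.exp (N * -(u * η / 32)) := by
            rw [← Real.exp_add, hε]
            congr 1
            ring
          rw [div_pow, g6, g7, ← Real.exp_nat_mul]
          have g8 : 0 < Real.exp (-(4 * ε * N)) := Real.exp_pos _
          field_simp
        _ ≤ (2 * (M + τ + 1) + 5) ^ 2 * θ ^ N := by
          gcongr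
          exact (le_max_left _ _).trans (le_max_left _ _)
    have f2 : (N : ℝ) ^ 2 * (B * σ ^ s) ≤ 8 * B / (ε * s) ^ 2 * θ ^ N := by
      have g1 : (N : ℝ) ^ 2 ≤ 8 / (ε * s) ^ 2 * Real.exp (ε * s / 2 * N) := by
        have g2 := Real.quadratic_le_exp_of_nonneg (by positivity : 0 ≤ ε * s / 2 * N)
        have g3 : (ε * s / 2 * N) ^ 2 / 2 ≤ Real.exp (ε * s / 2 * N) := by
          have : 0 ≤ ε * s / 2 * N := by positivity
          linarith
        calc (N : ℝ) ^ 2 = 8 / (ε * s) ^ 2 * ((ε * s / 2 * N) ^ 2 / 2) := by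
              field_simp
              ring
          _ ≤ _ := by gcongr
      have g4 : σ ^ s = Real.exp (-(ε * s * N)) := by
        rw [hσ, ← Real.exp_mul]
        congr 1
        ring
      calc (N : ℝ) ^ 2 * (B * σ ^ s) ≤
          8 / (ε * s) ^ 2 * Real.exp (ε * s / 2 * N) * (B * Real.exp (-(ε * s * N))) := by
            rw [g4]
            gcongr
        _ = 8 * B / (ε * s) ^ 2 * (Real.exp (-(ε * s / 2))) ^ N := by
            rw [← Real.exp_nat_mul]
            have g5 : Real.exp (ε * s / 2 * N) * Real.exp (-(ε * s * N)) =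
                Real.exp (N * -(ε * s / 2)) := by
              rw [← Real.exp_add]
              congr 1
              ring
            rw [← g5]
            ring
        _ ≤ _ := by
            gcongr
            exact (le_max_right _ _).trans (le_max_left _ _)
    have f4 : (S.card : ℝ) * Real.exp (-(u * η / 16) * N) ≤ S.card * θ ^ N := by
      have g1 : Real.exp (-(u * η / 16) * N) ≤ (Real.exp (-(u * η / 32))) ^ N := by
        rw [← Real.exp_nat_mul]
        refine Real.exp_le_exp.mpr ?_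
        have : 0 ≤ u * η * N := by positivity
        nlinarith
      have g2 : Real.exp (-(u * η / 32)) ≤ θ := (le_max_left _ _).trans (le_max_left _ _)
      have g3 : (Real.exp (-(u * η / 32))) ^ N ≤ θ ^ N := by gcongr
      have g4 := g1.trans g3
      gcongr
    have f5 : (S'.card : ℝ) * (4 * Real.exp (-(η ^ 4 / 128) * N)) ≤ S'.card * 4 * θ ^ N := by
      have g1 : Real.exp (-(η ^ 4 / 128) * N) = (Real.exp (-(η ^ 4 / 128))) ^ N := by
        rw [← Real.exp_nat_mul]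
        congr 1
        ring
      have g2 : Real.exp (-(η ^ 4 / 128)) ≤ θ := le_max_right _ _
      rw [g1]
      calc (S'.card : ℝ) * (4 * (Real.exp (-(η ^ 4 / 128))) ^ N) ≤ S'.card * (4 * θ ^ N) := by
            gcongr
        _ = _ := by ring
    have f3 : 0 ≤ (θ⁻¹) ^ N0 * θ ^ N := by positivity
    rw [add_mul, add_mul, add_mul, add_mul]
    linarith

end Pool.Agent.H363Roots
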