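import Mathlib
import Pool.Agent.H363Roots.Det
import Pool.Agent.H363Roots.Attr

/-!
# Polynomials with prescribed roots whose mean potential has a gap
-/

set_option autoImplicit false

open Polynomial Filter Topology

namespace Pool.Agent.H363Roots

/-- The derivative of a monic polynomial of degree one has no zero. -/
theorem no_crit_one (z : Fin 1 → ℂ) (c : ℂ) : (derivative (wr z)).eval c ≠ 0 := by
  simp [wr]

theorem crit_of {N : ℕ} (z : Fin N → ℂ) {α t : ℂ} (hα0 : α ≠ 0) {c : ℂ}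
    (hc : (derivative (C α * wr z + C t)).eval c = 0) : (derivative (wr z)).eval c = 0 := by
  rw [derivative_add, derivative_C, add_zero, derivative_mul, derivative_C, zero_mul, zero_add,
    eval_mul, eval_C] at hc
  rcases mul_eq_zero.mp hc with h1 | h1
  · exact absurd h1 hα0
  · exact h1

/-- The escaping regime. -/
theorem all_escape2 {N : ℕ} (z : Fin N → ℂ) (V : ℂ → ℝ) {M M' σ h Λ : ℝ} {L : ℕ} (hN : 1 ≤ N)
    (hσ : 0 < σ) (hh : 0 < h) (hL : M / h + 1 ≤ L) (hMM' : M ≤ M') (hM'1 : 1 ≤ M')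
    (hz : ∀ i, ‖z i‖ ≤ M) (hsep : ∀ i j, i ≠ j → σ < ‖z i - z j‖)
    (hV : ∀ v x : ℂ, ‖v - x‖ ≤ h → V x ≤ V v + Λ / 8)
    (hgrid : ∀ p ∈ Finset.Icc (-(L : ℤ)) L ×ˢ Finset.Icc (-(L : ℤ)) L,
      Real.exp (V (gridPt h p) - Λ / 4) ≤ ∏ i, ‖gridPt h p - z i‖)
    (hsmall : (1 + h / (σ / N)) ^ N ≤ Real.exp (Λ / 8))
    (hR : 2 * M' ≤ Real.exp (Λ / 4))
    (α t : ℂ) (hα0 : α ≠ 0) (hα : ∀ x : ℂ, ‖x‖ ≤ M → Λ ≤ V x + Real.log ‖α‖)
    (hα1 : Real.exp Λ ≤ ‖α‖ * M' ^ N) (ht : ‖t‖ ≤ Real.exp (Λ / 4))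
    (c : ℂ) (hc : (derivative (C α * wr z + C t)).eval c = 0) :
    Tendsto (fun k : ℕ => ‖(fun w => (C α * wr z + C t).eval w)^[k] c‖) atTop atTop := by
  have hN0 : (0 : ℝ) < N := by exact_mod_cast hN
  have hαp : 0 < ‖α‖ := norm_pos_iff.mpr hα0
  have hc' : (derivative (wr z)).eval c = 0 := crit_of z hα0 hc
  have hN2 : 2 ≤ N := by
    by_contra hlt
    have h1 : N = 1 := by omega
    subst h1
    exact no_crit_one z c hc'
  have heval : ∀ w, ‖(C α * wr z + C t).eval w‖ ≥ ‖α‖ * ∏ i, ‖w - z i‖ - ‖t‖ := by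
    intro w
    rw [eval_add, eval_mul, eval_C, eval_C, eval_wr]
    have h1 : ‖α * ∏ i, (w - z i)‖ = ‖α‖ * ∏ i, ‖w - z i‖ := by
      rw [norm_mul, norm_prod]
    rw [← h1]
    have h2 := norm_sub_norm_le (α * ∏ i, (w - z i)) (-t)
    rw [norm_neg, sub_neg_eq_add] at h2
    exact h2
  set R := Real.exp (Λ / 4) with hRdef
  have hR0 : 0 < R := Real.exp_pos _
  have hR2 : 2 ≤ R := by linarith
  have hM'0 : 0 < M' := by linarith
  have hR4 : Real.exp Λ = R ^ 4 := by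
    rw [hRdef, ← Real.exp_nat_mul]
    congr 1
    push_cast
    ring
  refine escape (f := fun w => (C α * wr z + C t).eval w) hR0 ?_ ?_
  · intro w hw
    refine le_trans ?_ (heval w)
    have h1 : ∀ i, ‖w‖ / 2 ≤ ‖w - z i‖ := by
      intro i
      have h2 := norm_sub_norm_le w (z i)
      have h3 := hz i
      linarith
    have h2 : (‖w‖ / 2) ^ N ≤ ∏ i, ‖w - z i‖ := by
      calc (‖w‖ / 2) ^ N = ∏ _i : Fin N, (‖w‖ / 2) := by
            rw [Finset.prod_const, Finset.card_univ, Fintype.card_fin]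
        _ ≤ ∏ i, ‖w - z i‖ := Finset.prod_le_prod (fun i _ => by positivity) fun i _ => h1 i
    have h4 : 1 ≤ ‖w‖ / (2 * M') := by
      rw [le_div_iff₀ (by positivity)]
      linarith
    have h3 : R ^ 4 * (‖w‖ / (2 * M')) ^ 2 ≤ ‖α‖ * ∏ i, ‖w - z i‖ := by
      calc R ^ 4 * (‖w‖ / (2 * M')) ^ 2 ≤ R ^ 4 * (‖w‖ / (2 * M')) ^ N := by
            gcongr
        _ ≤ (‖α‖ * M' ^ N) * (‖w‖ / (2 * M')) ^ N := by
            rw [← hR4]
            gcongr
        _ = ‖α‖ * (‖w‖ / 2) ^ N := by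
            rw [mul_assoc, ← mul_pow]
            congr 2
            field_simp
        _ ≤ ‖α‖ * ∏ i, ‖w - z i‖ := by gcongr
    have h6 : 3 * ‖w‖ ≤ R ^ 4 * (‖w‖ / (2 * M')) ^ 2 := by
      have h7 : 3 ≤ R ^ 3 := by
        have : (2 : ℝ) ^ 3 ≤ R ^ 3 := by gcongr
        linarith
      have h12 : ‖w‖ ≤ R * (‖w‖ / (2 * M')) ^ 2 := by
        have h13 : R * (‖w‖ / (2 * M')) ^ 2 = (R * ‖w‖) / (2 * M') ^ 2 * ‖w‖ := by
          field_simp
        rw [h13]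
        have h14 : 1 ≤ (R * ‖w‖) / (2 * M') ^ 2 := by
          rw [le_div_iff₀ (by positivity), one_mul]
          calc (2 * M') ^ 2 = (2 * M') * (2 * M') := by ring
            _ ≤ R * ‖w‖ := by
              have : 2 * M' ≤ ‖w‖ := hR.trans hw
              gcongr
        calc ‖w‖ = 1 * ‖w‖ := by ring
          _ ≤ _ := by gcongr
      calc 3 * ‖w‖ ≤ R ^ 3 * (R * (‖w‖ / (2 * M')) ^ 2) := by gcongr
        _ = R ^ 4 * (‖w‖ / (2 * M')) ^ 2 := by ring
    linarith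
  · refine le_trans ?_ (heval c)
    have hcM : ‖c‖ ≤ M := critical_norm z c hN hz hc'
    obtain ⟨p, hp, hpc⟩ := grid_near hh hL c hcM
    have hfar := critical_far z c hσ hsep hc'
    have hcmp := prod_compare z c (gridPt h p) (r := σ / N) (by positivity) hfar hpc
    have h1 := hgrid p hp
    have h2 : Real.exp (V (gridPt h p) - Λ / 4) ≤ (∏ i, ‖c - z i‖) * Real.exp (Λ / 8) := by
      refine h1.trans (hcmp.trans ?_)
      have : 0 ≤ ∏ i, ‖c - z i‖ := Finset.prod_nonneg fun i _ => norm_nonneg _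
      gcongr
    have h3 : Real.exp (V (gridPt h p) - 3 * Λ / 8) ≤ ∏ i, ‖c - z i‖ := by
      have h4 : Real.exp (V (gridPt h p) - Λ / 4) = Real.exp (V (gridPt h p) - 3 * Λ / 8) *
          Real.exp (Λ / 8) := by
        rw [← Real.exp_add]
        congr 1
        ring
      rw [h4] at h2
      exact le_of_mul_le_mul_right h2 (Real.exp_pos _)
    have h4 := hV (gridPt h p) c (by rw [norm_sub_rev]; exact hpc)
    have h6 := hα c hcM
    have h5 : R * R ≤ ‖α‖ * ∏ i, ‖c - z i‖ := by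
      calc R * R = Real.exp (Λ / 2) := by
            rw [hRdef, ← Real.exp_add]
            congr 1
            ring
        _ ≤ Real.exp (Real.log ‖α‖ + (V (gridPt h p) - 3 * Λ / 8)) :=
            Real.exp_le_exp.mpr (by linarith)
        _ = ‖α‖ * Real.exp (V (gridPt h p) - 3 * Λ / 8) := by
            rw [Real.exp_add, Real.exp_log hαp]
        _ ≤ ‖α‖ * ∏ i, ‖c - z i‖ := by gcongr
    nlinarith

/-- The attracting regime. -/
theorem one_sink2 {N : ℕ} (z : Fin N → ℂ) (V : ℂ → ℝ) {M h Λ : ℝ} {L : ℕ} (hN : 1 ≤ N)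
    (hM : 0 ≤ M) (hh : 0 < h) (hΛ : 0 < Λ) (hL : M / h + 1 ≤ L) (hz : ∀ i, ‖z i‖ ≤ M)
    (hV : ∀ v x : ℂ, ‖v - x‖ ≤ h → V x ≤ V v + Λ / 8)
    (hgrid : ∀ p ∈ Finset.Icc (-(L : ℤ)) L ×ˢ Finset.Icc (-(L : ℤ)) L,
      ∏ i, (‖gridPt h p - z i‖ + 2 * h) ≤ Real.exp (V (gridPt h p) + Λ / 2))
    (ha : Real.exp (-(Λ / 4)) ≤ h / 2)
    (α t : ℂ) (hα0 : α ≠ 0) (hα : ∀ x : ℂ, ‖x‖ ≤ M → V x + Real.log ‖α‖ ≤ -Λ)
    (ht : ‖t‖ ≤ M - Real.exp (-(Λ / 4))) :
    ∃ x : ℂ, (C α * wr z + C t).eval x = x ∧ ‖(derivative (C α * wr z + C t)).eval x‖ < 1 ∧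
      ∀ c : ℂ, (derivative (C α * wr z + C t)).eval c = 0 →
        Tendsto (fun k : ℕ => (fun w => (C α * wr z + C t).eval w)^[k] c) atTop (𝓝 x) := by
  have hαp : 0 < ‖α‖ := norm_pos_iff.mpr hα0
  obtain ⟨x, hx1, hx2, hx3⟩ := sink (F := C α * wr z + C t) (t := t) (h := 2 * h)
    (η := Real.exp (-(Λ / 4))) (δ := Real.exp (-(Λ / 4))) hM (by positivity)
    (by linarith) le_rfl ht (by
    intro w z0 hz0 hw
    obtain ⟨p, hp, hzg⟩ := grid_near hh hL z0 hz0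
    rw [eval_add, eval_mul, eval_C, eval_C, add_sub_cancel_right, eval_wr, norm_mul, norm_prod]
    have h1 : ∏ i, ‖w - z i‖ ≤ ∏ i, (‖gridPt h p - z i‖ + 2 * h) := by
      refine Finset.prod_le_prod (fun i _ => norm_nonneg _) fun i _ => ?_
      have : w - z i = (gridPt h p - z i) + ((w - z0) + (z0 - gridPt h p)) := by ring
      rw [this]
      refine (norm_add_le _ _).trans ?_
      have h2 := norm_add_le (w - z0) (z0 - gridPt h p)
      linarith
    have h3 := hV z0 (gridPt h p) hzg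
    have h4 := hα z0 hz0
    calc ‖α‖ * ∏ i, ‖w - z i‖ ≤ ‖α‖ * Real.exp (V (gridPt h p) + Λ / 2) := by
          have h5 := h1.trans (hgrid p hp)
          gcongr
      _ = Real.exp (Real.log ‖α‖ + (V (gridPt h p) + Λ / 2)) := by
          rw [Real.exp_add (Real.log ‖α‖), Real.exp_log hαp]
      _ ≤ Real.exp (-(Λ / 4)) := Real.exp_le_exp.mpr (by linarith))
  exact ⟨x, hx1, hx2, fun c hc => hx3 c (critical_norm z c hN hz (crit_of z hα0 hc))⟩

end Pool.Agent.H363Roots
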