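import Mathlib
import Pool.Agent.H363Roots.PWinDet
import Pool.Agent.H363Roots.LevelProb

/-!
# Polynomials with random roots: Gaussian tails
-/

set_option autoImplicit false

open MeasureTheory ProbabilityTheory Filter Topology Polynomial

namespace Pool.Agent.H363Roots

/-- The conclusion for given roots `z i` and mean potential `V`. -/
def GoodP {N : ℕ} (V : ℂ → ℝ) (M Λ : ℝ) (z : Fin N → ℂ) : Prop :=
  ∀ α t : ℂ, α ≠ 0 →
    ((∀ x : ℂ, ‖x‖ ≤ M → Λ ≤ V x + Real.log ‖α‖) → ‖t‖ ≤ Real.exp (Λ / 4) →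
      ∀ c : ℂ, (derivative (C α * wr z + C t)).eval c = 0 →
        Tendsto (fun k : ℕ => ‖(fun w => (C α * wr z + C t).eval w)^[k] c‖) atTop atTop) ∧
    ((∀ x : ℂ, ‖x‖ ≤ M → V x + Real.log ‖α‖ ≤ -Λ) → ‖t‖ ≤ M - Real.exp (-(Λ / 4)) →
      ∃ x : ℂ, (C α * wr z + C t).eval x = x ∧ ‖(derivative (C α * wr z + C t)).eval x‖ < 1 ∧
        ∀ c : ℂ, (derivative (C α * wr z + C t)).eval c = 0 →
          Tendsto (fun k : ℕ => (fun w => (C α * wr z + C t).eval w)^[k] c) atTop (𝓝 x))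

section

variable {Ω : Type*} [MeasurableSpace Ω] {P : Measure Ω}

theorem prob_poly [IsProbabilityMeasure P] {N : ℕ} {Z : Fin N → Ω → ℂ}
    (hZ : ∀ i, Measurable (Z i)) (hind : iIndepFun Z P) (V : ℂ → ℝ)
    (hVdef : ∀ z, V z = ∑ i, ∫ ω, Real.log ‖z - Z i ω‖ ∂P)
    {M s B B' Q u σ h Λ : ℝ} {L : ℕ} (hN : 1 ≤ N) (hM0 : 0 ≤ M) (hs : 0 < s) (hs2 : s ≤ 2)
    (hB0 : 0 ≤ B) (hΛ : 0 < Λ) (hσ : 0 < σ) (hh : 0 < h) (hh1 : h ≤ 1 / 2)
    (hL : M / h + 1 ≤ L) (hLM : h * L ≤ M + 2)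
    (hM : ∀ i, ∀ᵐ ω ∂P, ‖Z i ω‖ ≤ M)
    (hB : ∀ (i : Fin N) (z : ℂ) (r : ℝ), 0 < r →
      P {ω | ‖Z i ω - z‖ ≤ r} ≤ ENNReal.ofReal (B * r ^ s))
    (hB' : B' = 1 + B * (2 : ℝ) ^ (s / 2) / (1 - ((2 : ℝ) ^ (s / 2))⁻¹))
    (hQ : Q = 8 / (s / 2) ^ 2 * (B' + (3 * M + 5) ^ (s / 2)))
    (hu : 0 < u) (hus : u ≤ s / 4) (huQ : u * Q ≤ Λ / (8 * N))
    (hhB : h ^ (s / 2) * B' / (s / 2) ≤ Λ / (8 * N))
    (hhB2 : (2 * h) ^ (s / 2) * B' / (s / 2) ≤ Λ / (8 * N))
    (hsmall : (1 + h / (σ / N)) ^ N ≤ Real.exp (Λ / 8))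
    (hR : 2 * (M + 1) ≤ Real.exp (Λ / 4)) (ha : Real.exp (-(Λ / 4)) ≤ h / 2) :
    P {ω | ¬ GoodP V M Λ (fun i => Z i ω)} ≤
      ENNReal.ofReal ((2 * L + 1) ^ 2 * (2 * Real.exp (-(u * Λ / 8))) + N ^ 2 * (B * σ ^ s)) := by
  have hBr : ∀ (i : Fin N) (z : ℂ) (r : ℝ), 0 < r →
      P {ω | ‖z - Z i ω‖ ≤ r} ≤ ENNReal.ofReal (B * r ^ s) := by
    intro i z r hr
    refine le_trans (measure_mono ?_) (hB i z r hr)
    intro ω hω
    have h3 : ‖z - Z i ω‖ ≤ r := hω
    show ‖Z i ω - z‖ ≤ r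
    rwa [norm_sub_rev]
  have hN0 : (0 : ℝ) < N := by exact_mod_cast hN
  have hV : ∀ v x : ℂ, ‖v - x‖ ≤ h → V x ≤ V v + Λ / 8 := by
    intro v w hvw
    rw [hVdef, hVdef]
    calc ∑ i, ∫ ω, Real.log ‖w - Z i ω‖ ∂P ≤
        ∑ i, ((∫ ω, Real.log ‖v - Z i ω‖ ∂P) + Λ / (8 * N)) := by
          refine Finset.sum_le_sum fun i _ => ?_
          have := holder (hZ i) hs hs2 hB0 (hBr i) hB' v w hh hvw (hM i)
          linarith
      _ = _ := by
          rw [Finset.sum_add_distrib, Finset.sum_const, Finset.card_univ, Fintype.card_fin,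
            nsmul_eq_mul]
          field_simp
  have hV0 : V 0 ≤ N * Real.log (M + 1) := by
    rw [hVdef]
    calc ∑ i, ∫ ω, Real.log ‖0 - Z i ω‖ ∂P ≤ ∑ _i : Fin N, Real.log (M + 1) := by
          refine Finset.sum_le_sum fun i _ => ?_
          have hl0 : 0 ≤ Real.log (M + 1) := Real.log_nonneg (by linarith)
          by_cases hint : Integrable (fun ω => Real.log ‖0 - Z i ω‖) P
          · have h1 : ∫ ω, Real.log ‖0 - Z i ω‖ ∂P ≤ ∫ _ω, Real.log (M + 1) ∂P := by
              refine integral_mono_ae hint (integrable_const _) ?_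
              filter_upwards [hM i] with ω hω
              rw [zero_sub, norm_neg]
              rcases eq_or_lt_of_le (norm_nonneg (Z i ω)) with h2 | h2
              · rw [← h2, Real.log_zero]
                exact hl0
              · exact Real.log_le_log h2 (by linarith)
            rw [integral_const] at h1
            simpa using h1
          · rw [integral_undef hint]
            exact hl0
      _ = N * Real.log (M + 1) := by
          rw [Finset.sum_const, Finset.card_univ, Fintype.card_fin, nsmul_eq_mul]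
  set G : Finset (ℤ × ℤ) := Finset.Icc (-(L : ℤ)) L ×ˢ Finset.Icc (-(L : ℤ)) L with hG
  set D : Finset (Fin N × Fin N) := Finset.univ.filter fun p => p.1 ≠ p.2 with hD
  have hMall : ∀ᵐ ω ∂P, ∀ i, ‖Z i ω‖ ≤ M := by
    rw [ae_all_iff]
    exact hM
  set E1 : Set Ω := ⋃ p ∈ G, {ω | ¬ Real.exp (V (gridPt h p) - Λ / 4) ≤
    ∏ i, ‖gridPt h p - Z i ω‖} with hE1
  set E2 : Set Ω := ⋃ p ∈ G, {ω | ¬ ∏ i, (‖gridPt h p - Z i ω‖ + 2 * h) ≤
    Real.exp (V (gridPt h p) + Λ / 2)} with hE2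
  set E3 : Set Ω := ⋃ p ∈ D, {ω | ‖Z p.1 ω - Z p.2 ω‖ ≤ σ} with hE3
  have hsub : P {ω | ¬ GoodP V M Λ (fun i => Z i ω)} ≤ P ((E1 ∪ E2) ∪ E3) := by
    refine measure_mono_ae ?_
    filter_upwards [hMall] with ω hω hbad
    by_contra hcon
    have hcon' : ω ∉ ((E1 ∪ E2) ∪ E3) := hcon
    rw [Set.mem_union, Set.mem_union, not_or, not_or] at hcon'
    obtain ⟨⟨hc1, hc2⟩, hc3⟩ := hcon'
    apply hbad
    intro α t hα0
    constructor
    · intro hα ht c hc
      have hα1 : Real.exp Λ ≤ ‖α‖ * (M + 1) ^ N := by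
        have h1 := hα 0 (by rw [norm_zero]; exact hM0)
        have hαp : 0 < ‖α‖ := norm_pos_iff.mpr hα0
        have hM1 : 0 < M + 1 := by linarith
        calc Real.exp Λ ≤ Real.exp (Real.log ‖α‖ + N * Real.log (M + 1)) :=
              Real.exp_le_exp.mpr (by linarith)
          _ = ‖α‖ * (M + 1) ^ N := by
              rw [Real.exp_add, Real.exp_log hαp, Real.exp_nat_mul, Real.exp_log hM1]
      refine all_escape2 (fun i => Z i ω) V (M := M) (M' := M + 1) hN hσ hh hL (by linarith)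
        (by linarith) hω ?_ hV ?_ hsmall hR α t hα0 hα hα1 ht c hc
      · intro i j hij
        by_contra hle
        apply hc3
        rw [hE3, Set.mem_iUnion₂]
        refine ⟨(i, j), ?_, ?_⟩
        · rw [hD, Finset.mem_filter]
          exact ⟨Finset.mem_univ _, hij⟩
        · exact not_lt.mp hle
      · intro p hp
        by_contra hle
        apply hc1
        rw [hE1, Set.mem_iUnion₂]
        exact ⟨p, hp, hle⟩
    · intro hα ht
      refine one_sink2 (fun i => Z i ω) V hN hM0 hh hΛ hL hω hV ?_ ha α t hα0 hα ht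
      intro p hp
      by_contra hle
      apply hc2
      rw [hE2, Set.mem_iUnion₂]
      exact ⟨p, hp, hle⟩
  have hcard : ∀ b : ℝ, ∑ _p ∈ G, ENNReal.ofReal b = ENNReal.ofReal ((2 * L + 1) ^ 2 * b) := by
    intro b
    rw [Finset.sum_const, hG, Finset.card_product, Int.card_Icc, nsmul_eq_mul,
      ENNReal.ofReal_mul (p := (2 * (L : ℝ) + 1) ^ 2) (by positivity)]
    congr 1
    have h3 : ((L : ℤ) + 1 - -(L : ℤ)).toNat = 2 * L + 1 := by omega
    rw [h3]
    have h4 : ((2 * (L : ℝ) + 1) ^ 2) = (((2 * L + 1) * (2 * L + 1) : ℕ) : ℝ) := by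
      push_cast
      ring
    rw [h4, ENNReal.ofReal_natCast]
  have hgn : ∀ p ∈ G, ∀ i, ∀ᵐ ω ∂P, ‖gridPt h p - Z i ω‖ + 2 * h ≤ 3 * M + 5 := by
    intro p hp i
    filter_upwards [hM i] with ω hω
    have h1 := norm_gridPt_le hh hp
    have h2 := norm_sub_le (gridPt h p) (Z i ω)
    linarith
  have f1 : P E1 ≤ ENNReal.ofReal ((2 * L + 1) ^ 2 * Real.exp (-(u * Λ / 8))) := by
    refine (measure_biUnion_finset_le _ _).trans ?_
    rw [← hcard]
    refine Finset.sum_le_sum fun p hp => ?_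
    have h1 := seldom_small hZ hind (A := 3 * M + 5) (C := Q) (u := u)
      (lam := -(V (gridPt h p)) / N) (δ := Λ / N) hs hB0 hBr (by rw [hQ, hB']) hu hus
      (by
        have e : Λ / N / 8 = Λ / (8 * N) := by field_simp
        rw [e]
        exact huQ) (gridPt h p) (fun i => by
          filter_upwards [hgn p hp i] with ω hω
          linarith) (by
          rw [← hVdef]
          have e : -(-(V (gridPt h p)) / N) * N = V (gridPt h p) := by field_simp
          rw [e])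
    have e1 : -(-(V (gridPt h p)) / N + Λ / N / 4) * N = V (gridPt h p) - Λ / 4 := by
      field_simp
      ring
    have e2 : -(u * (Λ / N) / 8) * N = -(u * Λ / 8) := by
      field_simp
    rw [e1, e2] at h1
    exact h1
  have f2 : P E2 ≤ ENNReal.ofReal ((2 * L + 1) ^ 2 * Real.exp (-(u * Λ / 8))) := by
    refine (measure_biUnion_finset_le _ _).trans ?_
    rw [← hcard]
    refine Finset.sum_le_sum fun p hp => ?_
    have h1 := seldom_large hZ hind (A := 3 * M + 5) (B' := B') (Q := Q) (u := u) (h := 2 * h)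
      (lam := -(V (gridPt h p)) / N) (δ := Λ / N) hs hs2 hB0 (by positivity) hBr hB' hQ hu hus
      (by
        have e : Λ / N / 8 = Λ / (8 * N) := by field_simp
        rw [e]
        exact huQ) (by
        have e : Λ / N / 8 = Λ / (8 * N) := by field_simp
        rw [e]
        exact hhB2) (gridPt h p) (hgn p hp) (by
          rw [← hVdef]
          have e : -(-(V (gridPt h p)) / N) * N = V (gridPt h p) := by field_simp
          rw [e])
    have e1 : (-(-(V (gridPt h p)) / N) + Λ / N / 2) * N = V (gridPt h p) + Λ / 2 := by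
      field_simp
    have e2 : -(u * (Λ / N) / 4) * N = -(u * Λ / 4) := by
      field_simp
    rw [e1, e2] at h1
    refine h1.trans (ENNReal.ofReal_le_ofReal (Real.exp_le_exp.mpr ?_))
    have : 0 < u * Λ := by positivity
    linarith
  have f3 : P E3 ≤ ENNReal.ofReal (N ^ 2 * (B * σ ^ s)) := by
    refine (measure_biUnion_finset_le _ _).trans ?_
    calc ∑ p ∈ D, P {ω | ‖Z p.1 ω - Z p.2 ω‖ ≤ σ} ≤
        ∑ _p ∈ D, ENNReal.ofReal (B * σ ^ s) := by
          refine Finset.sum_le_sum fun p hp => ?_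
          rw [hD, Finset.mem_filter] at hp
          exact pair_close (hZ _) (hZ _) (hind.indepFun hp.2) fun z => hB p.2 z σ hσ
      _ ≤ ENNReal.ofReal (N ^ 2 * (B * σ ^ s)) := by
          rw [Finset.sum_const, nsmul_eq_mul, ENNReal.ofReal_mul (p := (N : ℝ) ^ 2)
            (by positivity)]
          refine mul_le_mul' ?_ le_rfl
          have h5 : D.card ≤ N ^ 2 := by
            refine (Finset.card_filter_le _ _).trans ?_
            rw [Finset.card_univ, Fintype.card_prod, Fintype.card_fin, sq]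
          have h6 : ((N : ℝ) ^ 2) = ((N ^ 2 : ℕ) : ℝ) := by push_cast; rfl
          rw [h6, ENNReal.ofReal_natCast]
          exact_mod_cast h5
  refine hsub.trans ((measure_union_le _ _).trans ?_)
  rw [ENNReal.ofReal_add (by positivity) (by positivity)]
  refine add_le_add ((measure_union_le _ _).trans ?_) f3
  refine (add_le_add f1 f2).trans ?_
  rw [← ENNReal.ofReal_add (by positivity) (by positivity)]
  exact ENNReal.ofReal_le_ofReal (by linarith)

end

/-- Gaussian tails, with a power of `N` as a factor. -/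
theorem mainP0 (M s B : ℝ) (hM0 : 0 ≤ M) (hB0 : 0 ≤ B) (hs : 0 < s) (hs2 : s ≤ 2) :
    ∃ (K c : ℝ) (k : ℕ), 0 < K ∧ 0 < c ∧
      ∀ (Ω : Type) [MeasurableSpace Ω] (P : Measure Ω) [IsProbabilityMeasure P] (N : ℕ)
        (Z : Fin N → Ω → ℂ) (V : ℂ → ℝ), (∀ z, V z = ∑ i, ∫ ω, Real.log ‖z - Z i ω‖ ∂P) →
        1 ≤ N → (∀ i, Measurable (Z i)) → iIndepFun Z P →
        (∀ i, ∀ᵐ ω ∂P, ‖Z i ω‖ ≤ M) →
        (∀ (i : Fin N) (z : ℂ) (r : ℝ), 0 < r →
          P {ω | ‖Z i ω - z‖ ≤ r} ≤ ENNReal.ofReal (B * r ^ s)) →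
        ∀ Λ : ℝ, 0 < Λ →
          P {ω | ¬ GoodP V M Λ (fun i => Z i ω)} ≤
            ENNReal.ofReal (K * N ^ k * Real.exp (-(c * Λ ^ 2 / (N + Λ)))) := by
  set B' : ℝ := 1 + B * (2 : ℝ) ^ (s / 2) / (1 - ((2 : ℝ) ^ (s / 2))⁻¹) with hB'
  set Q : ℝ := 8 / (s / 2) ^ 2 * (B' + (3 * M + 5) ^ (s / 2)) with hQ
  have hB'0 : 0 < B' := by
    have h2q : 1 < (2 : ℝ) ^ (s / 2) := Real.one_lt_rpow (by norm_num) (by positivity)
    have h1 : ((2 : ℝ) ^ (s / 2))⁻¹ < 1 := inv_lt_one_of_one_lt₀ h2q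
    have h2 : 0 < 1 - ((2 : ℝ) ^ (s / 2))⁻¹ := by linarith
    positivity
  have hQ0 : 0 < Q := by positivity
  set Q1 : ℝ := max Q (1 / (2 * s)) with hQ1
  have hQ10 : 0 < Q1 := lt_max_of_lt_left hQ0
  have hQQ1 : Q ≤ Q1 := le_max_left _ _
  have hQ1s : 1 / (2 * s) ≤ Q1 := le_max_right _ _
  set c0 : ℝ := 1 / (64 * Q1) with hc0
  have hc00 : 0 < c0 := by positivity
  set ε : ℝ := min (c0 / 4) (1 / 8) with hε
  have hε0 : 0 < ε := lt_min (by positivity) (by norm_num)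
  have hεc : ε ≤ c0 / 4 := min_le_left _ _
  have hε8 : ε ≤ 1 / 8 := min_le_right _ _
  set c : ℝ := min (c0 / 2) (ε * s) with hc
  have hcpos : 0 < c := lt_min (by positivity) (by positivity)
  have hcc0 : c ≤ c0 / 2 := min_le_left _ _
  have hcεs : c ≤ ε * s := min_le_right _ _
  -- the mesh constant
  obtain ⟨κ, hκ0, hκ1, hκB⟩ : ∃ κ : ℝ, 0 < κ ∧ κ ≤ 1 / 8 ∧
      κ ^ (s / 2) * B' / (s / 2) ≤ 1 / 16 := by
    have h1 : Tendsto (fun h : ℝ => h ^ (s / 2) * B' / (s / 2)) (𝓝[>] 0)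
        (𝓝 ((0 : ℝ) ^ (s / 2) * B' / (s / 2))) := by
      have h4 : ContinuousAt (fun r : ℝ => r ^ (s / 2)) 0 :=
        Real.continuousAt_rpow_const 0 _ (Or.inr (by positivity))
      exact ((h4.tendsto.mono_left nhdsWithin_le_nhds).mul_const B').div_const _
    rw [Real.zero_rpow (by positivity), zero_mul, zero_div] at h1
    have h2 := h1.eventually_le_const (by norm_num : (0 : ℝ) < 1 / 16)
    have h3 : ∀ᶠ h : ℝ in 𝓝[>] 0, h ∈ Set.Ioc (0 : ℝ) (1 / 8) :=
      Ioc_mem_nhdsGT (by norm_num)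
    obtain ⟨h, hh⟩ := (h2.and h3).exists
    exact ⟨h, hh.2.1, hh.2.2, hh.1⟩
  set m : ℕ := ⌈2 / s⌉₊ + 2 with hm
  have hm2 : 2 ≤ m := by omega
  have hms : 1 ≤ (m : ℝ) * (s / 2) := by
    have h1 : 2 / s ≤ (m : ℝ) := by
      rw [hm]
      push_cast
      linarith [Nat.le_ceil (2 / s)]
    calc (1 : ℝ) = 2 / s * (s / 2) := by field_simp
      _ ≤ m * (s / 2) := by gcongr
  set D : ℝ := 1 + 4 * Real.log (2 * M + 2) + 8 * (Real.log (2 / κ) + 1 + m) with hD
  have hlog8 : 0 ≤ Real.log (2 * M + 2) := Real.log_nonneg (by linarith)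
  have hlogκ : 0 ≤ Real.log (2 / κ) := by
    apply Real.log_nonneg
    rw [le_div_iff₀ hκ0]
    linarith
  have hD0 : 0 < D := by positivity
  set C1 : ℝ := (2 * M + 5) ^ 2 / κ ^ 2 with hC1
  have hC10 : 0 < C1 := by positivity
  set k : ℕ := 2 * m + ⌈c * D⌉₊ with hk
  have hkm : 2 * m ≤ k := by omega
  have hkD : c * D ≤ k := by
    rw [hk]
    push_cast
    have := Nat.le_ceil (c * D)
    have : (0 : ℝ) ≤ m := Nat.cast_nonneg m
    linarith
  set K : ℝ := 2 * C1 + B + Real.exp (c * D) with hK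
  have hK0 : 0 < K := by positivity
  refine ⟨K, c, k, hK0, hcpos, ?_⟩
  intro Ω _ P _ N Z V hVdef hN hZ hind hM hB Λ hΛ
  have hN0 : (0 : ℝ) < N := by exact_mod_cast hN
  have hN1 : (1 : ℝ) ≤ N := by exact_mod_cast hN
  have hNΛ : 0 < (N : ℝ) + Λ := by positivity
  have hsq : Λ ^ 2 / (N + Λ) ≤ Λ := by
    rw [div_le_iff₀ hNΛ]
    nlinarith
  rcases le_or_gt 1 (K * N ^ k * Real.exp (-(c * Λ ^ 2 / (N + Λ)))) with htriv | hnon
  · refine prob_le_one.trans ?_
    rw [← ENNReal.ofReal_one]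
    exact ENNReal.ofReal_le_ofReal htriv
  · -- `Λ` is large
    have hlogN : 0 ≤ Real.log N := Real.log_nonneg hN1
    have hΛD : D * (1 + Real.log N) < Λ := by
      have h1 : Real.exp (c * D) * N ^ k < Real.exp (c * Λ ^ 2 / (N + Λ)) := by
        have h2 : Real.exp (c * D) * N ^ k ≤ K * N ^ k := by
          gcongr
          rw [hK]
          have : 0 ≤ 2 * C1 + B := by positivity
          linarith
        rw [Real.exp_neg, ← div_eq_mul_inv, div_lt_one (Real.exp_pos _)] at hnon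
        exact h2.trans_lt hnon
      have h2 : Real.exp (c * D) * N ^ k = Real.exp (c * D + k * Real.log N) := by
        rw [Real.exp_add, Real.exp_nat_mul, Real.exp_log hN0]
      rw [h2, Real.exp_lt_exp] at h1
      have h3 : c * D * Real.log N ≤ k * Real.log N := by gcongr
      have h4 : c * Λ ^ 2 / (N + Λ) ≤ c * Λ := by
        rw [mul_div_assoc]
        gcongr
      have h5 : c * (D * (1 + Real.log N)) < c * Λ := by nlinarith
      exact lt_of_mul_lt_mul_left h5 hcpos.le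
    have hDN : D ≤ D * (1 + Real.log N) := by nlinarith
    have hm0 : (0 : ℝ) ≤ m := Nat.cast_nonneg m
    have hΛ1 : 1 ≤ Λ := by
      have : 1 ≤ D := by
        rw [hD]
        linarith
      linarith
    set σ : ℝ := Real.exp (-(ε * Λ ^ 2 / (N + Λ))) with hσ
    have hσ0 : 0 < σ := Real.exp_pos _
    have hσ1 : σ ≤ 1 := by
      rw [hσ, Real.exp_le_one_iff]
      have : 0 ≤ ε * Λ ^ 2 / (N + Λ) := by positivity
      linarith
    have hNm0 : (0 : ℝ) < (N : ℝ) ^ m := by positivity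
    have hNm2 : (N : ℝ) ^ 2 ≤ (N : ℝ) ^ m := pow_le_pow_right₀ hN1 hm2
    set h : ℝ := κ * σ / N ^ m with hh
    have hh0 : 0 < h := by positivity
    have hh2 : h ≤ κ * σ / N ^ 2 := by
      rw [hh]
      gcongr
    have hN2 : (1 : ℝ) ≤ (N : ℝ) ^ 2 := one_le_pow₀ hN1
    have hh3 : h ≤ σ / (8 * N ^ 2) := by
      calc h ≤ κ * σ / N ^ 2 := hh2
        _ ≤ 1 / 8 * σ / N ^ 2 := by gcongr
        _ = σ / (8 * N ^ 2) := by field_simp
    have hsmall : (1 + h / (σ / N)) ^ N ≤ Real.exp (Λ / 8) := by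
      have e1 : h / (σ / N) ≤ 1 / (8 * N) := by
        calc h / (σ / N) ≤ σ / (8 * N ^ 2) / (σ / N) := by gcongr
          _ = 1 / (8 * N) := by field_simp
      calc (1 + h / (σ / N)) ^ N ≤ (Real.exp (1 / (8 * N))) ^ N := by
            have := Real.add_one_le_exp (1 / (8 * (N : ℝ)))
            have : 0 ≤ h / (σ / N) := by positivity
            gcongr
            linarith
        _ = Real.exp (1 / 8) := by
            rw [← Real.exp_nat_mul]
            congr 1
            field_simp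
        _ ≤ Real.exp (Λ / 8) := Real.exp_le_exp.mpr (by linarith)
    have hh1 : h ≤ 1 / 8 := by
      refine hh3.trans ?_
      calc σ / (8 * N ^ 2) ≤ 1 / (8 * 1) := by gcongr
        _ = 1 / 8 := by norm_num
    have hR : 2 * (M + 1) ≤ Real.exp (Λ / 4) := by
      have e1 : 2 * (M + 1) = Real.exp (Real.log (2 * M + 2)) := by
        rw [Real.exp_log (by positivity)]
        ring
      rw [e1]
      refine Real.exp_le_exp.mpr ?_
      have : 4 * Real.log (2 * M + 2) ≤ D := by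
        rw [hD]
        linarith
      linarith
    have hεΛ : ε * Λ ^ 2 / (N + Λ) ≤ Λ / 8 := by
      rw [mul_div_assoc]
      calc ε * (Λ ^ 2 / (N + Λ)) ≤ 1 / 8 * Λ := by gcongr
        _ = Λ / 8 := by ring
    have ha : Real.exp (-(Λ / 4)) ≤ h / 2 := by
      have e1 : h / 2 = Real.exp (-(ε * Λ ^ 2 / (N + Λ)) - Real.log (2 / κ) -
          m * Real.log N) := by
        rw [Real.exp_sub, Real.exp_sub, Real.exp_log (by positivity : 0 < 2 / κ),
          Real.exp_nat_mul, Real.exp_log hN0, hh, hσ]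
        field_simp
      rw [e1]
      refine Real.exp_le_exp.mpr ?_
      have e2 : 8 * (Real.log (2 / κ) + 1 + m) * (1 + Real.log N) ≤
          D * (1 + Real.log N) := by
        have : 8 * (Real.log (2 / κ) + 1 + m) ≤ D := by
          rw [hD]
          linarith
        gcongr
      nlinarith [mul_nonneg hlogκ hlogN, mul_nonneg hm0 hlogN]
    set u : ℝ := Λ / (8 * (N + Λ) * Q1) with hu
    have hu0 : 0 < u := by positivity
    have hus : u ≤ s / 4 := by
      calc u ≤ (N + Λ) / (8 * (N + Λ) * Q1) := by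
            rw [hu]
            gcongr
            linarith
        _ = 1 / (8 * Q1) := by field_simp
        _ ≤ 1 / (8 * (1 / (2 * s))) := by gcongr
        _ = s / 4 := by field_simp; norm_num
    have huQ : u * Q ≤ Λ / (8 * N) := by
      calc u * Q ≤ u * Q1 := by gcongr
        _ = Λ / (8 * (N + Λ)) := by rw [hu]; field_simp
        _ ≤ Λ / (8 * N) := by
            gcongr
            linarith
    have hhq : h ^ (s / 2) ≤ κ ^ (s / 2) / N := by
      have e2 : h ≤ κ / N ^ m := by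
        rw [hh]
        calc κ * σ / N ^ m ≤ κ * 1 / N ^ m := by gcongr
          _ = κ / N ^ m := by rw [mul_one]
      calc h ^ (s / 2) ≤ (κ / N ^ m) ^ (s / 2) :=
            Real.rpow_le_rpow hh0.le e2 (by positivity)
        _ = κ ^ (s / 2) / ((N : ℝ) ^ m) ^ (s / 2) := Real.div_rpow hκ0.le (by positivity) _
        _ ≤ κ ^ (s / 2) / N := by
          have e3 : (N : ℝ) ≤ ((N : ℝ) ^ m) ^ (s / 2) := by
            rw [← Real.rpow_natCast, ← Real.rpow_mul hN0.le]
            calc (N : ℝ) = (N : ℝ) ^ (1 : ℝ) := (Real.rpow_one _).symm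
              _ ≤ (N : ℝ) ^ ((m : ℝ) * (s / 2)) := Real.rpow_le_rpow_of_exponent_le hN1 hms
          have : 0 < κ ^ (s / 2) := Real.rpow_pos_of_pos hκ0 _
          gcongr
    have hhB16 : h ^ (s / 2) * B' / (s / 2) ≤ Λ / (16 * N) := by
      calc h ^ (s / 2) * B' / (s / 2) ≤ κ ^ (s / 2) / N * B' / (s / 2) := by gcongr
        _ = κ ^ (s / 2) * B' / (s / 2) / N := by ring
        _ ≤ 1 / 16 / N := by gcongr
        _ = 1 / (16 * N) := by field_simp
        _ ≤ Λ / (16 * N) := by gcongr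
    have h816 : Λ / (16 * N) ≤ Λ / (8 * N) := by
      gcongr
      norm_num
    have hhB : h ^ (s / 2) * B' / (s / 2) ≤ Λ / (8 * N) := hhB16.trans h816
    have hhB2 : (2 * h) ^ (s / 2) * B' / (s / 2) ≤ Λ / (8 * N) := by
      have e1 : (2 * h) ^ (s / 2) ≤ 2 * h ^ (s / 2) := by
        rw [Real.mul_rpow (by norm_num) hh0.le]
        have e2 : (2 : ℝ) ^ (s / 2) ≤ 2 := by
          calc (2 : ℝ) ^ (s / 2) ≤ (2 : ℝ) ^ (1 : ℝ) :=
                Real.rpow_le_rpow_of_exponent_le (by norm_num) (by linarith)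
            _ = 2 := Real.rpow_one 2
        have : 0 ≤ h ^ (s / 2) := Real.rpow_nonneg hh0.le _
        gcongr
      calc (2 * h) ^ (s / 2) * B' / (s / 2) ≤ 2 * h ^ (s / 2) * B' / (s / 2) := by gcongr
        _ = 2 * (h ^ (s / 2) * B' / (s / 2)) := by ring
        _ ≤ 2 * (Λ / (16 * N)) := by gcongr
        _ = Λ / (8 * N) := by field_simp; norm_num
    set L : ℕ := ⌈M / h⌉₊ + 1 with hL
    have hL1 : M / h + 1 ≤ L := by
      rw [hL]
      push_cast
      linarith [Nat.le_ceil (M / h)]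
    have hL2 : (L : ℝ) ≤ M / h + 2 := by
      rw [hL]
      push_cast
      linarith [Nat.ceil_lt_add_one (by positivity : 0 ≤ M / h)]
    have hL3 : h * L ≤ M + 2 := by
      calc h * L ≤ h * (M / h + 2) := by gcongr
        _ = M + 2 * h := by field_simp
        _ ≤ M + 2 := by linarith
    have hfin := prob_poly hZ hind V hVdef hN hM0 hs hs2 hB0 hΛ hσ0 hh0 (by linarith) hL1 hL3 hM hB
      hB' hQ hu0 hus huQ hhB hhB2 hsmall hR ha
    refine hfin.trans (ENNReal.ofReal_le_ofReal ?_)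
    set E : ℝ := Real.exp (-(c * Λ ^ 2 / (N + Λ))) with hE
    have hE0 : 0 < E := Real.exp_pos _
    have g4 : 0 ≤ Λ ^ 2 / (N + Λ) := by positivity
    have f1 : (2 * (L : ℝ) + 1) ^ 2 * (2 * Real.exp (-(u * Λ / 8))) ≤
        2 * C1 * N ^ k * E := by
      have g1 : 2 * (L : ℝ) + 1 ≤ (2 * M + 5) / h := by
        rw [le_div_iff₀ hh0]
        calc (2 * (L : ℝ) + 1) * h ≤ (2 * (M / h + 2) + 1) * h := by gcongr
          _ = 2 * M + 5 * h := by field_simp; ring
          _ ≤ 2 * M + 5 := by linarith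
      have g2 : Real.exp (-(u * Λ / 8)) = Real.exp (-(c0 * Λ ^ 2 / (N + Λ))) := by
        congr 1
        rw [hu, hc0]
        field_simp
        norm_num
      have g3 : (σ ^ 2)⁻¹ * Real.exp (-(c0 * Λ ^ 2 / (N + Λ))) ≤ E := by
        rw [hσ, sq, ← Real.exp_add, ← Real.exp_neg, ← Real.exp_add, hE]
        refine Real.exp_le_exp.mpr ?_
        have g5 : c * (Λ ^ 2 / (N + Λ)) ≤ c0 / 2 * (Λ ^ 2 / (N + Λ)) := by gcongr
        have g6 : ε * (Λ ^ 2 / (N + Λ)) ≤ c0 / 4 * (Λ ^ 2 / (N + Λ)) := by gcongr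
        have e1 : ∀ y : ℝ, y * Λ ^ 2 / (N + Λ) = y * (Λ ^ 2 / (N + Λ)) := fun y => by ring
        rw [e1, e1, e1]
        linarith
      have g7 : (N : ℝ) ^ (2 * m) ≤ (N : ℝ) ^ k := pow_le_pow_right₀ hN1 hkm
      calc (2 * (L : ℝ) + 1) ^ 2 * (2 * Real.exp (-(u * Λ / 8))) ≤
          ((2 * M + 5) / h) ^ 2 * (2 * Real.exp (-(c0 * Λ ^ 2 / (N + Λ)))) := by
            rw [g2]
            gcongr
        _ = 2 * C1 * N ^ (2 * m) * ((σ ^ 2)⁻¹ * Real.exp (-(c0 * Λ ^ 2 / (N + Λ)))) := by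
            rw [hh, hC1, pow_mul']
            field_simp
        _ ≤ 2 * C1 * N ^ k * E := by gcongr
    have f2 : (N : ℝ) ^ 2 * (B * σ ^ s) ≤ B * N ^ k * E := by
      have g1 : σ ^ s ≤ E := by
        rw [hσ, ← Real.exp_mul, hE]
        refine Real.exp_le_exp.mpr ?_
        have g5 : c * (Λ ^ 2 / (N + Λ)) ≤ ε * s * (Λ ^ 2 / (N + Λ)) := by gcongr
        have e1 : c * Λ ^ 2 / (N + Λ) = c * (Λ ^ 2 / (N + Λ)) := by ring
        have e2 : -(ε * Λ ^ 2 / (N + Λ)) * s = -(ε * s * (Λ ^ 2 / (N + Λ))) := by ring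
        rw [e1, e2]
        linarith
      have g2 : (N : ℝ) ^ 2 ≤ (N : ℝ) ^ k := pow_le_pow_right₀ hN1 (by omega)
      calc (N : ℝ) ^ 2 * (B * σ ^ s) ≤ (N : ℝ) ^ k * (B * E) := by gcongr
        _ = B * N ^ k * E := by ring
    have f3 : 0 ≤ Real.exp (c * D) * N ^ k * E := by positivity
    calc (2 * (L : ℝ) + 1) ^ 2 * (2 * Real.exp (-(u * Λ / 8))) + N ^ 2 * (B * σ ^ s) ≤
        2 * C1 * N ^ k * E + B * N ^ k * E := add_le_add f1 f2
      _ ≤ K * N ^ k * E := by
        rw [hK]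
        nlinarith

end Pool.Agent.H363Roots
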