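import Mathlib
import Pool.Agent.W327.RD.Dyn
import Pool.Agent.H363Roots.LevelDet

/-!
# Rational maps with prescribed zeros and poles: deterministic part
-/

set_option autoImplicit false

open Filter Topology Polynomial

namespace Pool.Agent.H363Roots

open Pool.Agent.W751.RD

/-- The sign: zeros count positively and poles negatively. -/
noncomputable def sg {N : ℕ} : Fin N ⊕ Fin N → ℝ := Sum.elim (fun _ => 1) (fun _ => -1)

/-- `log |R x|` for the map with the zeros `q (inl i)` and the poles `q (inr i)`. -/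
noncomputable def Lq {N : ℕ} (q : Fin N ⊕ Fin N → ℂ) (x : ℂ) : ℝ :=
  ∑ i, sg i * Real.log ‖x - q i‖

/-- `R' x / R x`. -/
noncomputable def Cq {N : ℕ} (q : Fin N ⊕ Fin N → ℂ) (x : ℂ) : ℂ :=
  ∑ i, (sg i : ℂ) * (x - q i)⁻¹

theorem abs_sg {N : ℕ} (i : Fin N ⊕ Fin N) : |sg i| = 1 := by
  rcases i with i | i <;> simp [sg]

theorem norm_sg {N : ℕ} (i : Fin N ⊕ Fin N) : ‖(sg i : ℂ)‖ = 1 := by
  rw [Complex.norm_real, Real.norm_eq_abs, abs_sg]

theorem card_idx (N : ℕ) : Fintype.card (Fin N ⊕ Fin N) = 2 * N := by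
  rw [Fintype.card_sum, Fintype.card_fin, two_mul]

theorem far_of_sum {ι : Type*} [Fintype ι] [DecidableEq ι] (q : ι → ℂ) (e : ι → ℂ)
    (he : ∀ i, ‖e i‖ = 1) (c : ℂ) {σ : ℝ} (hσ : 0 < σ)
    (hsep : ∀ i j, i ≠ j → σ < ‖q i - q j‖) (hc : ∀ i, c - q i ≠ 0)
    (hsum : ∑ i, e i * (c - q i)⁻¹ = 0) (i : ι) : σ / Fintype.card ι ≤ ‖c - q i‖ := by
  by_contra hcon
  push Not at hcon
  set n : ℕ := Fintype.card ι with hn
  have hn1 : 1 ≤ n := Fintype.card_pos_iff.mpr ⟨i⟩
  have hn0 : (0 : ℝ) < n := by exact_mod_cast hn1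
  have hfar : ∀ j, j ≠ i → σ * (n - 1) / n < ‖c - q j‖ := by
    intro j hj
    have h1 := hsep j i hj
    have h2 : ‖q j - q i‖ ≤ ‖c - q j‖ + ‖c - q i‖ := by
      have : q j - q i = (c - q i) - (c - q j) := by ring
      rw [this, add_comm]
      exact norm_sub_le _ _
    have h3 : σ * (n - 1) / n = σ - σ / n := by field_simp
    rw [h3]
    linarith
  have h4 : e i * (c - q i)⁻¹ = -∑ j ∈ Finset.univ.erase i, e j * (c - q j)⁻¹ := by
    rw [← Finset.add_sum_erase Finset.univ (fun i => e i * (c - q i)⁻¹) (Finset.mem_univ i)] at hsum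
    linear_combination hsum
  have h5 : ‖c - q i‖⁻¹ ≤ ∑ j ∈ Finset.univ.erase i, ‖c - q j‖⁻¹ := by
    have h6 : ‖c - q i‖⁻¹ = ‖e i * (c - q i)⁻¹‖ := by rw [norm_mul, he, one_mul, norm_inv]
    rw [h6, h4, norm_neg]
    refine (norm_sum_le _ _).trans (le_of_eq (Finset.sum_congr rfl fun j _ => ?_))
    rw [norm_mul, he, one_mul, norm_inv]
  have hpos : 0 < ‖c - q i‖ := norm_pos_iff.mpr (hc i)
  rcases Nat.lt_or_ge 1 n with hN2 | hN2
  · have hN2' : (0 : ℝ) < (n : ℝ) - 1 := by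
      have : (1 : ℝ) < n := by exact_mod_cast hN2
      linarith
    have h6 : ∑ j ∈ Finset.univ.erase i, ‖c - q j‖⁻¹ ≤ n / σ := by
      calc ∑ j ∈ Finset.univ.erase i, ‖c - q j‖⁻¹ ≤
          ∑ _j ∈ Finset.univ.erase i, (n / (σ * (n - 1)) : ℝ) := by
            refine Finset.sum_le_sum fun k hk => ?_
            have h7 := hfar k (Finset.ne_of_mem_erase hk)
            have h8 : 0 < σ * (n - 1) / n := by positivity
            calc ‖c - q k‖⁻¹ ≤ (σ * (n - 1) / n)⁻¹ := inv_anti₀ h8 h7.le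
              _ = n / (σ * (n - 1)) := by rw [inv_div]
        _ = n / σ := by
          rw [Finset.sum_const, Finset.card_erase_of_mem (Finset.mem_univ i), Finset.card_univ,
            ← hn, nsmul_eq_mul, Nat.cast_sub (by omega), Nat.cast_one]
          field_simp
    have h9 : n / σ < ‖c - q i‖⁻¹ := by
      rw [lt_inv_comm₀ (by positivity) hpos, inv_div]
      exact hcon
    linarith
  · have h10 : n = 1 := by omega
    have h11 : (Finset.univ.erase i : Finset ι) = ∅ := by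
      rw [← Finset.card_eq_zero, Finset.card_erase_of_mem (Finset.mem_univ i), Finset.card_univ,
        ← hn, h10]
    rw [h11, Finset.sum_empty] at h5
    have : 0 < ‖c - q i‖⁻¹ := by positivity
    linarith

theorem log_close {a b r h : ℝ} (hr : 0 < r) (ha : r ≤ a) (hb : r / 2 ≤ b) (hab : |a - b| ≤ h) :
    |Real.log a - Real.log b| ≤ 2 * h / r := by
  have ha0 : 0 < a := by linarith
  have hb0 : 0 < b := by linarith
  rw [abs_le] at hab
  have hh : 0 ≤ h := by linarith [hab.1, hab.2]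
  have h1 : Real.log a - Real.log b ≤ (a - b) / b := by
    rw [← Real.log_div ha0.ne' hb0.ne']
    have := Real.log_le_sub_one_of_pos (div_pos ha0 hb0)
    have e : (a - b) / b = a / b - 1 := by field_simp
    rw [e]
    exact this
  have h2 : Real.log b - Real.log a ≤ (b - a) / a := by
    rw [← Real.log_div hb0.ne' ha0.ne']
    have := Real.log_le_sub_one_of_pos (div_pos hb0 ha0)
    have e : (b - a) / a = b / a - 1 := by field_simp
    rw [e]
    exact this
  have h3 : (a - b) / b ≤ 2 * h / r := by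
    calc (a - b) / b ≤ h / b := by gcongr; exact hab.2
      _ ≤ h / (r / 2) := by gcongr
      _ = 2 * h / r := by field_simp
  have h4 : (b - a) / a ≤ 2 * h / r := by
    calc (b - a) / a ≤ h / a := by gcongr; linarith [hab.1]
      _ ≤ h / (r / 2) := by
        have : r / 2 ≤ a := by linarith
        gcongr
      _ = 2 * h / r := by field_simp
  rw [abs_le]
  constructor <;> linarith

theorem Lq_close {N : ℕ} (q : Fin N ⊕ Fin N → ℂ) (x g : ℂ) {r h : ℝ} (hr : 0 < r)
    (hx : ∀ i, r ≤ ‖x - q i‖) (hxg : ‖x - g‖ ≤ h) (hhr : h ≤ r / 2) :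
    |Lq q x - Lq q g| ≤ 4 * h / r * N := by
  unfold Lq
  rw [← Finset.sum_sub_distrib]
  calc |∑ i, (sg i * Real.log ‖x - q i‖ - sg i * Real.log ‖g - q i‖)| ≤
      ∑ i, |sg i * Real.log ‖x - q i‖ - sg i * Real.log ‖g - q i‖| :=
        Finset.abs_sum_le_sum_abs _ _
    _ ≤ ∑ _i : Fin N ⊕ Fin N, 2 * h / r := by
        refine Finset.sum_le_sum fun i _ => ?_
        rw [← mul_sub, abs_mul, abs_sg, one_mul]
        have h1 : |‖x - q i‖ - ‖g - q i‖| ≤ h := by
          refine (abs_norm_sub_norm_le _ _).trans ?_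
          have : x - q i - (g - q i) = x - g := by ring
          rw [this]
          exact hxg
        refine log_close hr (hx i) ?_ h1
        have h2 := hx i
        have h3 := (abs_le.mp h1).2
        linarith
    _ = 4 * h / r * N := by
        rw [Finset.sum_const, Finset.card_univ, card_idx, nsmul_eq_mul]
        push_cast
        ring

theorem Lq_elim {N : ℕ} (z w : Fin N → ℂ) (x : ℂ) :
    Lq (Sum.elim z w) x = (∑ i, Real.log ‖x - z i‖) - ∑ i, Real.log ‖x - w i‖ := by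
  unfold Lq
  rw [Fintype.sum_sum_type]
  simp only [sg, Sum.elim_inl, Sum.elim_inr, one_mul, neg_mul, Finset.sum_neg_distrib]
  ring

theorem Cq_elim {N : ℕ} (z w : Fin N → ℂ) (x : ℂ) :
    Cq (Sum.elim z w) x = (∑ i, (x - z i)⁻¹) - ∑ i, (x - w i)⁻¹ := by
  unfold Cq
  rw [Fintype.sum_sum_type]
  simp only [sg, Sum.elim_inl, Sum.elim_inr]
  push_cast
  simp only [one_mul, neg_mul, Finset.sum_neg_distrib]
  ring

theorem norm_aR {N : ℕ} (z w : Fin N → ℂ) {a x : ℂ} (ha : a ≠ 0)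
    (hx : ∀ i, x - Sum.elim z w i ≠ 0) :
    ‖a * R z w x‖ = Real.exp (Real.log ‖a‖ + Lq (Sum.elim z w) x) := by
  have hz : ∀ i, x - z i ≠ 0 := fun i => hx (Sum.inl i)
  have hw : ∀ i, x - w i ≠ 0 := fun i => hx (Sum.inr i)
  have hz' : ∀ i, ‖x - z i‖ ≠ 0 := fun i => norm_ne_zero_iff.mpr (hz i)
  have hw' : ∀ i, ‖x - w i‖ ≠ 0 := fun i => norm_ne_zero_iff.mpr (hw i)
  have ha' : ‖a‖ ≠ 0 := norm_ne_zero_iff.mpr ha
  have h1 : ‖a * R z w x‖ = ‖a‖ * ((∏ i, ‖x - z i‖) / ∏ i, ‖x - w i‖) := by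
    unfold R
    rw [W327.RD.P_eval, W327.RD.P_eval, norm_mul, norm_div, norm_prod, norm_prod]
  have h2 : 0 < ‖a‖ * ((∏ i, ‖x - z i‖) / ∏ i, ‖x - w i‖) := by
    have h3 : 0 < ∏ i, ‖x - z i‖ := Finset.prod_pos fun i _ => norm_pos_iff.mpr (hz i)
    have h4 : 0 < ∏ i, ‖x - w i‖ := Finset.prod_pos fun i _ => norm_pos_iff.mpr (hw i)
    have h5 : 0 < ‖a‖ := norm_pos_iff.mpr ha
    positivity
  rw [h1, ← Real.exp_log h2, Lq_elim, Real.log_mul ha', Real.log_div, Real.log_prod,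
    Real.log_prod]
  · exact fun i _ => hw' i
  · exact fun i _ => hz' i
  · exact Finset.prod_ne_zero_iff.mpr fun i _ => hz' i
  · exact Finset.prod_ne_zero_iff.mpr fun i _ => hw' i
  · exact div_ne_zero (Finset.prod_ne_zero_iff.mpr fun i _ => hz' i)
      (Finset.prod_ne_zero_iff.mpr fun i _ => hw' i)

theorem Pr_bounds {N : ℕ} (z : Fin N → ℂ) {M t : ℝ} {x : ℂ} (hz : ∀ i, ‖z i‖ ≤ M) (hx : ‖x‖ ≤ t)
    (hM : 0 ≤ M) (hMt : M * t ≤ 1 / 2) :
    Real.exp (-(2 * (M * t)) * N) ≤ ‖Pr z x‖ ∧ ‖Pr z x‖ ≤ Real.exp (M * t * N) := by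
  have ht : 0 ≤ t := (norm_nonneg _).trans hx
  unfold Pr
  rw [norm_prod]
  have hy : ∀ i, ‖z i * x‖ ≤ M * t := by
    intro i
    rw [norm_mul]
    have := hz i
    gcongr
  constructor
  · have h1 : Real.exp (-(2 * (M * t)) * N) = ∏ _i : Fin N, Real.exp (-(2 * (M * t))) := by
      rw [Finset.prod_const, Finset.card_univ, Fintype.card_fin, ← Real.exp_nat_mul]
      congr 1
      ring
    rw [h1]
    refine Finset.prod_le_prod (fun i _ => (Real.exp_pos _).le) fun i _ => ?_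
    have h2 : 1 - M * t ≤ ‖1 - z i * x‖ := by
      have h3 := norm_sub_norm_le (1 : ℂ) (z i * x)
      rw [norm_one] at h3
      linarith [hy i]
    refine le_trans ?_ h2
    have h4 : 0 < 1 - M * t := by linarith
    have h5 : 1 - (1 - M * t)⁻¹ ≤ Real.log (1 - M * t) := Real.one_sub_inv_le_log_of_pos h4
    rw [← Real.exp_log h4]
    refine Real.exp_le_exp.mpr (le_trans ?_ h5)
    have h6 : 0 ≤ M * t := by positivity
    have h7 : (1 - M * t)⁻¹ ≤ 1 + 2 * (M * t) := by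
      rw [inv_le_iff_one_le_mul₀ h4]
      nlinarith
    linarith
  · have h1 : Real.exp (M * t * N) = ∏ _i : Fin N, Real.exp (M * t) := by
      rw [Finset.prod_const, Finset.card_univ, Fintype.card_fin, ← Real.exp_nat_mul]
      congr 1
      ring
    rw [h1]
    refine Finset.prod_le_prod (fun i _ => norm_nonneg _) fun i _ => ?_
    have h2 : ‖1 - z i * x‖ ≤ 1 + M * t := by
      have h3 := norm_sub_le (1 : ℂ) (z i * x)
      rw [norm_one] at h3
      linarith [hy i]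
    have h3 := Real.add_one_le_exp (M * t)
    linarith

theorem off_of {s t E η N : ℝ} {v : ℂ} (hv : ‖v‖ = Real.exp E) (hE : η / 2 * N ≤ |E|)
    (h4t : 4 / t < Real.exp (η / 2 * N)) (hs4 : Real.exp (-(η / 2) * N) < s / 4) : Off s t v := by
  rcases le_total 0 E with h | h
  · rw [abs_of_nonneg h] at hE
    right
    rw [hv]
    exact h4t.trans_le (Real.exp_le_exp.mpr hE)
  · rw [abs_of_nonpos h] at hE
    left
    rw [hv]
    refine lt_of_le_of_lt (Real.exp_le_exp.mpr ?_) hs4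
    linarith

theorem R_eq_Pr {N : ℕ} (z w : Fin N → ℂ) {c : ℂ} (hc : c ≠ 0) :
    R z w c = Pr z c⁻¹ / Pr w c⁻¹ := by
  unfold R Pr
  rw [W327.RD.P_eval, W327.RD.P_eval]
  have h1 : ∀ q : Fin N → ℂ, ∏ i, (c - q i) = c ^ N * ∏ i, (1 - q i * c⁻¹) := by
    intro q
    have h2 : c ^ N = ∏ _i : Fin N, c := by simp
    rw [h2, ← Finset.prod_mul_distrib]
    refine Finset.prod_congr rfl fun i _ => ?_
    field_simp
  rw [h1 z, h1 w, mul_div_mul_left _ _ (pow_ne_zero _ hc)]

theorem eval_derivative_P {N : ℕ} (z : Fin N → ℂ) (c : ℂ) (h : ∀ i, c - z i ≠ 0) :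
    (derivative (Pool.Agent.W751.CD.P z)).eval c =
      (Pool.Agent.W751.CD.P z).eval c * ∑ i, (c - z i)⁻¹ := by
  have e : Pool.Agent.W751.CD.P z = wr z := rfl
  rw [e]
  rcases Nat.eq_zero_or_pos N with h0 | h0
  · subst h0
    simp [wr]
  · have h1 := eval_derivative_wr z c ⟨0, h0⟩ (fun j _ => h j)
    have h2 : (1 : ℂ) = (c - z ⟨0, h0⟩) * (c - z ⟨0, h0⟩)⁻¹ := (mul_inv_cancel₀ (h _)).symm
    have h3 : 1 + (c - z ⟨0, h0⟩) * ∑ k ∈ Finset.univ.erase ⟨0, h0⟩, (c - z k)⁻¹ =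
        (c - z ⟨0, h0⟩) * ∑ i, (c - z i)⁻¹ := by
      rw [← Finset.add_sum_erase Finset.univ (fun i => (c - z i)⁻¹) (Finset.mem_univ ⟨0, h0⟩),
        mul_add, ← h2]
    rw [h1, h3, eval_wr, ← Finset.mul_prod_erase Finset.univ (fun i => c - z i)
      (Finset.mem_univ ⟨0, h0⟩)]
    ring

/-- The deterministic part for rational maps. -/
theorem rat_det {N : ℕ} (hN : 1 ≤ N) (z w : Fin N → ℂ) (V : ℂ → ℝ) (C0 : ℂ → ℂ)
    (Far : ℂ → Prop) {M η σ h h0 t : ℝ} {L : ℕ} (S : Set ℂ)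
    (hM0 : 0 ≤ M) (hη : 0 < η) (hσ : 0 < σ) (hh : 0 < h) (hh0 : 0 < h0) (ht : 0 < t)
    (hq : ∀ i, ‖Sum.elim z w i‖ ≤ M) (hq0 : ∀ i, σ < ‖Sum.elim z w i‖)
    (hsep : ∀ i j, i ≠ j → σ < ‖Sum.elim z w i - Sum.elim z w j‖)
    (hV : ∀ v x : ℂ, ‖v - x‖ ≤ h0 → |V v - V x| ≤ η / 32 * N)
    (hgrid : ∀ p ∈ Finset.Icc (-(L : ℤ)) L ×ˢ Finset.Icc (-(L : ℤ)) L,
      |Lq (Sum.elim z w) (gridPt h p) - V (gridPt h p)| ≤ η / 16 * N)
    (hL : (1 / t) / h + 1 ≤ L)
    (hS : ∀ x : ℂ, ‖x‖ ≤ 1 / t → ∃ g ∈ S, ‖x - g‖ ≤ h0 / 2)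
    (hS2 : ∀ g ∈ S, Far g → (∀ i, η ≤ ‖g - Sum.elim z w i‖) ∧
      ‖Cq (Sum.elim z w) g - C0 g‖ ≤ η / 4 * N)
    (hhh0 : h ≤ h0) (hsm : 8 * N * h / σ ≤ η / 16) (hsm' : h ≤ σ / (4 * N))
    (hh0η : h0 ≤ η) (hh0η3 : h0 ≤ η ^ 3 / 8)
    (hMt : M * t ≤ 1 / 2) (hMt' : 3 * (M * t) ≤ η / 2)
    (h4t : 4 / t < Real.exp (η / 2 * N)) (hs4 : Real.exp (-(η / 2) * N) < h / 4) (hht : h < 1 / t)
    (a : ℂ) (ha : a ≠ 0) (hb : η * N ≤ |Real.log ‖a‖|) (h0b : η * N ≤ |V 0 + Real.log ‖a‖|)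
    (hlev : ∀ x : ℂ, |V x + Real.log ‖a‖| ≤ η * N → Far x ∧ η * N ≤ ‖C0 x‖) :
    Pool.Agent.H762R2.Rt.Hyp (C a * Pool.Agent.W751.CD.P z) (Pool.Agent.W751.CD.P w) := by
  have hN0 : (0 : ℝ) < N := by exact_mod_cast hN
  have hN1 : (1 : ℝ) ≤ N := by exact_mod_cast hN
  have hηN : 0 < η * N := by positivity
  -- closeness of `log |R|` to its mean
  have hclose : ∀ (x : ℂ) (r : ℝ), ‖x‖ ≤ 1 / t → 0 < r → h ≤ r / 2 → 4 * h / r ≤ η / 16 →
      (∀ i, r ≤ ‖x - Sum.elim z w i‖) → |Lq (Sum.elim z w) x - V x| ≤ 5 * η / 32 * N := by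
    intro x r hx hr hhr h4 hxq
    obtain ⟨p, hp, hpx⟩ := grid_near hh hL x hx
    have h1 := hgrid p hp
    have h2 := Lq_close (Sum.elim z w) x (gridPt h p) hr hxq hpx hhr
    have h3 : 4 * h / r * N ≤ η / 16 * N := by gcongr
    have h5 := hV (gridPt h p) x (by rw [norm_sub_rev]; exact hpx.trans hhh0)
    rw [abs_le] at h1 h2 h5 ⊢
    constructor <;> linarith [h1.1, h1.2, h2.1, h2.2, h5.1, h5.2]
  have hsN : σ / (4 * N) ≤ σ / 4 := by
    gcongr
    linarith
  have hhσ : h ≤ σ / 4 := hsm'.trans hsN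
  have hzw : ∀ i j, z i ≠ w j := by
    intro i j hij
    have h1 := hsep (Sum.inl i) (Sum.inr j) (by simp)
    simp only [Sum.elim_inl, Sum.elim_inr] at h1
    rw [hij, sub_self, norm_zero] at h1
    linarith
  have hPw : ∀ x : ℂ, (∀ i, x - Sum.elim z w i ≠ 0) →
      (Pool.Agent.W751.CD.P w).eval x ≠ 0 := by
    intro x hx
    rw [W327.RD.P_eval, Finset.prod_ne_zero_iff]
    exact fun i _ => hx (Sum.inr i)
  -- the neighbourhood of infinity
  have hinf : ∀ x : ℂ, ‖x‖ ≤ t → Pr w x ≠ 0 ∧ Off h t (a * (Pr z x / Pr w x)) := by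
    intro x hx
    obtain ⟨hz1, hz2⟩ := Pr_bounds z (fun i => hq (Sum.inl i)) hx hM0 hMt
    obtain ⟨hw1, hw2⟩ := Pr_bounds w (fun i => hq (Sum.inr i)) hx hM0 hMt
    have hz0 : 0 < ‖Pr z x‖ := (Real.exp_pos _).trans_le hz1
    have hw0 : 0 < ‖Pr w x‖ := (Real.exp_pos _).trans_le hw1
    refine ⟨norm_pos_iff.mp hw0, ?_⟩
    have ha0 : 0 < ‖a‖ := norm_pos_iff.mpr ha
    have h1 : ‖a * (Pr z x / Pr w x)‖ = Real.exp (Real.log ‖a‖ + (Real.log ‖Pr z x‖ -
        Real.log ‖Pr w x‖)) := by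
      rw [norm_mul, norm_div, Real.exp_add, Real.exp_sub, Real.exp_log ha0, Real.exp_log hz0,
        Real.exp_log hw0]
    have e1 : -(2 * (M * t)) * N ≤ Real.log ‖Pr z x‖ := by
      rw [← Real.log_exp (-(2 * (M * t)) * N)]
      exact Real.log_le_log (Real.exp_pos _) hz1
    have e2 : Real.log ‖Pr z x‖ ≤ M * t * N := by
      rw [← Real.log_exp (M * t * N)]
      exact Real.log_le_log hz0 hz2
    have e3 : -(2 * (M * t)) * N ≤ Real.log ‖Pr w x‖ := by
      rw [← Real.log_exp (-(2 * (M * t)) * N)]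
      exact Real.log_le_log (Real.exp_pos _) hw1
    have e4 : Real.log ‖Pr w x‖ ≤ M * t * N := by
      rw [← Real.log_exp (M * t * N)]
      exact Real.log_le_log hw0 hw2
    have e5 : |Real.log ‖Pr z x‖ - Real.log ‖Pr w x‖| ≤ η / 2 * N := by
      have e6 : 3 * (M * t) * N ≤ η / 2 * N := by gcongr
      rw [abs_le]
      constructor <;> linarith
    refine off_of (N := (N : ℝ)) h1 ?_ h4t hs4
    have e7 := abs_sub_abs_le_abs_sub (Real.log ‖a‖) (-(Real.log ‖Pr z x‖ - Real.log ‖Pr w x‖))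
    rw [abs_neg, sub_neg_eq_add] at e7
    linarith
  refine W327.RD.rdyn N hN z w a h t ha hh ht hht hzw ?_ hinf ?_
  · -- the neighbourhood of zero
    intro x hx
    have hxq : ∀ i, σ / 2 ≤ ‖x - Sum.elim z w i‖ := by
      intro i
      have h1 := hq0 i
      have h2 := norm_sub_norm_le (Sum.elim z w i) x
      rw [norm_sub_rev] at h2
      linarith
    have hx0 : ∀ i, x - Sum.elim z w i ≠ 0 := by
      intro i h1
      have h2 := hxq i
      rw [h1, norm_zero] at h2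
      linarith
    refine ⟨hPw x hx0, ?_⟩
    have h8 : 4 * h / (σ / 2) ≤ η / 16 := by
      refine le_trans ?_ hsm
      have e1 : 4 * h / (σ / 2) = 8 * 1 * h / σ := by field_simp; ring
      rw [e1]
      gcongr
    have h1 := hclose x (σ / 2) (hx.trans hht.le) (by positivity) (by linarith) h8 hxq
    have h2 := hV x 0 (by rw [sub_zero]; exact hx.trans hhh0)
    refine off_of (N := (N : ℝ)) (norm_aR z w ha hx0) ?_ h4t hs4
    have h3 : |Real.log ‖a‖ + Lq (Sum.elim z w) x - (V 0 + Real.log ‖a‖)| ≤ η / 2 * N := by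
      rw [abs_le] at h1 h2 ⊢
      constructor <;> linarith [h1.1, h1.2, h2.1, h2.2]
    have h4 := abs_sub_abs_le_abs_sub (V 0 + Real.log ‖a‖) (Real.log ‖a‖ + Lq (Sum.elim z w) x)
    rw [abs_sub_comm] at h4
    linarith
  · -- the critical points
    intro c hcw hcz hcrit hnoff
    exfalso
    apply hnoff
    rw [W327.RD.P_eval, Finset.prod_ne_zero_iff] at hcw hcz
    have hcq : ∀ i, c - Sum.elim z w i ≠ 0 := by
      intro i
      rcases i with i | i
      · exact hcz i (Finset.mem_univ i)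
      · exact hcw i (Finset.mem_univ i)
    have hCq : Cq (Sum.elim z w) c = 0 := by
      rw [Cq_elim]
      have h1 := eval_derivative_P z c fun i => hcz i (Finset.mem_univ i)
      have h2 := eval_derivative_P w c fun i => hcw i (Finset.mem_univ i)
      unfold Pool.Agent.H762R2.Rt.wro at hcrit
      rw [eval_sub, eval_mul, eval_mul, h1, h2] at hcrit
      have h3 : (Pool.Agent.W751.CD.P z).eval c ≠ 0 := by
        rw [W327.RD.P_eval, Finset.prod_ne_zero_iff]; exact hcz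
      have h4 : (Pool.Agent.W751.CD.P w).eval c ≠ 0 := by
        rw [W327.RD.P_eval, Finset.prod_ne_zero_iff]; exact hcw
      have h5 : (Pool.Agent.W751.CD.P z).eval c * (Pool.Agent.W751.CD.P w).eval c *
          ((∑ i, (c - z i)⁻¹) - ∑ i, (c - w i)⁻¹) = 0 := by
        linear_combination hcrit
      rcases mul_eq_zero.mp h5 with h6 | h6
      · exact absurd h6 (mul_ne_zero h3 h4)
      · exact h6
    rcases le_or_gt (1 / t) ‖c‖ with hct | hct
    · have hc0 : c ≠ 0 := by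
        intro h1
        rw [h1, norm_zero] at hct
        have : 0 < 1 / t := by positivity
        linarith
      rw [R_eq_Pr z w hc0]
      refine (hinf c⁻¹ ?_).2
      rw [norm_inv]
      calc ‖c‖⁻¹ ≤ (1 / t)⁻¹ := inv_anti₀ (by positivity) hct
        _ = t := by rw [one_div, inv_inv]
    · have hfar := far_of_sum (Sum.elim z w) (fun i => (sg i : ℂ)) norm_sg c hσ hsep hcq hCq
      rw [card_idx] at hfar
      push_cast at hfar
      have h8 : 4 * h / (σ / (2 * N)) ≤ η / 16 := by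
        have e1 : 4 * h / (σ / (2 * N)) = 8 * N * h / σ := by field_simp; ring
        rw [e1]
        exact hsm
      have h9 : h ≤ σ / (2 * N) / 2 := by
        have e1 : σ / (2 * N) / 2 = σ / (4 * (N : ℝ)) := by field_simp; ring
        rw [e1]
        exact hsm'
      have h1 := hclose c (σ / (2 * N)) hct.le (by positivity) h9 h8 hfar
      rcases le_or_gt (3 * η / 4 * N) |V c + Real.log ‖a‖| with h2 | h2
      · refine off_of (N := (N : ℝ)) (norm_aR z w ha hcq) ?_ h4t hs4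
        have h3 : |(V c + Real.log ‖a‖) - (Real.log ‖a‖ + Lq (Sum.elim z w) c)| ≤
            5 * η / 32 * N := by
          rw [abs_le] at h1 ⊢
          constructor <;> linarith [h1.1, h1.2]
        have h4 := abs_sub_abs_le_abs_sub (V c + Real.log ‖a‖)
          (Real.log ‖a‖ + Lq (Sum.elim z w) c)
        linarith
      · exfalso
        obtain ⟨g, hg, hcg⟩ := hS c hct.le
        have h3 := hV g c (by rw [norm_sub_rev]; linarith)
        have h4 : |V g + Real.log ‖a‖| ≤ η * N := by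
          rw [abs_lt] at h2
          rw [abs_le] at h3 ⊢
          constructor <;> linarith [h2.1, h2.2, h3.1, h3.2]
        obtain ⟨hFar, hC0⟩ := hlev g h4
        obtain ⟨hgq, hgC⟩ := hS2 g hg hFar
        have hcq2 : ∀ i, η / 2 ≤ ‖c - Sum.elim z w i‖ := by
          intro i
          have h5 := hgq i
          have h6 : ‖g - Sum.elim z w i‖ ≤ ‖c - Sum.elim z w i‖ + ‖c - g‖ := by
            have : g - Sum.elim z w i = (c - Sum.elim z w i) - (c - g) := by ring
            rw [this]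
            exact norm_sub_le _ _
          linarith
        have hgz0 : ∀ i, g - Sum.elim z w i ≠ 0 := by
          intro i h0
          have := hgq i
          rw [h0, norm_zero] at this
          linarith
        have hdiff : ‖Cq (Sum.elim z w) g - Cq (Sum.elim z w) c‖ ≤ η / 4 * N := by
          unfold Cq
          rw [← Finset.sum_sub_distrib]
          calc ‖∑ i, ((sg i : ℂ) * (g - Sum.elim z w i)⁻¹ -
                (sg i : ℂ) * (c - Sum.elim z w i)⁻¹)‖ ≤
              ∑ i, ‖(sg i : ℂ) * (g - Sum.elim z w i)⁻¹ -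
                (sg i : ℂ) * (c - Sum.elim z w i)⁻¹‖ := norm_sum_le _ _
            _ ≤ ∑ _i : Fin N ⊕ Fin N, η / 8 := by
                refine Finset.sum_le_sum fun i _ => ?_
                have e1 : (sg i : ℂ) * (g - Sum.elim z w i)⁻¹ -
                    (sg i : ℂ) * (c - Sum.elim z w i)⁻¹ = (sg i : ℂ) * ((c - g) *
                      ((g - Sum.elim z w i)⁻¹ * (c - Sum.elim z w i)⁻¹)) := by
                  have := hcq i
                  have := hgz0 i
                  field_simp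
                  ring
                rw [e1, norm_mul, norm_sg, one_mul, norm_mul, norm_mul, norm_inv, norm_inv]
                have e2 : ‖g - Sum.elim z w i‖⁻¹ ≤ η⁻¹ := inv_anti₀ hη (hgq i)
                have e3 : ‖c - Sum.elim z w i‖⁻¹ ≤ (η / 2)⁻¹ :=
                  inv_anti₀ (by positivity) (hcq2 i)
                calc ‖c - g‖ * (‖g - Sum.elim z w i‖⁻¹ * ‖c - Sum.elim z w i‖⁻¹) ≤
                    (h0 / 2) * (η⁻¹ * (η / 2)⁻¹) := by gcongr
                  _ = h0 / η ^ 2 := by field_simp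
                  _ ≤ (η ^ 3 / 8) / η ^ 2 := by gcongr
                  _ = η / 8 := by field_simp
            _ = η / 4 * N := by
                rw [Finset.sum_const, Finset.card_univ, card_idx, nsmul_eq_mul]
                push_cast
                ring
        rw [hCq, sub_zero] at hdiff
        have h7 := norm_sub_norm_le (C0 g) (Cq (Sum.elim z w) g)
        rw [norm_sub_rev] at h7
        linarith

end Pool.Agent.H363Roots
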