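import Mathlib
import Pool.Agent.H363Roots.RatDet
import Pool.Agent.H363Roots.Cauchy

/-!
# Rational maps with random zeros and poles: probabilities
-/

set_option autoImplicit false

open MeasureTheory ProbabilityTheory Filter Topology Polynomial

namespace Pool.Agent.H363Roots

section

variable {Ω : Type*} [MeasurableSpace Ω] {P : Measure Ω}

theorem chernoffG [IsProbabilityMeasure P] {ι : Type*} [Fintype ι] {X : ι → Ω → ℝ}
    (hX : ∀ i, Measurable (X i)) (hind : iIndepFun X P) {v : ι → ℝ} {a : ℝ} {b : ι → ℝ}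
    (hb : ∀ i, ∫⁻ ω, ENNReal.ofReal (X i ω ^ v i) ∂P ≤ ENNReal.ofReal (Real.exp (b i))) :
    P {ω | ENNReal.ofReal (Real.exp a) ≤ ∏ i, ENNReal.ofReal (X i ω ^ v i)} ≤
      ENNReal.ofReal (Real.exp ((∑ i, b i) - a)) := by
  have hm : ∀ i, Measurable fun ω => ENNReal.ofReal (X i ω ^ v i) := fun i =>
    ((hX i).pow_const (v i)).ennreal_ofReal
  have hind2 : iIndepFun (fun i ω => ENNReal.ofReal (X i ω ^ v i)) P :=
    hind.comp (fun i x => ENNReal.ofReal (x ^ v i)) fun i =>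
      (measurable_id.pow_const (v i)).ennreal_ofReal
  have h1 : ∫⁻ ω, ∏ i, ENNReal.ofReal (X i ω ^ v i) ∂P ≤
      ENNReal.ofReal (Real.exp (∑ i, b i)) := by
    rw [lintegral_prod_eq_prod_lintegral_of_indepFun Finset.univ _ hind2 hm, Real.exp_sum,
      ENNReal.ofReal_prod_of_nonneg fun i _ => (Real.exp_pos _).le]
    exact Finset.prod_le_prod' fun i _ => hb i
  have h2 := mul_meas_ge_le_lintegral (μ := P) (f := fun ω => ∏ i, ENNReal.ofReal (X i ω ^ v i))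
    (Finset.measurable_fun_prod _ fun i _ => hm i) (ENNReal.ofReal (Real.exp a))
  have h3 := h2.trans h1
  have ha0 : ENNReal.ofReal (Real.exp a) ≠ 0 := by
    rw [Ne, ENNReal.ofReal_eq_zero, not_le]
    exact Real.exp_pos a
  rw [Real.exp_sub, ENNReal.ofReal_div_of_pos (Real.exp_pos a),
    ENNReal.le_div_iff_mul_le (Or.inl ha0) (Or.inl ENNReal.ofReal_ne_top), mul_comm]
  exact h3

/-- The mean of `log |R|`. -/
noncomputable def Vq (P : Measure Ω) {N : ℕ} (X : Fin N ⊕ Fin N → Ω → ℂ) (x : ℂ) : ℝ :=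
  ∑ i, sg i * ∫ ω, Real.log ‖x - X i ω‖ ∂P

/-- The mean of `R' / R`. -/
noncomputable def Wq (P : Measure Ω) {N : ℕ} (X : Fin N ⊕ Fin N → Ω → ℂ) (x : ℂ) : ℂ :=
  ∑ i, (sg i : ℂ) * ∫ ω, (x - X i ω)⁻¹ ∂P

theorem conc_one [IsProbabilityMeasure P] {N : ℕ} {X : Fin N ⊕ Fin N → Ω → ℂ}
    (hX : ∀ i, Measurable (X i)) (hind : iIndepFun X P) {A s B B' Q u d τ : ℝ} (hs : 0 < s)
    (hB0 : 0 ≤ B) (hτ : |τ| = 1)
    (hB : ∀ (i : Fin N ⊕ Fin N) (z : ℂ) (r : ℝ), 0 < r →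
      P {ω | ‖z - X i ω‖ ≤ r} ≤ ENNReal.ofReal (B * r ^ s))
    (hB' : B' = 1 + B * (2 : ℝ) ^ (s / 2) / (1 - ((2 : ℝ) ^ (s / 2))⁻¹))
    (hQ : Q = 8 / (s / 2) ^ 2 * (B' + A ^ (s / 2))) (hu : 0 < u) (hus : u ≤ s / 4)
    (huQ : u * Q ≤ d / 4) (g : ℂ) (hA : ∀ i, ∀ᵐ ω ∂P, ‖g - X i ω‖ ≤ A) :
    P {ω | d * N < τ * (Lq (fun i => X i ω) g - Vq P X g)} ≤
      ENNReal.ofReal (Real.exp (-(u * d / 2) * N)) := by
  have hmX : ∀ i, Measurable fun ω => ‖g - X i ω‖ := fun i => (measurable_const.sub (hX i)).norm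
  have hindX : iIndepFun (fun i ω => ‖g - X i ω‖) P :=
    hind.comp (fun _ x => ‖g - x‖) fun _ => (measurable_const.sub measurable_id).norm
  have h2q : 1 < (2 : ℝ) ^ (s / 2) := Real.one_lt_rpow (by norm_num) (by positivity)
  have hB'0 : 0 ≤ B' := by
    rw [hB']
    have h1 : ((2 : ℝ) ^ (s / 2))⁻¹ < 1 := inv_lt_one_of_one_lt₀ h2q
    have h2 : 0 < 1 - ((2 : ℝ) ^ (s / 2))⁻¹ := by linarith
    positivity
  have hmgf := fun i => mgf (hmX i) (frost_pos hs (hB i g)) (hA i) (by positivity : 0 < s / 2)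
    hB'0 (by rw [hB']; exact frost_moment (hmX i) hs hB0 (hB i g))
  have hv : ∀ i : Fin N ⊕ Fin N, |u * τ * sg i| = u := by
    intro i
    rw [abs_mul, abs_mul, hτ, abs_sg, mul_one, mul_one, abs_of_pos hu]
  have hb : ∀ i, ∫⁻ ω, ENNReal.ofReal (‖g - X i ω‖ ^ (u * τ * sg i)) ∂P ≤
      ENNReal.ofReal (Real.exp (u * τ * sg i * (∫ ω, Real.log ‖g - X i ω‖ ∂P) + u ^ 2 * Q)) := by
    intro i
    have h3 := (hmgf i).2.2.2 (u * τ * sg i) (by rw [hv]; linarith)
    rw [← hQ] at h3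
    have h4 : (u * τ * sg i) ^ 2 = u ^ 2 := by rw [← sq_abs, hv]
    rw [h4] at h3
    exact h3
  have hch := chernoffG hmX hindX (v := fun i => u * τ * sg i)
    (a := u * τ * Vq P X g + u * d * N) hb
  have hposall : ∀ᵐ ω ∂P, ∀ i, 0 < ‖g - X i ω‖ := by
    rw [ae_all_iff]
    exact fun i => frost_pos hs (hB i g)
  calc P {ω | d * N < τ * (Lq (fun i => X i ω) g - Vq P X g)} ≤
      P {ω | ENNReal.ofReal (Real.exp (u * τ * Vq P X g + u * d * N)) ≤
        ∏ i, ENNReal.ofReal (‖g - X i ω‖ ^ (u * τ * sg i))} := by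
        refine measure_mono_ae ?_
        filter_upwards [hposall] with ω hω h4
        have h4' : d * N < τ * (Lq (fun i => X i ω) g - Vq P X g) := h4
        show ENNReal.ofReal (Real.exp (u * τ * Vq P X g + u * d * N)) ≤
          ∏ i, ENNReal.ofReal (‖g - X i ω‖ ^ (u * τ * sg i))
        rw [← ENNReal.ofReal_prod_of_nonneg fun i _ => (Real.rpow_pos_of_pos (hω i) _).le]
        refine ENNReal.ofReal_le_ofReal ?_
        have h5 : ∏ i, ‖g - X i ω‖ ^ (u * τ * sg i) =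
            Real.exp (u * τ * Lq (fun i => X i ω) g) := by
          unfold Lq
          rw [Finset.mul_sum, Real.exp_sum]
          refine Finset.prod_congr rfl fun i _ => ?_
          rw [Real.rpow_def_of_pos (hω i)]
          congr 1
          ring
        rw [h5]
        refine Real.exp_le_exp.mpr ?_
        have h6 : u * (d * N) ≤ u * (τ * (Lq (fun i => X i ω) g - Vq P X g)) := by gcongr
        linarith
    _ ≤ ENNReal.ofReal (Real.exp ((∑ i, (u * τ * sg i * (∫ ω, Real.log ‖g - X i ω‖ ∂P) +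
        u ^ 2 * Q)) - (u * τ * Vq P X g + u * d * N))) := hch
    _ ≤ _ := by
        refine ENNReal.ofReal_le_ofReal (Real.exp_le_exp.mpr ?_)
        rw [Finset.sum_add_distrib, Finset.sum_const, Finset.card_univ, card_idx, nsmul_eq_mul]
        have h5 : ∑ i, u * τ * sg i * (∫ ω, Real.log ‖g - X i ω‖ ∂P) = u * τ * Vq P X g := by
          unfold Vq
          rw [Finset.mul_sum]
          exact Finset.sum_congr rfl fun i _ => by ring
        rw [h5]
        have hN0 : (0 : ℝ) ≤ N := Nat.cast_nonneg N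
        have h6 : u * (u * Q) ≤ u * (d / 4) := by gcongr
        push_cast
        nlinarith [mul_le_mul_of_nonneg_left h6 hN0]

theorem conc [IsProbabilityMeasure P] {N : ℕ} {X : Fin N ⊕ Fin N → Ω → ℂ}
    (hX : ∀ i, Measurable (X i)) (hind : iIndepFun X P) {A s B B' Q u d : ℝ} (hs : 0 < s)
    (hB0 : 0 ≤ B)
    (hB : ∀ (i : Fin N ⊕ Fin N) (z : ℂ) (r : ℝ), 0 < r →
      P {ω | ‖z - X i ω‖ ≤ r} ≤ ENNReal.ofReal (B * r ^ s))
    (hB' : B' = 1 + B * (2 : ℝ) ^ (s / 2) / (1 - ((2 : ℝ) ^ (s / 2))⁻¹))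
    (hQ : Q = 8 / (s / 2) ^ 2 * (B' + A ^ (s / 2))) (hu : 0 < u) (hus : u ≤ s / 4)
    (huQ : u * Q ≤ d / 4) (g : ℂ) (hA : ∀ i, ∀ᵐ ω ∂P, ‖g - X i ω‖ ≤ A) :
    P {ω | ¬ |Lq (fun i => X i ω) g - Vq P X g| ≤ d * N} ≤
      ENNReal.ofReal (2 * Real.exp (-(u * d / 2) * N)) := by
  have h1 := conc_one hX hind hs hB0 (τ := 1) (by norm_num) hB hB' hQ hu hus huQ g hA
  have h2 := conc_one hX hind hs hB0 (τ := -1) (by norm_num) hB hB' hQ hu hus huQ g hA
  have hsub : {ω | ¬ |Lq (fun i => X i ω) g - Vq P X g| ≤ d * N} ⊆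
      {ω | d * N < 1 * (Lq (fun i => X i ω) g - Vq P X g)} ∪
        {ω | d * N < -1 * (Lq (fun i => X i ω) g - Vq P X g)} := by
    intro ω hω
    have hω' : ¬ |Lq (fun i => X i ω) g - Vq P X g| ≤ d * N := hω
    by_contra hcon
    apply hω'
    simp only [Set.mem_union, Set.mem_ofPred_eq, not_or, not_lt] at hcon
    rw [abs_le]
    constructor <;> linarith [hcon.1, hcon.2]
  refine (measure_mono hsub).trans ((measure_union_le _ _).trans ((add_le_add h1 h2).trans ?_))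
  rw [← ENNReal.ofReal_add (by positivity) (by positivity)]
  refine ENNReal.ofReal_le_ofReal (le_of_eq ?_)
  ring

/-- Hoeffding, for `2 N` variables. -/
theorem hoeffG [IsProbabilityMeasure P] {N : ℕ} (hN : 1 ≤ N) {X : Fin N ⊕ Fin N → Ω → ℝ}
    (hX : ∀ i, Measurable (X i)) (hind : iIndepFun X P) {a b : ℝ} (ha : 0 ≤ a) (hb : 0 < b)
    (hXb : ∀ i, ∀ᵐ ω ∂P, |X i ω| ≤ b) :
    P {ω | a * N ≤ ∑ i, (X i ω - ∫ ω, X i ω ∂P)} ≤
      ENNReal.ofReal (Real.exp (-(a ^ 2 / (4 * b ^ 2)) * N)) := by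
  have hsub : ∀ i ∈ (Finset.univ : Finset (Fin N ⊕ Fin N)),
      HasSubgaussianMGF (fun ω => X i ω - ∫ ω, X i ω ∂P) ((‖b - -b‖₊ / 2) ^ 2) P := by
    intro i _
    refine hasSubgaussianMGF_of_mem_Icc (hX i).aemeasurable ?_
    filter_upwards [hXb i] with ω hω
    exact ⟨(abs_le.mp hω).1, (abs_le.mp hω).2⟩
  have hind2 : iIndepFun (fun i ω => X i ω - ∫ ω, X i ω ∂P) P :=
    hind.comp (fun i x => x - ∫ ω, X i ω ∂P) fun _ => measurable_id.sub_const _
  have hN0 : (0 : ℝ) < N := by exact_mod_cast hN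
  have h1 := HasSubgaussianMGF.measure_sum_ge_le_of_iIndepFun hind2 (s := Finset.univ) hsub
    (ε := a * N) (by positivity)
  have h2 : P {ω | a * N ≤ ∑ i, (X i ω - ∫ ω, X i ω ∂P)} =
      ENNReal.ofReal (P.real {ω | a * N ≤ ∑ i, (X i ω - ∫ ω, X i ω ∂P)}) := by
    rw [Measure.real, ENNReal.ofReal_toReal (measure_ne_top _ _)]
  rw [h2]
  refine ENNReal.ofReal_le_ofReal (h1.trans (le_of_eq ?_))
  congr 1
  rw [Finset.sum_const, Finset.card_univ, card_idx]
  have h3 : ((((2 * N) • ((‖b - -b‖₊ / 2) ^ 2 : NNReal) : NNReal)) : ℝ) = 2 * N * b ^ 2 := by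
    rw [nsmul_eq_mul]
    push_cast
    rw [Real.norm_of_nonneg (by linarith)]
    ring
  rw [h3]
  field_simp
  norm_num

/-- Concentration of `R' / R` at a point far from the zeros and poles. -/
theorem cauchyG [IsProbabilityMeasure P] {N : ℕ} (hN : 1 ≤ N) {X : Fin N ⊕ Fin N → Ω → ℂ}
    (hX : ∀ i, Measurable (X i)) (hind : iIndepFun X P) {η : ℝ} (hη : 0 < η) (g : ℂ)
    (hfar : ∀ i, ∀ᵐ ω ∂P, η ≤ ‖g - X i ω‖) :
    P {ω | ¬ ‖Cq (fun i => X i ω) g - Wq P X g‖ ≤ η / 4 * N} ≤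
      ENNReal.ofReal (4 * Real.exp (-(η ^ 4 / 256) * N)) := by
  have hm : ∀ i, Measurable fun ω => (sg i : ℂ) * (g - X i ω)⁻¹ := fun i =>
    ((measurable_const.sub (hX i)).inv).const_mul _
  have hbd : ∀ i, ∀ᵐ ω ∂P, ‖(sg i : ℂ) * (g - X i ω)⁻¹‖ ≤ 1 / η := by
    intro i
    filter_upwards [hfar i] with ω hω
    rw [norm_mul, norm_sg, one_mul, norm_inv, one_div]
    exact inv_anti₀ hη hω
  have hint : ∀ i, Integrable (fun ω => (sg i : ℂ) * (g - X i ω)⁻¹) P := fun i =>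
    Integrable.of_bound (hm i).aestronglyMeasurable (1 / η) (hbd i)
  have key : ∀ L : ℂ → ℝ, Measurable L → (∀ w, |L w| ≤ ‖w‖) →
      P {ω | η / 8 * N ≤ ∑ i, (L ((sg i : ℂ) * (g - X i ω)⁻¹) -
        ∫ ω, L ((sg i : ℂ) * (g - X i ω)⁻¹) ∂P)} ≤
        ENNReal.ofReal (Real.exp (-(η ^ 4 / 256) * N)) := by
    intro L hL hLn
    have hindL : iIndepFun (fun i ω => L ((sg i : ℂ) * (g - X i ω)⁻¹)) P :=
      hind.comp (fun i x => L ((sg i : ℂ) * (g - x)⁻¹)) fun i =>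
        hL.comp ((measurable_const.sub measurable_id).inv.const_mul _)
    have h1 := hoeffG hN (fun i => hL.comp (hm i)) hindL (a := η / 8) (b := 1 / η) (by positivity)
      (by positivity) (fun i => by
        filter_upwards [hbd i] with ω hω
        exact (hLn _).trans hω)
    refine h1.trans (ENNReal.ofReal_le_ofReal (le_of_eq ?_))
    congr 2
    field_simp
    norm_num
  have hre := key (fun w => w.re) Complex.measurable_re Complex.abs_re_le_norm
  have hre' := key (fun w => -w.re) Complex.measurable_re.neg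
    (fun w => by rw [abs_neg]; exact Complex.abs_re_le_norm w)
  have him := key (fun w => w.im) Complex.measurable_im Complex.abs_im_le_norm
  have him' := key (fun w => -w.im) Complex.measurable_im.neg
    (fun w => by rw [abs_neg]; exact Complex.abs_im_le_norm w)
  have ere : ∀ i, ∫ ω, ((sg i : ℂ) * (g - X i ω)⁻¹).re ∂P =
      (∫ ω, (sg i : ℂ) * (g - X i ω)⁻¹ ∂P).re := fun i => integral_re (hint i)
  have eim : ∀ i, ∫ ω, ((sg i : ℂ) * (g - X i ω)⁻¹).im ∂P =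
      (∫ ω, (sg i : ℂ) * (g - X i ω)⁻¹ ∂P).im := fun i => integral_im (hint i)
  have hWq : Wq P X g = ∑ i, ∫ ω, (sg i : ℂ) * (g - X i ω)⁻¹ ∂P := by
    unfold Wq
    exact Finset.sum_congr rfl fun i _ => (integral_const_mul _ _).symm
  have hsub : {ω | ¬ ‖Cq (fun i => X i ω) g - Wq P X g‖ ≤ η / 4 * N} ⊆
      (({ω | η / 8 * N ≤ ∑ i, (((sg i : ℂ) * (g - X i ω)⁻¹).re -
          ∫ ω, ((sg i : ℂ) * (g - X i ω)⁻¹).re ∂P)} ∪
        {ω | η / 8 * N ≤ ∑ i, (-((sg i : ℂ) * (g - X i ω)⁻¹).re -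
          ∫ ω, -((sg i : ℂ) * (g - X i ω)⁻¹).re ∂P)}) ∪
      ({ω | η / 8 * N ≤ ∑ i, (((sg i : ℂ) * (g - X i ω)⁻¹).im -
          ∫ ω, ((sg i : ℂ) * (g - X i ω)⁻¹).im ∂P)} ∪
        {ω | η / 8 * N ≤ ∑ i, (-((sg i : ℂ) * (g - X i ω)⁻¹).im -
          ∫ ω, -((sg i : ℂ) * (g - X i ω)⁻¹).im ∂P)})) := by
    intro ω hω
    by_contra hcon
    simp only [Set.mem_union, Set.mem_ofPred_eq, not_or, not_le] at hcon hω
    obtain ⟨⟨h1, h2⟩, h3, h4⟩ := hcon
    set D : ℂ := Cq (fun i => X i ω) g - Wq P X g with hD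
    have hD' : D = (∑ i, (sg i : ℂ) * (g - X i ω)⁻¹) -
        ∑ i, ∫ ω, (sg i : ℂ) * (g - X i ω)⁻¹ ∂P := by rw [hD, hWq]; rfl
    have e1 : ∑ i, (((sg i : ℂ) * (g - X i ω)⁻¹).re -
        ∫ ω, ((sg i : ℂ) * (g - X i ω)⁻¹).re ∂P) = D.re := by
      rw [hD', Complex.sub_re, Complex.re_sum, Complex.re_sum, ← Finset.sum_sub_distrib]
      exact Finset.sum_congr rfl fun i _ => by rw [ere]
    have e2 : ∑ i, (-((sg i : ℂ) * (g - X i ω)⁻¹).re -
        ∫ ω, -((sg i : ℂ) * (g - X i ω)⁻¹).re ∂P) = -D.re := by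
      rw [← e1, ← Finset.sum_neg_distrib]
      refine Finset.sum_congr rfl fun i _ => ?_
      rw [integral_neg]
      ring
    have e3 : ∑ i, (((sg i : ℂ) * (g - X i ω)⁻¹).im -
        ∫ ω, ((sg i : ℂ) * (g - X i ω)⁻¹).im ∂P) = D.im := by
      rw [hD', Complex.sub_im, Complex.im_sum, Complex.im_sum, ← Finset.sum_sub_distrib]
      exact Finset.sum_congr rfl fun i _ => by rw [eim]
    have e4 : ∑ i, (-((sg i : ℂ) * (g - X i ω)⁻¹).im -
        ∫ ω, -((sg i : ℂ) * (g - X i ω)⁻¹).im ∂P) = -D.im := by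
      rw [← e3, ← Finset.sum_neg_distrib]
      refine Finset.sum_congr rfl fun i _ => ?_
      rw [integral_neg]
      ring
    rw [e1] at h1
    rw [e2] at h2
    rw [e3] at h3
    rw [e4] at h4
    have h5 : |D.re| ≤ η / 8 * N := by rw [abs_le]; constructor <;> linarith
    have h6 : |D.im| ≤ η / 8 * N := by rw [abs_le]; constructor <;> linarith
    have h7 := Complex.norm_le_abs_re_add_abs_im D
    linarith
  refine (measure_mono hsub).trans ((measure_union_le _ _).trans ?_)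
  calc _ ≤ (ENNReal.ofReal (Real.exp (-(η ^ 4 / 256) * N)) +
        ENNReal.ofReal (Real.exp (-(η ^ 4 / 256) * N))) +
      (ENNReal.ofReal (Real.exp (-(η ^ 4 / 256) * N)) +
        ENNReal.ofReal (Real.exp (-(η ^ 4 / 256) * N))) :=
        add_le_add ((measure_union_le _ _).trans (add_le_add hre hre'))
          ((measure_union_le _ _).trans (add_le_add him him'))
    _ = ENNReal.ofReal (4 * Real.exp (-(η ^ 4 / 256) * N)) := by
        rw [← ENNReal.ofReal_add (by positivity) (by positivity),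
          ← ENNReal.ofReal_add (by positivity) (by positivity)]
        congr 1
        ring

end

end Pool.Agent.H363Roots
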