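import Mathlib
import Pool.Agent.H363Roots.RatProb
import Pool.Agent.H363Roots.MainC

/-!
# Rational maps with random zeros and poles: the exponential bound
-/

set_option autoImplicit false

open MeasureTheory ProbabilityTheory Filter Topology Polynomial

namespace Pool.Agent.H363Roots

/-- The condition on the scaling `a`. -/
def RegQ {Ω : Type*} [MeasurableSpace Ω] (P : Measure Ω) {N : ℕ} (X : Fin N ⊕ Fin N → Ω → ℂ)
    (η : ℝ) (a : ℂ) : Prop :=
  η * N ≤ |Real.log ‖a‖| ∧ η * N ≤ |Vq P X 0 + Real.log ‖a‖| ∧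
    ∀ x : ℂ, |Vq P X x + Real.log ‖a‖| ≤ η * N →
      (∀ i, ∀ᵐ ω ∂P, η ≤ ‖x - X i ω‖) ∧ η * N ≤ ‖Wq P X x‖

/-- The conclusion for given zeros and poles. -/
def GoodQ {N : ℕ} (A : ℂ → Prop) (q : Fin N ⊕ Fin N → ℂ) : Prop :=
  ∀ a : ℂ, a ≠ 0 → A a → Pool.Agent.H762R2.Rt.Hyp
    (C a * Pool.Agent.W751.CD.P (fun i => q (Sum.inl i)))
    (Pool.Agent.W751.CD.P (fun i => q (Sum.inr i)))

section

variable {Ω : Type*} [MeasurableSpace Ω] {P : Measure Ω}

theorem prob_rat [IsProbabilityMeasure P] {N : ℕ} {X : Fin N ⊕ Fin N → Ω → ℂ}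
    (hX : ∀ i, Measurable (X i)) (hind : iIndepFun X P)
    {M s B B' Q u σ h h0 η t : ℝ} {L : ℕ}
    (S : Finset ℂ) (hN : 1 ≤ N) (hM0 : 0 ≤ M) (hs : 0 < s) (hs2 : s ≤ 2)
    (hB0 : 0 ≤ B) (hη : 0 < η) (hσ : 0 < σ)
    (hh : 0 < h) (hh0 : 0 < h0) (ht : 0 < t) (hhh : h ≤ h0)
    (hL : (1 / t) / h + 1 ≤ L) (hLM : h * L ≤ 1 / t + 2)
    (hM : ∀ i, ∀ᵐ ω ∂P, ‖X i ω‖ ≤ M)
    (hB : ∀ (i : Fin N ⊕ Fin N) (z : ℂ) (r : ℝ), 0 < r →
      P {ω | ‖X i ω - z‖ ≤ r} ≤ ENNReal.ofReal (B * r ^ s))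
    (hB' : B' = 1 + B * (2 : ℝ) ^ (s / 2) / (1 - ((2 : ℝ) ^ (s / 2))⁻¹))
    (hQ : Q = 8 / (s / 2) ^ 2 * (B' + (2 * (1 / t + 2) + M) ^ (s / 2)))
    (hu : 0 < u) (hus : u ≤ s / 4) (huQ : u * Q ≤ η / 64)
    (hhB : h0 ^ (s / 2) * B' / (s / 2) ≤ η / 64)
    (hS : ∀ x : ℂ, ‖x‖ ≤ 1 / t → ∃ g ∈ S, ‖x - g‖ ≤ h0 / 2)
    (hsm : 8 * N * h / σ ≤ η / 16) (hsm' : h ≤ σ / (4 * N))
    (hh0η : h0 ≤ η) (hh0η3 : h0 ≤ η ^ 3 / 8)
    (hMt : M * t ≤ 1 / 2) (hMt' : 3 * (M * t) ≤ η / 2)
    (h4t : 4 / t < Real.exp (η / 2 * N)) (hs4 : Real.exp (-(η / 2) * N) < h / 4)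
    (hht : h < 1 / t) :
    P {ω | ¬ GoodQ (RegQ P X η) (fun i => X i ω)} ≤
      ENNReal.ofReal ((2 * L + 1) ^ 2 * (2 * Real.exp (-(u * η / 32) * N)) +
        6 * N ^ 2 * (B * σ ^ s) + S.card * (4 * Real.exp (-(η ^ 4 / 256) * N))) := by
  have hBr : ∀ (i : Fin N ⊕ Fin N) (z : ℂ) (r : ℝ), 0 < r →
      P {ω | ‖z - X i ω‖ ≤ r} ≤ ENNReal.ofReal (B * r ^ s) := by
    intro i z r hr
    refine le_trans (measure_mono ?_) (hB i z r hr)
    intro ω hω
    have h3 : ‖z - X i ω‖ ≤ r := hω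
    show ‖X i ω - z‖ ≤ r
    rwa [norm_sub_rev]
  have hN0 : (0 : ℝ) < N := by exact_mod_cast hN
  have hN1 : (1 : ℝ) ≤ N := by exact_mod_cast hN
  have hV : ∀ v x : ℂ, ‖v - x‖ ≤ h0 → |Vq P X v - Vq P X x| ≤ η / 32 * N := by
    intro v x hvx
    unfold Vq
    rw [← Finset.sum_sub_distrib]
    calc |∑ i, (sg i * (∫ ω, Real.log ‖v - X i ω‖ ∂P) - sg i * ∫ ω, Real.log ‖x - X i ω‖ ∂P)| ≤
        ∑ i, |sg i * (∫ ω, Real.log ‖v - X i ω‖ ∂P) - sg i * ∫ ω, Real.log ‖x - X i ω‖ ∂P| :=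
          Finset.abs_sum_le_sum_abs _ _
      _ ≤ ∑ _i : Fin N ⊕ Fin N, η / 64 := by
          refine Finset.sum_le_sum fun i _ => ?_
          rw [← mul_sub, abs_mul, abs_sg, one_mul]
          have e1 := holder (hX i) hs hs2 hB0 (hBr i) hB' v x hh0 hvx (hM i)
          have e2 := holder (hX i) hs hs2 hB0 (hBr i) hB' x v hh0
            (by rw [norm_sub_rev]; exact hvx) (hM i)
          rw [abs_le]
          constructor <;> linarith
      _ = η / 32 * N := by
          rw [Finset.sum_const, Finset.card_univ, card_idx, nsmul_eq_mul]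
          push_cast
          ring
  set G : Finset (ℤ × ℤ) := Finset.Icc (-(L : ℤ)) L ×ˢ Finset.Icc (-(L : ℤ)) L with hG
  set D : Finset ((Fin N ⊕ Fin N) × (Fin N ⊕ Fin N)) :=
    Finset.univ.filter fun p => p.1 ≠ p.2 with hD
  have hMall : ∀ᵐ ω ∂P, ∀ i, ‖X i ω‖ ≤ M := by
    rw [ae_all_iff]
    exact hM
  set E1 : Set Ω := ⋃ p ∈ G, {ω | ¬ |Lq (fun i => X i ω) (gridPt h p) -
    Vq P X (gridPt h p)| ≤ η / 16 * N} with hE1
  set E2 : Set Ω := ⋃ p ∈ D, {ω | ‖X p.1 ω - X p.2 ω‖ ≤ σ} with hE2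
  set E3 : Set Ω := ⋃ i ∈ (Finset.univ : Finset (Fin N ⊕ Fin N)), {ω | ‖X i ω - 0‖ ≤ σ} with hE3
  set E4 : Set Ω := ⋃ g ∈ S, {ω | ¬ ((∀ i, ∀ᵐ ω ∂P, η ≤ ‖g - X i ω‖) →
    (∀ i, η ≤ ‖g - X i ω‖) ∧ ‖Cq (fun i => X i ω) g - Wq P X g‖ ≤ η / 4 * N)} with hE4
  have hsub : P {ω | ¬ GoodQ (RegQ P X η) (fun i => X i ω)} ≤ P ((E1 ∪ (E2 ∪ E3)) ∪ E4) := by
    refine measure_mono_ae ?_
    filter_upwards [hMall] with ω hω hbad
    by_contra hcon
    have hcon' : ω ∉ ((E1 ∪ (E2 ∪ E3)) ∪ E4) := hcon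
    rw [Set.mem_union, Set.mem_union, Set.mem_union, not_or, not_or, not_or] at hcon'
    obtain ⟨⟨hc1, hc2, hc3⟩, hc4⟩ := hcon'
    apply hbad
    intro a ha hA
    obtain ⟨hb, h0b, hlev⟩ := hA
    have helim : (fun i => X i ω) = Sum.elim (fun i => X (Sum.inl i) ω)
        (fun i => X (Sum.inr i) ω) := by
      funext i
      rcases i with i | i <;> rfl
    refine rat_det hN (fun i => X (Sum.inl i) ω) (fun i => X (Sum.inr i) ω) (Vq P X) (Wq P X)
      (fun x => ∀ i, ∀ᵐ ω ∂P, η ≤ ‖x - X i ω‖) (M := M) (σ := σ) (h := h) (h0 := h0) (t := t)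
      (L := L) (S : Set ℂ) hM0 hη hσ hh hh0 ht ?_ ?_ ?_ hV ?_ hL hS ?_ hhh hsm hsm' hh0η hh0η3
      hMt hMt' h4t hs4 hht a ha hb h0b hlev
    · intro i
      rw [← helim]
      exact hω i
    · intro i
      rw [← helim]
      by_contra hle
      apply hc3
      rw [hE3, Set.mem_iUnion₂]
      refine ⟨i, Finset.mem_univ _, ?_⟩
      show ‖X i ω - 0‖ ≤ σ
      rw [sub_zero]
      exact not_lt.mp hle
    · intro i j hij
      rw [← helim]
      by_contra hle
      apply hc2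
      rw [hE2, Set.mem_iUnion₂]
      refine ⟨(i, j), ?_, ?_⟩
      · rw [hD, Finset.mem_filter]
        exact ⟨Finset.mem_univ _, hij⟩
      · exact not_lt.mp hle
    · intro p hp
      rw [← helim]
      by_contra hle
      apply hc1
      rw [hE1, Set.mem_iUnion₂]
      exact ⟨p, hp, hle⟩
    · intro g hg hFar
      rw [← helim]
      by_contra hle
      apply hc4
      rw [hE4, Set.mem_iUnion₂]
      exact ⟨g, hg, fun himp => hle (himp hFar)⟩
  have hB2 : 0 ≤ B * σ ^ s := by positivity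
  refine hsub.trans ((measure_union_le _ _).trans ?_)
  rw [ENNReal.ofReal_add (by positivity) (by positivity)]
  refine add_le_add ((measure_union_le _ _).trans ?_) ?_
  · rw [ENNReal.ofReal_add (by positivity) (by positivity)]
    refine add_le_add ?_ ((measure_union_le _ _).trans ?_)
    · refine (measure_biUnion_finset_le _ _).trans ?_
      calc ∑ p ∈ G, P {ω | ¬ |Lq (fun i => X i ω) (gridPt h p) -
            Vq P X (gridPt h p)| ≤ η / 16 * N} ≤
          ∑ _p ∈ G, ENNReal.ofReal (2 * Real.exp (-(u * η / 32) * N)) := by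
            refine Finset.sum_le_sum fun p hp => ?_
            have h1 := conc hX hind (A := 2 * (1 / t + 2) + M) (d := η / 16) hs hB0 hBr hB' hQ hu
              hus (by linarith) (gridPt h p) (by
                intro i
                filter_upwards [hM i] with ω hω
                have h1 := norm_gridPt_le hh hp
                have h2 := norm_sub_le (gridPt h p) (X i ω)
                linarith)
            have e2 : -(u * (η / 16) / 2) * (N : ℝ) = -(u * η / 32) * N := by ring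
            rw [e2] at h1
            exact h1
        _ = ENNReal.ofReal ((2 * L + 1) ^ 2 * (2 * Real.exp (-(u * η / 32) * N))) := by
            rw [Finset.sum_const, hG, Finset.card_product, Int.card_Icc, nsmul_eq_mul,
              ENNReal.ofReal_mul (p := (2 * (L : ℝ) + 1) ^ 2) (by positivity)]
            congr 1
            have h3 : ((L : ℤ) + 1 - -(L : ℤ)).toNat = 2 * L + 1 := by omega
            rw [h3]
            have h4 : ((2 * (L : ℝ) + 1) ^ 2) = (((2 * L + 1) * (2 * L + 1) : ℕ) : ℝ) := by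
              push_cast
              ring
            rw [h4, ENNReal.ofReal_natCast]
    · have h1 : P E2 ≤ ENNReal.ofReal (4 * N ^ 2 * (B * σ ^ s)) := by
        refine (measure_biUnion_finset_le _ _).trans ?_
        calc ∑ p ∈ D, P {ω | ‖X p.1 ω - X p.2 ω‖ ≤ σ} ≤
            ∑ _p ∈ D, ENNReal.ofReal (B * σ ^ s) := by
              refine Finset.sum_le_sum fun p hp => ?_
              rw [hD, Finset.mem_filter] at hp
              exact pair_close (hX _) (hX _) (hind.indepFun hp.2) fun z => hB p.2 z σ hσ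
          _ ≤ ENNReal.ofReal (4 * N ^ 2 * (B * σ ^ s)) := by
              rw [Finset.sum_const, nsmul_eq_mul, ENNReal.ofReal_mul (p := 4 * (N : ℝ) ^ 2)
                (by positivity)]
              refine mul_le_mul' ?_ le_rfl
              have h5 : D.card ≤ 4 * N ^ 2 := by
                refine (Finset.card_filter_le _ _).trans ?_
                rw [Finset.card_univ, Fintype.card_prod, card_idx]
                ring_nf
                exact le_rfl
              have h6 : (4 * (N : ℝ) ^ 2) = ((4 * N ^ 2 : ℕ) : ℝ) := by push_cast; rfl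
              rw [h6, ENNReal.ofReal_natCast]
              exact_mod_cast h5
      have h2 : P E3 ≤ ENNReal.ofReal (2 * N * (B * σ ^ s)) := by
        refine (measure_biUnion_finset_le _ _).trans ?_
        calc ∑ i ∈ (Finset.univ : Finset (Fin N ⊕ Fin N)), P {ω | ‖X i ω - 0‖ ≤ σ} ≤
            ∑ _i ∈ (Finset.univ : Finset (Fin N ⊕ Fin N)), ENNReal.ofReal (B * σ ^ s) :=
              Finset.sum_le_sum fun i _ => hB i 0 σ hσ
          _ = ENNReal.ofReal (2 * N * (B * σ ^ s)) := by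
              rw [Finset.sum_const, Finset.card_univ, card_idx, nsmul_eq_mul,
                ENNReal.ofReal_mul (p := 2 * (N : ℝ)) (by positivity)]
              congr 1
              have h6 : (2 * (N : ℝ)) = ((2 * N : ℕ) : ℝ) := by push_cast; rfl
              rw [h6, ENNReal.ofReal_natCast]
      refine (add_le_add h1 h2).trans ?_
      rw [← ENNReal.ofReal_add (by positivity) (by positivity)]
      refine ENNReal.ofReal_le_ofReal ?_
      have h3 : 2 * (N : ℝ) * (B * σ ^ s) ≤ 2 * N ^ 2 * (B * σ ^ s) := by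
        have : (N : ℝ) ≤ N ^ 2 := by nlinarith
        gcongr
      linarith
  · refine (measure_biUnion_finset_le _ _).trans ?_
    calc ∑ g ∈ S, P {ω | ¬ ((∀ i, ∀ᵐ ω ∂P, η ≤ ‖g - X i ω‖) →
          (∀ i, η ≤ ‖g - X i ω‖) ∧ ‖Cq (fun i => X i ω) g - Wq P X g‖ ≤ η / 4 * N)} ≤
        ∑ _g ∈ S, ENNReal.ofReal (4 * Real.exp (-(η ^ 4 / 256) * N)) := by
          refine Finset.sum_le_sum fun g hg => ?_
          by_cases hcond : ∀ i, ∀ᵐ ω ∂P, η ≤ ‖g - X i ω‖
          · refine le_trans (measure_mono_ae ?_) (cauchyG hN hX hind hη g hcond)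
            have h1all : ∀ᵐ ω ∂P, ∀ i, η ≤ ‖g - X i ω‖ := by
              rw [ae_all_iff]
              exact hcond
            filter_upwards [h1all] with ω hω hbad
            intro hle
            apply hbad
            intro _
            exact ⟨hω, hle⟩
          · have h1 : {ω : Ω | ¬ ((∀ i, ∀ᵐ ω ∂P, η ≤ ‖g - X i ω‖) →
                (∀ i, η ≤ ‖g - X i ω‖) ∧ ‖Cq (fun i => X i ω) g - Wq P X g‖ ≤ η / 4 * N)} = ∅ := by
              rw [Set.eq_empty_iff_forall_notMem]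
              intro ω hω
              exact hω fun h2 => absurd h2 hcond
            rw [h1, measure_empty]
            exact zero_le
      _ = ENNReal.ofReal (S.card * (4 * Real.exp (-(η ^ 4 / 256) * N))) := by
          rw [Finset.sum_const, nsmul_eq_mul, ENNReal.ofReal_mul (p := (S.card : ℝ))
            (by positivity), ENNReal.ofReal_natCast]

end

theorem mainQ0 (M s B η : ℝ) (hM0 : 0 ≤ M) (hB0 : 0 ≤ B) (hs : 0 < s)
    (hs2 : s ≤ 2) (hη : 0 < η) :
    ∃ K θ : ℝ, 0 < K ∧ 0 < θ ∧ θ < 1 ∧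
      ∀ (Ω : Type) [MeasurableSpace Ω] (P : Measure Ω) [IsProbabilityMeasure P] (N : ℕ)
        (X : Fin N ⊕ Fin N → Ω → ℂ), (∀ i, Measurable (X i)) → iIndepFun X P →
        (∀ i, ∀ᵐ ω ∂P, ‖X i ω‖ ≤ M) →
        (∀ (i : Fin N ⊕ Fin N) (z : ℂ) (r : ℝ), 0 < r →
          P {ω | ‖X i ω - z‖ ≤ r} ≤ ENNReal.ofReal (B * r ^ s)) →
        P {ω | ¬ GoodQ (RegQ P X η) (fun i => X i ω)} ≤ ENNReal.ofReal (K * θ ^ N) := by
  set t : ℝ := min (1 / 2) (η / 6) / (M + 1) with ht
  have hmin0 : 0 < min (1 / 2) (η / 6) := lt_min (by norm_num) (by positivity)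
  have ht0 : 0 < t := by positivity
  have hMt0 : M * t ≤ min (1 / 2) (η / 6) := by
    rw [ht, mul_div_assoc', div_le_iff₀ (by positivity)]
    nlinarith
  have hMt : M * t ≤ 1 / 2 := hMt0.trans (min_le_left _ _)
  have hMt' : 3 * (M * t) ≤ η / 2 := by
    have := hMt0.trans (min_le_right _ _)
    linarith
  have ht1 : t ≤ 1 / 2 := by
    rw [ht]
    calc min (1 / 2) (η / 6) / (M + 1) ≤ min (1 / 2) (η / 6) / 1 := by gcongr; linarith
      _ ≤ 1 / 2 := by rw [div_one]; exact min_le_left _ _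
  have h1t : 2 ≤ 1 / t := by
    rw [le_div_iff₀ ht0]
    linarith
  set B' : ℝ := 1 + B * (2 : ℝ) ^ (s / 2) / (1 - ((2 : ℝ) ^ (s / 2))⁻¹) with hB'
  set Q : ℝ := 8 / (s / 2) ^ 2 * (B' + (2 * (1 / t + 2) + M) ^ (s / 2)) with hQ
  have hB'0 : 0 < B' := by
    have h2q : 1 < (2 : ℝ) ^ (s / 2) := Real.one_lt_rpow (by norm_num) (by positivity)
    have h1 : ((2 : ℝ) ^ (s / 2))⁻¹ < 1 := inv_lt_one_of_one_lt₀ h2q
    have h2 : 0 < 1 - ((2 : ℝ) ^ (s / 2))⁻¹ := by linarith
    positivity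
  have hQ0 : 0 < Q := by positivity
  set u : ℝ := min (s / 4) (η / (64 * Q)) with hu
  have hu0 : 0 < u := lt_min (by positivity) (by positivity)
  have hus : u ≤ s / 4 := min_le_left _ _
  have hu2 : u ≤ 1 / 2 := by linarith
  have huQ : u * Q ≤ η / 64 := by
    calc u * Q ≤ η / (64 * Q) * Q := by gcongr; exact min_le_right _ _
      _ = η / 64 := by field_simp
  obtain ⟨h0, hh0, hh01, hh0η, hh0η3, hhB⟩ : ∃ h : ℝ, 0 < h ∧ h ≤ 1 ∧ h ≤ η ∧ h ≤ η ^ 3 / 8 ∧
      h ^ (s / 2) * B' / (s / 2) ≤ η / 64 := by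
    have h1 : Tendsto (fun h : ℝ => h ^ (s / 2) * B' / (s / 2)) (𝓝[>] 0)
        (𝓝 ((0 : ℝ) ^ (s / 2) * B' / (s / 2))) := by
      have h4 : ContinuousAt (fun r : ℝ => r ^ (s / 2)) 0 :=
        Real.continuousAt_rpow_const 0 _ (Or.inr (by positivity))
      exact ((h4.tendsto.mono_left nhdsWithin_le_nhds).mul_const B').div_const _
    rw [Real.zero_rpow (by positivity), zero_mul, zero_div] at h1
    have h2 := h1.eventually_le_const (by positivity : 0 < η / 64)
    have h3 : ∀ᶠ h : ℝ in 𝓝[>] 0, h ∈ Set.Ioc (0 : ℝ) (min 1 (min η (η ^ 3 / 8))) :=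
      Ioc_mem_nhdsGT (lt_min (by norm_num) (lt_min hη (by positivity)))
    obtain ⟨h, hh⟩ := (h2.and h3).exists
    obtain ⟨hh1, hh2, hh3⟩ := hh
    exact ⟨h, hh2, hh3.trans (min_le_left _ _),
      hh3.trans ((min_le_right _ _).trans (min_le_left _ _)),
      hh3.trans ((min_le_right _ _).trans (min_le_right _ _)), hh1⟩
  obtain ⟨S, -, hS⟩ := exists_net (A := 1 / t) (by positivity : 0 < h0 / 2)
  set ε : ℝ := u * η / 256 with hε
  have hε0 : 0 < ε := by positivity
  have hεη : 2 * ε ≤ η / 4 := by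
    rw [hε]
    nlinarith
  have hev : ∀ᶠ N : ℕ in atTop, 1 ≤ N ∧
      (N : ℝ) * Real.exp (-(ε * N)) ≤ min (η / 128) (1 / 4) ∧
      4 / t + 1 ≤ Real.exp (η / 2 * N) ∧ 5 ≤ Real.exp (η / 4 * N) ∧
      1 / h0 ≤ Real.exp (2 * ε * N) := by
    filter_upwards [eventually_ge_atTop 1,
      ev_small hε0 (lt_min (by positivity) (by norm_num) : 0 < min (η / 128) (1 / 4)),
      ev_exp (b := 4 / t + 1) (by positivity : 0 < η / 2),
      ev_exp (b := 5) (by positivity : 0 < η / 4),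
      ev_exp (b := 1 / h0) (by positivity : 0 < 2 * ε)] with N h1 h2 h3 h4 h5
    exact ⟨h1, h2, h3, h4, h5⟩
  obtain ⟨N0, hN0⟩ := eventually_atTop.mp hev
  set θ : ℝ := max (max (Real.exp (-(u * η / 64))) (Real.exp (-(ε * s / 2))))
    (Real.exp (-(η ^ 4 / 256))) with hθ
  have hθ0 : 0 < θ := lt_max_of_lt_right (Real.exp_pos _)
  have hθ1 : θ < 1 := by
    refine max_lt (max_lt ?_ ?_) ?_
    · rw [Real.exp_lt_one_iff]
      have : 0 < u * η / 64 := by positivity
      linarith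
    · rw [Real.exp_lt_one_iff]
      have : 0 < ε * s / 2 := by positivity
      linarith
    · rw [Real.exp_lt_one_iff]
      have : 0 < η ^ 4 / 256 := by positivity
      linarith
  refine ⟨2 * (2 / t + 5) ^ 2 + 6 * (8 * B / (ε * s) ^ 2) + S.card * 4 + (θ⁻¹) ^ N0, θ,
    by positivity, hθ0, hθ1, ?_⟩
  intro Ω _ P _ N X hX hind hM hB
  rcases lt_or_ge N N0 with hlt | hge
  · refine prob_le_one.trans ?_
    rw [← ENNReal.ofReal_one]
    refine ENNReal.ofReal_le_ofReal ?_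
    have h1 : 1 ≤ (θ⁻¹) ^ N0 * θ ^ N := by
      rw [inv_pow]
      rw [inv_mul_eq_div, le_div_iff₀ (by positivity), one_mul]
      exact pow_le_pow_of_le_one hθ0.le hθ1.le hlt.le
    have h2 : 0 ≤ (2 * (2 / t + 5) ^ 2 + 6 * (8 * B / (ε * s) ^ 2) + S.card * 4) *
      θ ^ N := by positivity
    rw [add_mul]
    linarith
  · obtain ⟨hN1, hsm, h4t, h5, hRh⟩ := hN0 N hge
    have hN1' : (1 : ℝ) ≤ N := by exact_mod_cast hN1
    have hNpos : (0 : ℝ) < N := by linarith
    set σ : ℝ := Real.exp (-(ε * N)) with hσ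
    set h : ℝ := Real.exp (-(2 * ε * N)) with hh
    have hσ0 : 0 < σ := Real.exp_pos _
    have hhpos : 0 < h := Real.exp_pos _
    have hh1 : h ≤ 1 := by
      rw [hh, Real.exp_le_one_iff]
      have : 0 ≤ 2 * ε * N := by positivity
      linarith
    have hhσ : h = σ * σ := by
      rw [hh, hσ, ← Real.exp_add]
      congr 1
      ring
    have hhh : h ≤ h0 := by
      have e1 : h = (Real.exp (2 * ε * N))⁻¹ := by rw [hh, Real.exp_neg]
      rw [e1]
      calc (Real.exp (2 * ε * N))⁻¹ ≤ (1 / h0)⁻¹ := inv_anti₀ (by positivity) hRh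
        _ = h0 := by rw [one_div, inv_inv]
    have hsm1 : 8 * N * h / σ ≤ η / 16 := by
      have e1 : 8 * N * h / σ = 8 * (N * σ) := by rw [hhσ]; field_simp
      rw [e1]
      have := hsm.trans (min_le_left _ _)
      linarith
    have hsm2 : h ≤ σ / (4 * N) := by
      rw [le_div_iff₀ (by positivity), hhσ]
      have e2 := hsm.trans (min_le_right _ _)
      calc σ * σ * (4 * N) = σ * (4 * (N * σ)) := by ring
        _ ≤ σ * 1 := by gcongr; linarith
        _ = σ := mul_one σ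
    have hs4 : Real.exp (-(η / 2) * N) < h / 4 := by
      have e1 : Real.exp (-(η / 2) * N) * Real.exp (η / 4 * N) ≤ h := by
        rw [hh, ← Real.exp_add]
        refine Real.exp_le_exp.mpr ?_
        nlinarith
      have e2 : 0 < Real.exp (-(η / 2) * N) := Real.exp_pos _
      nlinarith
    set L : ℕ := ⌈(1 / t) / h⌉₊ + 1 with hL
    have hL1 : (1 / t) / h + 1 ≤ L := by
      rw [hL]
      push_cast
      linarith [Nat.le_ceil ((1 / t) / h)]
    have hL2 : (L : ℝ) ≤ (1 / t) / h + 2 := by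
      rw [hL]
      push_cast
      linarith [Nat.ceil_lt_add_one (by positivity : 0 ≤ (1 / t) / h)]
    have hL3 : h * L ≤ 1 / t + 2 := by
      calc h * L ≤ h * ((1 / t) / h + 2) := by gcongr
        _ = 1 / t + 2 * h := by field_simp
        _ ≤ 1 / t + 2 := by linarith
    have hfin := prob_rat hX hind (t := t) (h := h) (h0 := h0) (L := L) (u := u) (σ := σ) S hN1 hM0
      hs hs2 hB0 hη hσ0 hhpos hh0 ht0 hhh hL1 hL3 hM hB hB' hQ hu0 hus huQ hhB hS hsm1 hsm2 hh0η
      hh0η3 hMt hMt' (by linarith) hs4 (by linarith)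
    refine hfin.trans (ENNReal.ofReal_le_ofReal ?_)
    have f1 : (2 * (L : ℝ) + 1) ^ 2 * (2 * Real.exp (-(u * η / 32) * N)) ≤
        2 * (2 / t + 5) ^ 2 * θ ^ N := by
      have g1 : 2 * (L : ℝ) + 1 ≤ (2 / t + 5) / h := by
        rw [le_div_iff₀ hhpos]
        calc (2 * (L : ℝ) + 1) * h ≤ (2 * ((1 / t) / h + 2) + 1) * h := by gcongr
          _ = 2 / t + 5 * h := by field_simp; ring
          _ ≤ 2 / t + 5 := by linarith
      calc (2 * (L : ℝ) + 1) ^ 2 * (2 * Real.exp (-(u * η / 32) * N)) ≤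
          ((2 / t + 5) / h) ^ 2 * (2 * Real.exp (-(u * η / 32) * N)) := by gcongr
        _ = 2 * (2 / t + 5) ^ 2 * (Real.exp (-(u * η / 64))) ^ N := by
          have g6 : h ^ 2 = Real.exp (-(4 * ε * N)) := by
            rw [hh, sq, ← Real.exp_add]
            congr 1
            ring
          have g7 : Real.exp (-(u * η / 32) * N) = Real.exp (-(4 * ε * N)) *
              Real.exp (N * -(u * η / 64)) := by
            rw [← Real.exp_add, hε]
            congr 1
            ring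
          rw [div_pow, g6, g7, ← Real.exp_nat_mul]
          have g8 : 0 < Real.exp (-(4 * ε * N)) := Real.exp_pos _
          field_simp
        _ ≤ 2 * (2 / t + 5) ^ 2 * θ ^ N := by
          gcongr
          exact (le_max_left _ _).trans (le_max_left _ _)
    have f2 : 6 * (N : ℝ) ^ 2 * (B * σ ^ s) ≤ 6 * (8 * B / (ε * s) ^ 2) * θ ^ N := by
      have g1 : (N : ℝ) ^ 2 ≤ 8 / (ε * s) ^ 2 * Real.exp (ε * s / 2 * N) := by
        have g2 := Real.quadratic_le_exp_of_nonneg (by positivity : 0 ≤ ε * s / 2 * N)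
        have g3 : (ε * s / 2 * N) ^ 2 / 2 ≤ Real.exp (ε * s / 2 * N) := by
          have : 0 ≤ ε * s / 2 * N := by positivity
          linarith
        calc (N : ℝ) ^ 2 = 8 / (ε * s) ^ 2 * ((ε * s / 2 * N) ^ 2 / 2) := by
              field_simp
              ring
          _ ≤ _ := by gcongr
      have g4 : σ ^ s = Real.exp (-(ε * s * N)) := by
        rw [hσ, ← Real.exp_mul]
        congr 1
        ring
      calc 6 * (N : ℝ) ^ 2 * (B * σ ^ s) ≤
          6 * (8 / (ε * s) ^ 2 * Real.exp (ε * s / 2 * N)) * (B * Real.exp (-(ε * s * N))) := by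
            rw [g4]
            gcongr
        _ = 6 * (8 * B / (ε * s) ^ 2) * (Real.exp (-(ε * s / 2))) ^ N := by
            rw [← Real.exp_nat_mul]
            have g5 : Real.exp (ε * s / 2 * N) * Real.exp (-(ε * s * N)) =
                Real.exp (N * -(ε * s / 2)) := by
              rw [← Real.exp_add]
              congr 1
              ring
            rw [← g5]
            ring
        _ ≤ _ := by
            gcongr
            exact (le_max_right _ _).trans (le_max_left _ _)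
    have f5 : (S.card : ℝ) * (4 * Real.exp (-(η ^ 4 / 256) * N)) ≤ S.card * 4 * θ ^ N := by
      have g1 : Real.exp (-(η ^ 4 / 256) * N) = (Real.exp (-(η ^ 4 / 256))) ^ N := by
        rw [← Real.exp_nat_mul]
        congr 1
        ring
      have g2 : Real.exp (-(η ^ 4 / 256)) ≤ θ := le_max_right _ _
      rw [g1]
      calc (S.card : ℝ) * (4 * (Real.exp (-(η ^ 4 / 256))) ^ N) ≤ S.card * (4 * θ ^ N) := by
            gcongr
        _ = _ := by ring
    have f3 : 0 ≤ (θ⁻¹) ^ N0 * θ ^ N := by positivity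
    rw [add_mul, add_mul, add_mul]
    linarith

end Pool.Agent.H363Roots
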