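import Mathlib
import Pool.Agent.H363Roots.RatDet

/-!
# Rational maps with prescribed zeros and poles: large multiples
-/

set_option autoImplicit false

open Filter Topology Polynomial

namespace Pool.Agent.H363Roots

open Pool.Agent.W751.RD

theorem off_of2 {s t E Λ : ℝ} {v : ℂ} (hv : ‖v‖ = Real.exp E) (hE : Λ / 2 ≤ |E|)
    (h4t : 4 / t < Real.exp (Λ / 2)) (hs4 : Real.exp (-(Λ / 2)) < s / 4) : Off s t v := by
  rcases le_total 0 E with h | h
  · rw [abs_of_nonneg h] at hE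
    right
    rw [hv]
    exact h4t.trans_le (Real.exp_le_exp.mpr hE)
  · rw [abs_of_nonpos h] at hE
    left
    rw [hv]
    refine lt_of_le_of_lt (Real.exp_le_exp.mpr ?_) hs4
    linarith

theorem Pr_ne_zero {N : ℕ} (z : Fin N → ℂ) {M t : ℝ} {x : ℂ} (hz : ∀ i, ‖z i‖ ≤ M) (hx : ‖x‖ ≤ t)
    (hM : 0 ≤ M) (hMt : M * t < 1) : Pr z x ≠ 0 := by
  unfold Pr
  rw [Finset.prod_ne_zero_iff]
  intro i _ h0
  have h1 : z i * x = 1 := by linear_combination -h0
  have h2 : ‖z i * x‖ ≤ M * t := by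
    rw [norm_mul]
    have := hz i
    gcongr
  rw [h1, norm_one] at h2
  linarith

theorem Pr_diff {N : ℕ} (q : Fin N → ℂ) : Differentiable ℂ (Pr q) := by
  unfold Pr
  exact Differentiable.fun_finsetProd fun i _ =>
    (differentiable_const _).sub ((differentiable_const _).mul differentiable_id)

/-- The maximum principle for the quotient near infinity. -/
theorem quot_le {N : ℕ} (z w : Fin N → ℂ) {t b : ℝ} {a : ℂ} (ht : 0 < t)
    (hw : ∀ x : ℂ, ‖x‖ ≤ t → Pr w x ≠ 0)
    (hb : ∀ x : ℂ, ‖x‖ = t → ‖a * (Pr z x / Pr w x)‖ ≤ b) (x : ℂ) (hx : ‖x‖ ≤ t) :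
    ‖a * (Pr z x / Pr w x)‖ ≤ b := by
  have hd : DiffContOnCl ℂ (fun x => a * (Pr z x / Pr w x)) (Metric.ball (0 : ℂ) t) := by
    have h1 : DifferentiableOn ℂ (fun x => a * (Pr z x / Pr w x)) (Metric.closedBall (0 : ℂ) t) := by
      intro y hy
      have hy' := mem_closedBall_zero_iff.mp hy
      exact (((Pr_diff z y).fun_div (Pr_diff w y) (hw y hy')).const_mul a).differentiableWithinAt
    exact h1.diffContOnCl_ball subset_rfl
  have h2 := Complex.norm_le_of_forall_mem_frontier_norm_le Metric.isBounded_ball hd (C := b) (by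
    intro y hy
    rw [frontier_ball _ ht.ne', mem_sphere_zero_iff_norm] at hy
    exact hb y hy) (z := x) (by
      rw [closure_ball _ ht.ne']
      exact mem_closedBall_zero_iff.mpr hx)
  exact h2

/-- The deterministic part. -/
theorem win_det {N : ℕ} (hN : 1 ≤ N) (z w : Fin N → ℂ) (V : ℂ → ℝ)
    {M Λ σ h t : ℝ} {L : ℕ} (hM0 : 0 ≤ M) (hΛ : 0 < Λ) (hσ : 0 < σ) (hσ1 : σ ≤ 1) (hh : 0 < h)
    (ht : t = 1 / (2 * M + 2))
    (hq : ∀ i, ‖Sum.elim z w i‖ ≤ M) (hq0 : ∀ i, σ < ‖Sum.elim z w i‖)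
    (hsep : ∀ i j, i ≠ j → σ < ‖Sum.elim z w i - Sum.elim z w j‖)
    (hV : ∀ v x : ℂ, ‖v - x‖ ≤ h → |V v - V x| ≤ Λ / 32)
    (hgrid : ∀ p ∈ Finset.Icc (-(L : ℤ)) L ×ˢ Finset.Icc (-(L : ℤ)) L,
      |Lq (Sum.elim z w) (gridPt h p) - V (gridPt h p)| ≤ Λ / 16)
    (hL : (1 / t) / h + 1 ≤ L)
    (hsm : 8 * N ^ 2 * h / σ ≤ Λ / 16) (hsm' : h ≤ σ / (4 * N))
    (h4t : 4 / t < Real.exp (Λ / 2)) (hs4 : Real.exp (-(Λ / 2)) < h / 4) (hht : h < 1 / t)
    (a : ℂ) (ha : a ≠ 0)
    (hcase : (∀ x, Λ ≤ V x + Real.log ‖a‖) ∨ (∀ x, V x + Real.log ‖a‖ ≤ -Λ)) :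
    Pool.Agent.H762R2.Rt.Hyp (C a * Pool.Agent.W751.CD.P z) (Pool.Agent.W751.CD.P w) := by
  have hN0 : (0 : ℝ) < N := by exact_mod_cast hN
  have hN1 : (1 : ℝ) ≤ N := by exact_mod_cast hN
  have ht0 : 0 < t := by rw [ht]; positivity
  have h1t : 1 / t = 2 * M + 2 := by rw [ht, one_div_one_div]
  have hMt : M * t < 1 := by
    rw [ht, mul_one_div, div_lt_one (by positivity)]
    linarith
  have habs : ∀ x, Λ ≤ |V x + Real.log ‖a‖| := by
    intro x
    rcases hcase with h1 | h1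
    · exact (h1 x).trans (le_abs_self _)
    · have := h1 x
      have := neg_abs_le (V x + Real.log ‖a‖)
      linarith
  -- closeness of `log |R|` to its mean
  have hclose : ∀ (x : ℂ) (r : ℝ), ‖x‖ ≤ 1 / t → 0 < r → h ≤ r / 2 → 4 * h / r * N ≤ Λ / 16 →
      (∀ i, r ≤ ‖x - Sum.elim z w i‖) → |Lq (Sum.elim z w) x - V x| ≤ 5 * Λ / 32 := by
    intro x r hx hr hhr h4 hxq
    obtain ⟨p, hp, hpx⟩ := grid_near hh hL x hx
    have h1 := hgrid p hp
    have h2 := Lq_close (Sum.elim z w) x (gridPt h p) hr hxq hpx hhr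
    have h5 := hV (gridPt h p) x (by rw [norm_sub_rev]; exact hpx)
    rw [abs_le] at h1 h2 h5 ⊢
    constructor <;> linarith [h1.1, h1.2, h2.1, h2.2, h5.1, h5.2]
  have hsN : σ / (4 * N) ≤ σ / 4 := by
    gcongr
    linarith
  have hhσ : h ≤ σ / 4 := hsm'.trans hsN
  have hzw : ∀ i j, z i ≠ w j := by
    intro i j hij
    have h1 := hsep (Sum.inl i) (Sum.inr j) (by simp)
    simp only [Sum.elim_inl, Sum.elim_inr] at h1
    rw [hij, sub_self, norm_zero] at h1
    linarith
  have hPw : ∀ x : ℂ, (∀ i, x - Sum.elim z w i ≠ 0) →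
      (Pool.Agent.W751.CD.P w).eval x ≠ 0 := by
    intro x hx
    rw [W327.RD.P_eval, Finset.prod_ne_zero_iff]
    exact fun i _ => hx (Sum.inr i)
  have hwr : ∀ x : ℂ, ‖x‖ ≤ t → Pr w x ≠ 0 := fun x hx =>
    Pr_ne_zero w (fun i => hq (Sum.inr i)) hx hM0 hMt
  have hzr : ∀ x : ℂ, ‖x‖ ≤ t → Pr z x ≠ 0 := fun x hx =>
    Pr_ne_zero z (fun i => hq (Sum.inl i)) hx hM0 hMt
  -- the circle
  have hcirc : ∀ x : ℂ, ‖x‖ = t → ‖a * (Pr z x / Pr w x)‖ =
      Real.exp (Real.log ‖a‖ + Lq (Sum.elim z w) x⁻¹) ∧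
        |Lq (Sum.elim z w) x⁻¹ - V x⁻¹| ≤ 5 * Λ / 32 := by
    intro x hx
    have hx0 : x ≠ 0 := by
      intro h0
      rw [h0, norm_zero] at hx
      linarith
    have hn : ‖x⁻¹‖ = 2 * M + 2 := by rw [norm_inv, hx, ← h1t, one_div]
    have hd : ∀ i, 1 ≤ ‖x⁻¹ - Sum.elim z w i‖ := by
      intro i
      have h1 := norm_sub_norm_le x⁻¹ (Sum.elim z w i)
      have h2 := hq i
      rw [hn] at h1
      linarith
    have hne : ∀ i, x⁻¹ - Sum.elim z w i ≠ 0 := by
      intro i h0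
      have := hd i
      rw [h0, norm_zero] at this
      linarith
    constructor
    · rw [← norm_aR z w ha hne, R_eq_Pr z w (inv_ne_zero hx0), inv_inv]
    · refine hclose x⁻¹ 1 (by rw [hn, h1t]) one_pos (by linarith) ?_ hd
      rw [div_one]
      refine le_trans ?_ hsm
      have h3 : h ≤ h / σ := by
        rw [le_div_iff₀ hσ]
        nlinarith
      calc 4 * h * N ≤ 8 * (h / σ) * N ^ 2 := by
            have : (N : ℝ) ≤ N ^ 2 := by nlinarith
            gcongr
            norm_num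
        _ = 8 * N ^ 2 * h / σ := by ring
  -- the neighbourhood of infinity
  have hinf : ∀ x : ℂ, ‖x‖ ≤ t → Pr w x ≠ 0 ∧ Off h t (a * (Pr z x / Pr w x)) := by
    intro x hx
    refine ⟨hwr x hx, ?_⟩
    rcases hcase with hc1 | hc1
    · right
      have h1 := quot_le w z (a := a⁻¹) (b := Real.exp (-(Λ / 2))) ht0 hzr (by
        intro y hy
        obtain ⟨e1, e2⟩ := hcirc y hy
        have e3 : a⁻¹ * (Pr w y / Pr z y) = (a * (Pr z y / Pr w y))⁻¹ := by
          rw [mul_inv, inv_div]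
        rw [e3, norm_inv, e1, ← Real.exp_neg]
        refine Real.exp_le_exp.mpr ?_
        have e4 := hc1 y⁻¹
        rw [abs_le] at e2
        linarith [e2.1]) x hx
      have e3 : a⁻¹ * (Pr w x / Pr z x) = (a * (Pr z x / Pr w x))⁻¹ := by
        rw [mul_inv, inv_div]
      rw [e3, norm_inv] at h1
      have hpos : 0 < ‖a * (Pr z x / Pr w x)‖ :=
        norm_pos_iff.mpr (mul_ne_zero ha (div_ne_zero (hzr x hx) (hwr x hx)))
      have h2 : Real.exp (Λ / 2) ≤ ‖a * (Pr z x / Pr w x)‖ := by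
        rw [Real.exp_neg] at h1
        exact (inv_le_inv₀ hpos (Real.exp_pos _)).mp h1
      exact h4t.trans_le h2
    · left
      have h1 := quot_le z w (a := a) (b := Real.exp (-(Λ / 2))) ht0 hwr (by
        intro y hy
        obtain ⟨e1, e2⟩ := hcirc y hy
        rw [e1]
        refine Real.exp_le_exp.mpr ?_
        have e4 := hc1 y⁻¹
        rw [abs_le] at e2
        linarith [e2.2]) x hx
      exact h1.trans_lt hs4
  refine W327.RD.rdyn N hN z w a h t ha hh ht0 hht hzw ?_ hinf ?_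
  · -- the neighbourhood of zero
    intro x hx
    have hxq : ∀ i, σ / 2 ≤ ‖x - Sum.elim z w i‖ := by
      intro i
      have h1 := hq0 i
      have h2 := norm_sub_norm_le (Sum.elim z w i) x
      rw [norm_sub_rev] at h2
      linarith
    have hx0 : ∀ i, x - Sum.elim z w i ≠ 0 := by
      intro i h1
      have h2 := hxq i
      rw [h1, norm_zero] at h2
      linarith
    refine ⟨hPw x hx0, ?_⟩
    have h8 : 4 * h / (σ / 2) * N ≤ Λ / 16 := by
      refine le_trans ?_ hsm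
      have e1 : 4 * h / (σ / 2) * N = 8 * N * h / σ := by field_simp; ring
      rw [e1]
      gcongr
      nlinarith
    have h1 := hclose x (σ / 2) (hx.trans hht.le) (by positivity) (by linarith) h8 hxq
    refine off_of2 (norm_aR z w ha hx0) ?_ h4t hs4
    have h3 : |(V x + Real.log ‖a‖) - (Real.log ‖a‖ + Lq (Sum.elim z w) x)| ≤ 5 * Λ / 32 := by
      rw [abs_le] at h1 ⊢
      constructor <;> linarith [h1.1, h1.2]
    have h4 := abs_sub_abs_le_abs_sub (V x + Real.log ‖a‖) (Real.log ‖a‖ + Lq (Sum.elim z w) x)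
    have h5 := habs x
    linarith
  · -- the critical points
    intro c hcw hcz hcrit hnoff
    exfalso
    apply hnoff
    rw [W327.RD.P_eval, Finset.prod_ne_zero_iff] at hcw hcz
    have hcq : ∀ i, c - Sum.elim z w i ≠ 0 := by
      intro i
      rcases i with i | i
      · exact hcz i (Finset.mem_univ i)
      · exact hcw i (Finset.mem_univ i)
    have hCq : Cq (Sum.elim z w) c = 0 := by
      rw [Cq_elim]
      have h1 := eval_derivative_P z c fun i => hcz i (Finset.mem_univ i)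
      have h2 := eval_derivative_P w c fun i => hcw i (Finset.mem_univ i)
      unfold Pool.Agent.H762R2.Rt.wro at hcrit
      rw [eval_sub, eval_mul, eval_mul, h1, h2] at hcrit
      have h3 : (Pool.Agent.W751.CD.P z).eval c ≠ 0 := by
        rw [W327.RD.P_eval, Finset.prod_ne_zero_iff]; exact hcz
      have h4 : (Pool.Agent.W751.CD.P w).eval c ≠ 0 := by
        rw [W327.RD.P_eval, Finset.prod_ne_zero_iff]; exact hcw
      have h5 : (Pool.Agent.W751.CD.P z).eval c * (Pool.Agent.W751.CD.P w).eval c *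
          ((∑ i, (c - z i)⁻¹) - ∑ i, (c - w i)⁻¹) = 0 := by
        linear_combination hcrit
      rcases mul_eq_zero.mp h5 with h6 | h6
      · exact absurd h6 (mul_ne_zero h3 h4)
      · exact h6
    rcases le_or_gt (1 / t) ‖c‖ with hct | hct
    · have hc0 : c ≠ 0 := by
        intro h1
        rw [h1, norm_zero] at hct
        have : 0 < 1 / t := by positivity
        linarith
      rw [R_eq_Pr z w hc0]
      refine (hinf c⁻¹ ?_).2
      rw [norm_inv]
      calc ‖c‖⁻¹ ≤ (1 / t)⁻¹ := inv_anti₀ (by positivity) hct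
        _ = t := by rw [one_div, inv_inv]
    · have hfar := far_of_sum (Sum.elim z w) (fun i => (sg i : ℂ)) norm_sg c hσ hsep hcq hCq
      rw [card_idx] at hfar
      push_cast at hfar
      have h8 : 4 * h / (σ / (2 * N)) * N ≤ Λ / 16 := by
        have e1 : 4 * h / (σ / (2 * N)) * N = 8 * N ^ 2 * h / σ := by field_simp; ring
        rw [e1]
        exact hsm
      have h9 : h ≤ σ / (2 * N) / 2 := by
        have e1 : σ / (2 * N) / 2 = σ / (4 * (N : ℝ)) := by field_simp; ring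
        rw [e1]
        exact hsm'
      have h1 := hclose c (σ / (2 * N)) hct.le (by positivity) h9 h8 hfar
      refine off_of2 (norm_aR z w ha hcq) ?_ h4t hs4
      have h3 : |(V c + Real.log ‖a‖) - (Real.log ‖a‖ + Lq (Sum.elim z w) c)| ≤ 5 * Λ / 32 := by
        rw [abs_le] at h1 ⊢
        constructor <;> linarith [h1.1, h1.2]
      have h4 := abs_sub_abs_le_abs_sub (V c + Real.log ‖a‖)
        (Real.log ‖a‖ + Lq (Sum.elim z w) c)
      have h5 := habs c
      linarith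

end Pool.Agent.H363Roots
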