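import Mathlib
import Pool.Agent.H363Roots.WinDet
import Pool.Agent.H363Roots.RatMain

/-!
# Rational maps with random zeros and poles: Gaussian tails
-/

set_option autoImplicit false

open MeasureTheory ProbabilityTheory Filter Topology Polynomial

namespace Pool.Agent.H363Roots

/-- The condition on the scaling `a`. -/
def GapQ {Ω : Type*} [MeasurableSpace Ω] (P : Measure Ω) {N : ℕ} (X : Fin N ⊕ Fin N → Ω → ℂ)
    (Λ : ℝ) (a : ℂ) : Prop :=
  (∀ x, Λ ≤ Vq P X x + Real.log ‖a‖) ∨ (∀ x, Vq P X x + Real.log ‖a‖ ≤ -Λ)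

section

variable {Ω : Type*} [MeasurableSpace Ω] {P : Measure Ω}

theorem prob_win [IsProbabilityMeasure P] {N : ℕ} {X : Fin N ⊕ Fin N → Ω → ℂ}
    (hX : ∀ i, Measurable (X i)) (hind : iIndepFun X P)
    {M s B B' Q u σ h Λ t : ℝ} {L : ℕ} (hN : 1 ≤ N) (hM0 : 0 ≤ M) (hs : 0 < s) (hs2 : s ≤ 2)
    (hB0 : 0 ≤ B) (hΛ : 0 < Λ) (hσ : 0 < σ) (hσ1 : σ ≤ 1)
    (hh : 0 < h) (ht : t = 1 / (2 * M + 2))
    (hL : (1 / t) / h + 1 ≤ L) (hLM : h * L ≤ 1 / t + 2)
    (hM : ∀ i, ∀ᵐ ω ∂P, ‖X i ω‖ ≤ M)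
    (hB : ∀ (i : Fin N ⊕ Fin N) (z : ℂ) (r : ℝ), 0 < r →
      P {ω | ‖X i ω - z‖ ≤ r} ≤ ENNReal.ofReal (B * r ^ s))
    (hB' : B' = 1 + B * (2 : ℝ) ^ (s / 2) / (1 - ((2 : ℝ) ^ (s / 2))⁻¹))
    (hQ : Q = 8 / (s / 2) ^ 2 * (B' + (2 * (1 / t + 2) + M) ^ (s / 2)))
    (hu : 0 < u) (hus : u ≤ s / 4) (huQ : u * Q ≤ Λ / (64 * N))
    (hhB : h ^ (s / 2) * B' / (s / 2) ≤ Λ / (64 * N))
    (hsm : 8 * N ^ 2 * h / σ ≤ Λ / 16) (hsm' : h ≤ σ / (4 * N))
    (h4t : 4 / t < Real.exp (Λ / 2)) (hs4 : Real.exp (-(Λ / 2)) < h / 4) (hht : h < 1 / t) :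
    P {ω | ¬ GoodQ (GapQ P X Λ) (fun i => X i ω)} ≤
      ENNReal.ofReal ((2 * L + 1) ^ 2 * (2 * Real.exp (-(u * Λ / 32))) +
        6 * N ^ 2 * (B * σ ^ s)) := by
  have hBr : ∀ (i : Fin N ⊕ Fin N) (z : ℂ) (r : ℝ), 0 < r →
      P {ω | ‖z - X i ω‖ ≤ r} ≤ ENNReal.ofReal (B * r ^ s) := by
    intro i z r hr
    refine le_trans (measure_mono ?_) (hB i z r hr)
    intro ω hω
    have h3 : ‖z - X i ω‖ ≤ r := hω
    show ‖X i ω - z‖ ≤ r
    rwa [norm_sub_rev]
  have hN0 : (0 : ℝ) < N := by exact_mod_cast hN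
  have hN1 : (1 : ℝ) ≤ N := by exact_mod_cast hN
  have hV : ∀ v x : ℂ, ‖v - x‖ ≤ h → |Vq P X v - Vq P X x| ≤ Λ / 32 := by
    intro v x hvx
    unfold Vq
    rw [← Finset.sum_sub_distrib]
    calc |∑ i, (sg i * (∫ ω, Real.log ‖v - X i ω‖ ∂P) - sg i * ∫ ω, Real.log ‖x - X i ω‖ ∂P)| ≤
        ∑ i, |sg i * (∫ ω, Real.log ‖v - X i ω‖ ∂P) - sg i * ∫ ω, Real.log ‖x - X i ω‖ ∂P| :=
          Finset.abs_sum_le_sum_abs _ _
      _ ≤ ∑ _i : Fin N ⊕ Fin N, Λ / (64 * N) := by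
          refine Finset.sum_le_sum fun i _ => ?_
          rw [← mul_sub, abs_mul, abs_sg, one_mul]
          have e1 := holder (hX i) hs hs2 hB0 (hBr i) hB' v x hh hvx (hM i)
          have e2 := holder (hX i) hs hs2 hB0 (hBr i) hB' x v hh
            (by rw [norm_sub_rev]; exact hvx) (hM i)
          rw [abs_le]
          constructor <;> linarith
      _ = Λ / 32 := by
          rw [Finset.sum_const, Finset.card_univ, card_idx, nsmul_eq_mul]
          push_cast
          field_simp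
          ring
  set G : Finset (ℤ × ℤ) := Finset.Icc (-(L : ℤ)) L ×ˢ Finset.Icc (-(L : ℤ)) L with hG
  set D : Finset ((Fin N ⊕ Fin N) × (Fin N ⊕ Fin N)) :=
    Finset.univ.filter fun p => p.1 ≠ p.2 with hD
  have hMall : ∀ᵐ ω ∂P, ∀ i, ‖X i ω‖ ≤ M := by
    rw [ae_all_iff]
    exact hM
  set E1 : Set Ω := ⋃ p ∈ G, {ω | ¬ |Lq (fun i => X i ω) (gridPt h p) -
    Vq P X (gridPt h p)| ≤ Λ / 16} with hE1
  set E2 : Set Ω := ⋃ p ∈ D, {ω | ‖X p.1 ω - X p.2 ω‖ ≤ σ} with hE2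
  set E3 : Set Ω := ⋃ i ∈ (Finset.univ : Finset (Fin N ⊕ Fin N)), {ω | ‖X i ω - 0‖ ≤ σ} with hE3
  have hsub : P {ω | ¬ GoodQ (GapQ P X Λ) (fun i => X i ω)} ≤ P (E1 ∪ (E2 ∪ E3)) := by
    refine measure_mono_ae ?_
    filter_upwards [hMall] with ω hω hbad
    by_contra hcon
    have hcon' : ω ∉ (E1 ∪ (E2 ∪ E3)) := hcon
    rw [Set.mem_union, Set.mem_union, not_or, not_or] at hcon'
    obtain ⟨hc1, hc2, hc3⟩ := hcon'
    apply hbad
    intro a ha hA
    have helim : (fun i => X i ω) = Sum.elim (fun i => X (Sum.inl i) ω)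
        (fun i => X (Sum.inr i) ω) := by
      funext i
      rcases i with i | i <;> rfl
    refine win_det hN (fun i => X (Sum.inl i) ω) (fun i => X (Sum.inr i) ω) (Vq P X)
      (M := M) (σ := σ) (h := h) (t := t) (Λ := Λ)
      (L := L) hM0 hΛ hσ hσ1 hh ht ?_ ?_ ?_ hV ?_ hL hsm hsm' h4t hs4 hht a ha hA
    · intro i
      rw [← helim]
      exact hω i
    · intro i
      rw [← helim]
      by_contra hle
      apply hc3
      rw [hE3, Set.mem_iUnion₂]
      refine ⟨i, Finset.mem_univ _, ?_⟩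
      show ‖X i ω - 0‖ ≤ σ
      rw [sub_zero]
      exact not_lt.mp hle
    · intro i j hij
      rw [← helim]
      by_contra hle
      apply hc2
      rw [hE2, Set.mem_iUnion₂]
      refine ⟨(i, j), ?_, ?_⟩
      · rw [hD, Finset.mem_filter]
        exact ⟨Finset.mem_univ _, hij⟩
      · exact not_lt.mp hle
    · intro p hp
      rw [← helim]
      by_contra hle
      apply hc1
      rw [hE1, Set.mem_iUnion₂]
      exact ⟨p, hp, hle⟩
  have hB2 : 0 ≤ B * σ ^ s := by positivity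
  refine hsub.trans ((measure_union_le _ _).trans ?_)
  rw [ENNReal.ofReal_add (by positivity) (by positivity)]
  refine add_le_add ?_ ((measure_union_le _ _).trans ?_)
  · refine (measure_biUnion_finset_le _ _).trans ?_
    calc ∑ p ∈ G, P {ω | ¬ |Lq (fun i => X i ω) (gridPt h p) -
          Vq P X (gridPt h p)| ≤ Λ / 16} ≤
        ∑ _p ∈ G, ENNReal.ofReal (2 * Real.exp (-(u * Λ / 32))) := by
          refine Finset.sum_le_sum fun p hp => ?_
          have e0 : Λ / (16 * N) / 4 = Λ / (64 * N) := by field_simp; ring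
          have h1 := conc hX hind (A := 2 * (1 / t + 2) + M) (d := Λ / (16 * N)) hs hB0 hBr hB' hQ hu
            hus (by rw [e0]; exact huQ) (gridPt h p) (by
              intro i
              filter_upwards [hM i] with ω hω
              have h1 := norm_gridPt_le hh hp
              have h2 := norm_sub_le (gridPt h p) (X i ω)
              linarith)
          have e2 : -(u * (Λ / (16 * N)) / 2) * (N : ℝ) = -(u * Λ / 32) := by field_simp; ring
          have e3 : Λ / (16 * N) * (N : ℝ) = Λ / 16 := by field_simp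
          rw [e2, e3] at h1
          exact h1
      _ = ENNReal.ofReal ((2 * L + 1) ^ 2 * (2 * Real.exp (-(u * Λ / 32)))) := by
          rw [Finset.sum_const, hG, Finset.card_product, Int.card_Icc, nsmul_eq_mul,
            ENNReal.ofReal_mul (p := (2 * (L : ℝ) + 1) ^ 2) (by positivity)]
          congr 1
          have h3 : ((L : ℤ) + 1 - -(L : ℤ)).toNat = 2 * L + 1 := by omega
          rw [h3]
          have h4 : ((2 * (L : ℝ) + 1) ^ 2) = (((2 * L + 1) * (2 * L + 1) : ℕ) : ℝ) := by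
            push_cast
            ring
          rw [h4, ENNReal.ofReal_natCast]
  · have h1 : P E2 ≤ ENNReal.ofReal (4 * N ^ 2 * (B * σ ^ s)) := by
      refine (measure_biUnion_finset_le _ _).trans ?_
      calc ∑ p ∈ D, P {ω | ‖X p.1 ω - X p.2 ω‖ ≤ σ} ≤
          ∑ _p ∈ D, ENNReal.ofReal (B * σ ^ s) := by
            refine Finset.sum_le_sum fun p hp => ?_
            rw [hD, Finset.mem_filter] at hp
            exact pair_close (hX _) (hX _) (hind.indepFun hp.2) fun z => hB p.2 z σ hσ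
        _ ≤ ENNReal.ofReal (4 * N ^ 2 * (B * σ ^ s)) := by
            rw [Finset.sum_const, nsmul_eq_mul, ENNReal.ofReal_mul (p := 4 * (N : ℝ) ^ 2)
              (by positivity)]
            refine mul_le_mul' ?_ le_rfl
            have h5 : D.card ≤ 4 * N ^ 2 := by
              refine (Finset.card_filter_le _ _).trans ?_
              rw [Finset.card_univ, Fintype.card_prod, card_idx]
              ring_nf
              exact le_rfl
            have h6 : (4 * (N : ℝ) ^ 2) = ((4 * N ^ 2 : ℕ) : ℝ) := by push_cast; rfl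
            rw [h6, ENNReal.ofReal_natCast]
            exact_mod_cast h5
    have h2 : P E3 ≤ ENNReal.ofReal (2 * N * (B * σ ^ s)) := by
      refine (measure_biUnion_finset_le _ _).trans ?_
      calc ∑ i ∈ (Finset.univ : Finset (Fin N ⊕ Fin N)), P {ω | ‖X i ω - 0‖ ≤ σ} ≤
          ∑ _i ∈ (Finset.univ : Finset (Fin N ⊕ Fin N)), ENNReal.ofReal (B * σ ^ s) :=
            Finset.sum_le_sum fun i _ => hB i 0 σ hσ
        _ = ENNReal.ofReal (2 * N * (B * σ ^ s)) := by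
            rw [Finset.sum_const, Finset.card_univ, card_idx, nsmul_eq_mul,
              ENNReal.ofReal_mul (p := 2 * (N : ℝ)) (by positivity)]
            congr 1
            have h6 : (2 * (N : ℝ)) = ((2 * N : ℕ) : ℝ) := by push_cast; rfl
            rw [h6, ENNReal.ofReal_natCast]
    refine (add_le_add h1 h2).trans ?_
    rw [← ENNReal.ofReal_add (by positivity) (by positivity)]
    refine ENNReal.ofReal_le_ofReal ?_
    have h3 : 2 * (N : ℝ) * (B * σ ^ s) ≤ 2 * N ^ 2 * (B * σ ^ s) := by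
      have : (N : ℝ) ≤ N ^ 2 := by nlinarith
      gcongr
    linarith

end

/-- Gaussian tails, with a power of `N` as a factor. -/
theorem mainW0 (M s B : ℝ) (hM0 : 0 ≤ M) (hB0 : 0 ≤ B) (hs : 0 < s) (hs2 : s ≤ 2) :
    ∃ (K c : ℝ) (k : ℕ), 0 < K ∧ 0 < c ∧
      ∀ (Ω : Type) [MeasurableSpace Ω] (P : Measure Ω) [IsProbabilityMeasure P] (N : ℕ)
        (X : Fin N ⊕ Fin N → Ω → ℂ), 1 ≤ N → (∀ i, Measurable (X i)) → iIndepFun X P →
        (∀ i, ∀ᵐ ω ∂P, ‖X i ω‖ ≤ M) →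
        (∀ (i : Fin N ⊕ Fin N) (z : ℂ) (r : ℝ), 0 < r →
          P {ω | ‖X i ω - z‖ ≤ r} ≤ ENNReal.ofReal (B * r ^ s)) →
        ∀ Λ : ℝ, 0 < Λ → Λ ≤ N →
          P {ω | ¬ GoodQ (GapQ P X Λ) (fun i => X i ω)} ≤
            ENNReal.ofReal (K * N ^ k * Real.exp (-(c * Λ ^ 2 / N))) := by
  set t : ℝ := 1 / (2 * M + 2) with ht
  have ht0 : 0 < t := by positivity
  have h1t : 1 / t = 2 * M + 2 := by rw [ht, one_div_one_div]
  set B' : ℝ := 1 + B * (2 : ℝ) ^ (s / 2) / (1 - ((2 : ℝ) ^ (s / 2))⁻¹) with hB'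
  set Q : ℝ := 8 / (s / 2) ^ 2 * (B' + (2 * (1 / t + 2) + M) ^ (s / 2)) with hQ
  have hB'0 : 0 < B' := by
    have h2q : 1 < (2 : ℝ) ^ (s / 2) := Real.one_lt_rpow (by norm_num) (by positivity)
    have h1 : ((2 : ℝ) ^ (s / 2))⁻¹ < 1 := inv_lt_one_of_one_lt₀ h2q
    have h2 : 0 < 1 - ((2 : ℝ) ^ (s / 2))⁻¹ := by linarith
    positivity
  have hQ0 : 0 < Q := by positivity
  set Q1 : ℝ := max Q (1 / (16 * s)) with hQ1
  have hQ10 : 0 < Q1 := lt_max_of_lt_left hQ0
  have hQQ1 : Q ≤ Q1 := le_max_left _ _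
  have hQ1s : 1 / (16 * s) ≤ Q1 := le_max_right _ _
  set c0 : ℝ := 1 / (2048 * Q1) with hc0
  have hc00 : 0 < c0 := by positivity
  set ε : ℝ := min (c0 / 4) (1 / 8) with hε
  have hε0 : 0 < ε := lt_min (by positivity) (by norm_num)
  have hεc : ε ≤ c0 / 4 := min_le_left _ _
  have hε8 : ε ≤ 1 / 8 := min_le_right _ _
  set c : ℝ := min (c0 / 2) (ε * s) with hc
  have hcpos : 0 < c := lt_min (by positivity) (by positivity)
  have hcc0 : c ≤ c0 / 2 := min_le_left _ _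
  have hcεs : c ≤ ε * s := min_le_right _ _
  -- the mesh constant
  obtain ⟨κ, hκ0, hκ1, hκB⟩ : ∃ κ : ℝ, 0 < κ ∧ κ ≤ 1 / 128 ∧
      κ ^ (s / 2) * B' / (s / 2) ≤ 1 / 64 := by
    have h1 : Tendsto (fun h : ℝ => h ^ (s / 2) * B' / (s / 2)) (𝓝[>] 0)
        (𝓝 ((0 : ℝ) ^ (s / 2) * B' / (s / 2))) := by
      have h4 : ContinuousAt (fun r : ℝ => r ^ (s / 2)) 0 :=
        Real.continuousAt_rpow_const 0 _ (Or.inr (by positivity))
      exact ((h4.tendsto.mono_left nhdsWithin_le_nhds).mul_const B').div_const _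
    rw [Real.zero_rpow (by positivity), zero_mul, zero_div] at h1
    have h2 := h1.eventually_le_const (by norm_num : (0 : ℝ) < 1 / 64)
    have h3 : ∀ᶠ h : ℝ in 𝓝[>] 0, h ∈ Set.Ioc (0 : ℝ) (1 / 128) :=
      Ioc_mem_nhdsGT (by norm_num)
    obtain ⟨h, hh⟩ := (h2.and h3).exists
    exact ⟨h, hh.2.1, hh.2.2, hh.1⟩
  set m : ℕ := ⌈2 / s⌉₊ + 2 with hm
  have hm2 : 2 ≤ m := by omega
  have hms : 1 ≤ (m : ℝ) * (s / 2) := by
    have h1 : 2 / s ≤ (m : ℝ) := by
      rw [hm]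
      push_cast
      linarith [Nat.le_ceil (2 / s)]
    calc (1 : ℝ) = 2 / s * (s / 2) := by field_simp
      _ ≤ m * (s / 2) := by gcongr
  set D : ℝ := 1 + 2 * Real.log (8 * M + 8) + 8 / 3 * (Real.log (4 / κ) + 1 + m) with hD
  have hlog8 : 0 ≤ Real.log (8 * M + 8) := Real.log_nonneg (by linarith)
  have hlogκ : 0 ≤ Real.log (4 / κ) := by
    apply Real.log_nonneg
    rw [le_div_iff₀ hκ0]
    linarith
  have hD0 : 0 < D := by positivity
  set C1 : ℝ := (2 / t + 5) ^ 2 / κ ^ 2 with hC1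
  have hC10 : 0 < C1 := by positivity
  set k : ℕ := 2 * m + ⌈c * D⌉₊ with hk
  have hkm : 2 * m ≤ k := by omega
  have hkD : c * D ≤ k := by
    rw [hk]
    push_cast
    have := Nat.le_ceil (c * D)
    have : (0 : ℝ) ≤ m := Nat.cast_nonneg m
    linarith
  set K : ℝ := 2 * C1 + 6 * B + Real.exp (c * D) with hK
  have hK0 : 0 < K := by positivity
  refine ⟨K, c, k, hK0, hcpos, ?_⟩
  intro Ω _ P _ N X hN hX hind hM hB Λ hΛ hΛN
  have hN0 : (0 : ℝ) < N := by exact_mod_cast hN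
  have hN1 : (1 : ℝ) ≤ N := by exact_mod_cast hN
  rcases le_or_gt 1 (K * N ^ k * Real.exp (-(c * Λ ^ 2 / N))) with htriv | hnon
  · refine prob_le_one.trans ?_
    rw [← ENNReal.ofReal_one]
    exact ENNReal.ofReal_le_ofReal htriv
  · -- `Λ` is large
    have hlogN : 0 ≤ Real.log N := Real.log_nonneg hN1
    have hΛD : D * (1 + Real.log N) < Λ := by
      have h1 : Real.exp (c * D) * N ^ k < Real.exp (c * Λ ^ 2 / N) := by
        have h2 : Real.exp (c * D) * N ^ k ≤ K * N ^ k := by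
          gcongr
          rw [hK]
          have : 0 ≤ 2 * C1 + 6 * B := by positivity
          linarith
        rw [Real.exp_neg, ← div_eq_mul_inv, div_lt_one (Real.exp_pos _)] at hnon
        exact h2.trans_lt hnon
      have h2 : Real.exp (c * D) * N ^ k = Real.exp (c * D + k * Real.log N) := by
        rw [Real.exp_add, Real.exp_nat_mul, Real.exp_log hN0]
      rw [h2, Real.exp_lt_exp] at h1
      have h3 : c * D * Real.log N ≤ k * Real.log N := by gcongr
      have h4 : c * Λ ^ 2 / N ≤ c * Λ := by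
        rw [div_le_iff₀ hN0]
        have : Λ ^ 2 ≤ Λ * N := by nlinarith
        nlinarith
      have h5 : c * (D * (1 + Real.log N)) < c * Λ := by nlinarith
      exact lt_of_mul_lt_mul_left h5 hcpos.le
    have hDN : D ≤ D * (1 + Real.log N) := by nlinarith
    have hΛ1 : 1 ≤ Λ := by
      have : 1 ≤ D := by
        rw [hD]
        have : (0 : ℝ) ≤ m := Nat.cast_nonneg m
        linarith
      linarith
    set σ : ℝ := Real.exp (-(ε * Λ ^ 2 / N)) with hσ
    have hσ0 : 0 < σ := Real.exp_pos _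
    have hσ1 : σ ≤ 1 := by
      rw [hσ, Real.exp_le_one_iff]
      have : 0 ≤ ε * Λ ^ 2 / N := by positivity
      linarith
    have hNm0 : (0 : ℝ) < (N : ℝ) ^ m := by positivity
    have hNm2 : (N : ℝ) ^ 2 ≤ (N : ℝ) ^ m := pow_le_pow_right₀ hN1 hm2
    set h : ℝ := κ * σ / N ^ m with hh
    have hh0 : 0 < h := by positivity
    have hh2 : h ≤ κ * σ / N ^ 2 := by
      rw [hh]
      gcongr
    have hN2 : (1 : ℝ) ≤ (N : ℝ) ^ 2 := one_le_pow₀ hN1
    have hh3 : h ≤ σ / (128 * N ^ 2) := by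
      calc h ≤ κ * σ / N ^ 2 := hh2
        _ ≤ 1 / 128 * σ / N ^ 2 := by gcongr
        _ = σ / (128 * N ^ 2) := by field_simp
    have hsm : 8 * N ^ 2 * h / σ ≤ Λ / 16 := by
      calc 8 * N ^ 2 * h / σ ≤ 8 * N ^ 2 * (σ / (128 * N ^ 2)) / σ := by gcongr
        _ = 1 / 16 := by field_simp; norm_num
        _ ≤ Λ / 16 := by gcongr
    have hsm' : h ≤ σ / (4 * N) := by
      refine hh3.trans ?_
      have : (4 * (N : ℝ)) ≤ 128 * N ^ 2 := by nlinarith
      gcongr
    have hh1 : h ≤ 1 / 128 := by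
      refine hh3.trans ?_
      calc σ / (128 * N ^ 2) ≤ 1 / (128 * 1) := by gcongr
        _ = 1 / 128 := by norm_num
    have hht : h < 1 / t := by
      rw [h1t]
      linarith
    have h4t : 4 / t < Real.exp (Λ / 2) := by
      have e1 : 4 / t = 8 * M + 8 := by
        have : 4 / t = 4 * (1 / t) := by ring
        rw [this, h1t]
        ring
      rw [e1, ← Real.exp_log (by positivity : 0 < 8 * M + 8)]
      refine Real.exp_lt_exp.mpr ?_
      have : 2 * Real.log (8 * M + 8) < D := by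
        rw [hD]
        have : (0 : ℝ) ≤ m := Nat.cast_nonneg m
        linarith
      linarith
    have hεΛ : ε * Λ ^ 2 / N ≤ Λ / 8 := by
      rw [div_le_iff₀ hN0]
      have : Λ ^ 2 ≤ Λ * N := by nlinarith
      nlinarith
    have hs4 : Real.exp (-(Λ / 2)) < h / 4 := by
      have e1 : h / 4 = Real.exp (-(ε * Λ ^ 2 / N) - Real.log (4 / κ) - m * Real.log N) := by
        rw [Real.exp_sub, Real.exp_sub, Real.exp_log (by positivity : 0 < 4 / κ),
          Real.exp_nat_mul, Real.exp_log hN0, hh, hσ]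
        field_simp
      rw [e1]
      refine Real.exp_lt_exp.mpr ?_
      have e2 : 8 / 3 * (Real.log (4 / κ) + 1 + m) * (1 + Real.log N) ≤
          D * (1 + Real.log N) := by
        have : 8 / 3 * (Real.log (4 / κ) + 1 + m) ≤ D := by
          rw [hD]
          linarith
        gcongr
      have hm0 : (0 : ℝ) ≤ m := Nat.cast_nonneg m
      nlinarith [mul_nonneg hlogκ hlogN, mul_nonneg hm0 hlogN]
    set u : ℝ := Λ / (64 * N * Q1) with hu
    have hu0 : 0 < u := by positivity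
    have hus : u ≤ s / 4 := by
      calc u ≤ N / (64 * N * Q1) := by rw [hu]; gcongr
        _ = 1 / (64 * Q1) := by field_simp
        _ ≤ 1 / (64 * (1 / (16 * s))) := by gcongr
        _ = s / 4 := by field_simp; norm_num
    have huQ : u * Q ≤ Λ / (64 * N) := by
      calc u * Q ≤ u * Q1 := by gcongr
        _ = Λ / (64 * N) := by rw [hu]; field_simp
    have hhB : h ^ (s / 2) * B' / (s / 2) ≤ Λ / (64 * N) := by
      have e1 : h ^ (s / 2) ≤ κ ^ (s / 2) / N := by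
        have e2 : h ≤ κ / N ^ m := by
          rw [hh]
          calc κ * σ / N ^ m ≤ κ * 1 / N ^ m := by gcongr
            _ = κ / N ^ m := by rw [mul_one]
        calc h ^ (s / 2) ≤ (κ / N ^ m) ^ (s / 2) :=
              Real.rpow_le_rpow hh0.le e2 (by positivity)
          _ = κ ^ (s / 2) / ((N : ℝ) ^ m) ^ (s / 2) := Real.div_rpow hκ0.le (by positivity) _
          _ ≤ κ ^ (s / 2) / N := by
            have e3 : (N : ℝ) ≤ ((N : ℝ) ^ m) ^ (s / 2) := by
              rw [← Real.rpow_natCast, ← Real.rpow_mul hN0.le]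
              calc (N : ℝ) = (N : ℝ) ^ (1 : ℝ) := (Real.rpow_one _).symm
                _ ≤ (N : ℝ) ^ ((m : ℝ) * (s / 2)) := Real.rpow_le_rpow_of_exponent_le hN1 hms
            have : 0 < κ ^ (s / 2) := Real.rpow_pos_of_pos hκ0 _
            gcongr
      calc h ^ (s / 2) * B' / (s / 2) ≤ κ ^ (s / 2) / N * B' / (s / 2) := by gcongr
        _ = κ ^ (s / 2) * B' / (s / 2) / N := by ring
        _ ≤ 1 / 64 / N := by gcongr
        _ ≤ Λ / (64 * N) := by
          rw [div_div]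
          gcongr
    set L : ℕ := ⌈(1 / t) / h⌉₊ + 1 with hL
    have hL1 : (1 / t) / h + 1 ≤ L := by
      rw [hL]
      push_cast
      linarith [Nat.le_ceil ((1 / t) / h)]
    have hL2 : (L : ℝ) ≤ (1 / t) / h + 2 := by
      rw [hL]
      push_cast
      linarith [Nat.ceil_lt_add_one (by positivity : 0 ≤ (1 / t) / h)]
    have hL3 : h * L ≤ 1 / t + 2 := by
      calc h * L ≤ h * ((1 / t) / h + 2) := by gcongr
        _ = 1 / t + 2 * h := by field_simp
        _ ≤ 1 / t + 2 := by linarith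
    have hfin := prob_win hX hind (t := t) (h := h) (L := L) (u := u) (σ := σ) (Λ := Λ) hN hM0
      hs hs2 hB0 hΛ hσ0 hσ1 hh0 ht hL1 hL3 hM hB hB' hQ hu0 hus huQ hhB hsm hsm' h4t hs4 hht
    refine hfin.trans (ENNReal.ofReal_le_ofReal ?_)
    set E : ℝ := Real.exp (-(c * Λ ^ 2 / N)) with hE
    have hE0 : 0 < E := Real.exp_pos _
    have f1 : (2 * (L : ℝ) + 1) ^ 2 * (2 * Real.exp (-(u * Λ / 32))) ≤
        2 * C1 * N ^ k * E := by
      have g1 : 2 * (L : ℝ) + 1 ≤ (2 / t + 5) / h := by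
        rw [le_div_iff₀ hh0]
        calc (2 * (L : ℝ) + 1) * h ≤ (2 * ((1 / t) / h + 2) + 1) * h := by gcongr
          _ = 2 / t + 5 * h := by field_simp; ring
          _ ≤ 2 / t + 5 := by linarith
      have g2 : Real.exp (-(u * Λ / 32)) = Real.exp (-(c0 * Λ ^ 2 / N)) := by
        congr 1
        rw [hu, hc0]
        field_simp
        norm_num
      have g3 : (σ ^ 2)⁻¹ * Real.exp (-(c0 * Λ ^ 2 / N)) ≤ E := by
        rw [hσ, sq, ← Real.exp_add, ← Real.exp_neg, ← Real.exp_add, hE]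
        refine Real.exp_le_exp.mpr ?_
        have g4 : 0 ≤ Λ ^ 2 / N := by positivity
        have g5 : c * (Λ ^ 2 / N) ≤ c0 / 2 * (Λ ^ 2 / N) := by gcongr
        have g6 : ε * (Λ ^ 2 / N) ≤ c0 / 4 * (Λ ^ 2 / N) := by gcongr
        have e1 : ∀ y : ℝ, y * Λ ^ 2 / N = y * (Λ ^ 2 / N) := fun y => by ring
        rw [e1, e1, e1]
        linarith
      have g7 : (N : ℝ) ^ (2 * m) ≤ (N : ℝ) ^ k := pow_le_pow_right₀ hN1 hkm
      calc (2 * (L : ℝ) + 1) ^ 2 * (2 * Real.exp (-(u * Λ / 32))) ≤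
          ((2 / t + 5) / h) ^ 2 * (2 * Real.exp (-(c0 * Λ ^ 2 / N))) := by
            rw [g2]
            gcongr
        _ = 2 * C1 * N ^ (2 * m) * ((σ ^ 2)⁻¹ * Real.exp (-(c0 * Λ ^ 2 / N))) := by
            rw [hh, hC1, pow_mul']
            field_simp
        _ ≤ 2 * C1 * N ^ k * E := by gcongr
    have f2 : 6 * (N : ℝ) ^ 2 * (B * σ ^ s) ≤ 6 * B * N ^ k * E := by
      have g1 : σ ^ s ≤ E := by
        rw [hσ, ← Real.exp_mul, hE]
        refine Real.exp_le_exp.mpr ?_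
        have g4 : 0 ≤ Λ ^ 2 / N := by positivity
        have g5 : c * (Λ ^ 2 / N) ≤ ε * s * (Λ ^ 2 / N) := by gcongr
        have e1 : c * Λ ^ 2 / N = c * (Λ ^ 2 / N) := by ring
        have e2 : -(ε * Λ ^ 2 / N) * s = -(ε * s * (Λ ^ 2 / N)) := by ring
        rw [e1, e2]
        linarith
      have g2 : (N : ℝ) ^ 2 ≤ (N : ℝ) ^ k := pow_le_pow_right₀ hN1 (by omega)
      calc 6 * (N : ℝ) ^ 2 * (B * σ ^ s) ≤ 6 * (N : ℝ) ^ k * (B * E) := by gcongr
        _ = 6 * B * N ^ k * E := by ring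
    have f3 : 0 ≤ Real.exp (c * D) * N ^ k * E := by positivity
    calc (2 * (L : ℝ) + 1) ^ 2 * (2 * Real.exp (-(u * Λ / 32))) + 6 * N ^ 2 * (B * σ ^ s) ≤
        2 * C1 * N ^ k * E + 6 * B * N ^ k * E := add_le_add f1 f2
      _ ≤ K * N ^ k * E := by
        rw [hK]
        nlinarith

end Pool.Agent.H363Roots
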